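import Pool.Agent.H73.S3.Al

/-!
# [H88 S3 LOE] MP_b39724_nt, stage 3, the prime 2: the local functional (condition (C4'), think 1773)

`S` a group generated by the `y a`, `U` a set of letters, `ρ : S → S` the retraction on the group of the letters of `U`. `loc_ex`: if `∑ v, χ v (z v) = 0` for all families `z v ∈ ρ (gam_m)` at the variables with
a letter in `U` such that the product of the `⁅y v, z v⁆` is in `ρ (gam_(m+2))`, then there is a functional `lam` of `gam_(m+1)` with `χ v z = - lam ⁅y v, z⁆` for the `z ∈ ρ (gam_m)` (letter in `U`).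
Proof. `Φ (a) = ∑ v, br (y v) (ρ a_v)`, `Ψ (a) = ∑ v, χ v (ρ a_v)`: the kernel of `Φ` is in the kernel of `Ψ`; `lam a = - Ψ (b)` for `Φ b = ρ a` (`ρ (gam_(m+1))` is in the range of `Φ` modulo `gam_(m+2)`).
-/

set_option autoImplicit false

open scoped commutatorElement
open scoped Classical

noncomputable section

namespace H88.S3

open H73.S3

section loc

variable {S : Type} [Group S] {α ι : Type}

theorem gm_map (ρ : S →* S) {m : ℕ} {u : S} (hu : u ∈ gm S m) : ρ u ∈ gm S m := by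
  have h1 := Subgroup.mem_map_of_mem ρ hu
  unfold gm at h1 ⊢
  rw [Subgroup.map_lowerCentralSeries] at h1
  exact Subgroup.lowerCentralSeries_mono _ le_top h1

/-- the map on the layers given by an endomorphism -/
theorem rg_ex (ρ : S →* S) (m : ℕ) :
    ∃ F : Gr S m →+ Gr S m, ∀ u ∈ gm S m, F (gk m u) = gk m (ρ u) := by
  refine gr_lift m (fun u => gk m (ρ u)) (fun u hu v hv => ?_) fun u hu => ?_
  · rw [map_mul, gk_mul (gm_map ρ hu) (gm_map ρ hv)]
  · exact (gk_zero (gm_anti m (gm_map ρ hu))).2 (gm_map ρ hu)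

theorem gk_list {m : ℕ} {I : Type} (l : List I) (f : I → S) (hf : ∀ i, f i ∈ gm S m) :
    (l.map f).prod ∈ gm S m ∧ gk m (l.map f).prod = (l.map fun i => gk m (f i)).sum := by
  induction l with
  | nil => exact ⟨one_mem _, gk_one m⟩
  | cons a l ih =>
    rw [List.map_cons, List.prod_cons, List.map_cons, List.sum_cons]
    exact ⟨mul_mem (hf a) ih.1, by rw [gk_mul (hf a) ih.1, ih.2]⟩

theorem br_one (m : ℕ) (b : Gr S m) : br m (1 : S) b = 0 := by
  obtain ⟨u, hu, rfl⟩ := gk_surj m b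
  rw [br_gk _ hu, commutatorElement_one_left, gk_one]

theorem br_mul (m : ℕ) (g h : S) (b : Gr S m) : br m (g * h) b = br m g b + br m h b := by
  obtain ⟨u, hu, rfl⟩ := gk_surj m b
  rw [br_gk _ hu, br_gk _ hu, br_gk _ hu]
  have h1 : ⁅g * h, u⁆ = (g * ⁅h, u⁆ * g⁻¹) * ⁅g, u⁆ := by
    simp only [commutatorElement_def]
    group
  rw [h1, gk_mul ((gm_normal _).conj_mem _ (gm_comm' m hu) g) (gm_comm' m hu),
    gk_conj (gm_comm' m hu)]
  exact add_comm _ _

theorem br_inv (m : ℕ) (g : S) (b : Gr S m) : br m g⁻¹ b = -br m g b := by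
  have h1 := br_mul m g g⁻¹ b
  rw [mul_inv_cancel, br_one] at h1
  exact (neg_eq_of_add_eq_zero_right h1.symm).symm

theorem loc_ex (y : α → S) (hgen : Subgroup.closure (Set.range y) = ⊤) (U : Finset α) (ρ : S →* S)
    (h1 : ∀ a ∈ U, ρ (y a) = y a) (h2 : ∀ a, a ∉ U → ρ (y a) = 1) (hρ : ∀ x, ρ (ρ x) = ρ x)
    (q m : ℕ) (hm : 1 ≤ m) (s : ι → α) (hs : ∀ a ∈ U, ∃ v, s v = a) (χ : ι → Du S q m)
    (H : ∀ (L : List ι) (z : ι → S), L.Nodup → (∀ v ∈ L, s v ∈ U ∧ ∃ u ∈ gm S m, z v = ρ u) →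
      (L.map fun v => ⁅y (s v), z v⁆).prod ∈ (gm S (m + 2)).map ρ →
      (L.map fun v => (χ v).ap (gk m (z v))).sum = 0) :
    ∃ lam : Du S q (m + 1), ∀ v, s v ∈ U → ∀ u ∈ gm S m,
      (χ v).ap (gk m (ρ u)) = -lam.ap (br m (y (s v)) (gk m (ρ u))) := by
  obtain ⟨rg, hrg⟩ := rg_ex ρ m
  obtain ⟨rg', hrg'⟩ := rg_ex ρ (m + 1)
  obtain ⟨Φ, hΦ⟩ : ∃ Φ : ({v : ι // s v ∈ U} →₀ Gr S m) →+ Gr S (m + 1),
      Φ = Finsupp.liftAddHom fun v => (br m (y (s v.1))).comp rg := ⟨_, rfl⟩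
  obtain ⟨Ψ, hΨ⟩ : ∃ Ψ : ({v : ι // s v ∈ U} →₀ Gr S m) →+ ZMod q,
      Ψ = Finsupp.liftAddHom fun v => (χ v.1).ap.comp rg := ⟨_, rfl⟩
  -- the kernels
  have hker : ∀ F, Φ F = 0 → Ψ F = 0 := by
    intro F hF
    have hu : ∀ v, ∃ u ∈ gm S m, gk m u = F v := fun v => gk_surj m (F v)
    choose u hu1 hu2 using hu
    obtain ⟨z, hz⟩ : ∃ z : ι → S, z = fun v => if h : s v ∈ U then ρ (u ⟨v, h⟩) else 1 := ⟨_, rfl⟩
    have hzv : ∀ v : {v : ι // s v ∈ U}, z v.1 = ρ (u v) := by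
      intro v
      rw [hz]
      exact dif_pos v.2
    have hcm : ∀ v : {v : ι // s v ∈ U}, ⁅y (s v.1), ρ (u v)⁆ ∈ gm S (m + 1) :=
      fun v => gm_comm' m (gm_map ρ (hu1 v))
    obtain ⟨g1, g2⟩ := gk_list F.support.toList (fun v => ⁅y (s v.1), ρ (u v)⁆) hcm
    have e1 : Φ F = (F.support.toList.map fun v => gk (m + 1) ⁅y (s v.1), ρ (u v)⁆).sum := by
      rw [hΦ, Finsupp.liftAddHom_apply, Finsupp.sum, Finset.sum_map_toList]
      refine Finset.sum_congr rfl fun v _ => ?_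
      show br m (y (s v.1)) (rg (F v)) = _
      rw [← hu2 v, hrg _ (hu1 v), br_gk _ (gm_map ρ (hu1 v))]
    have e2 : (F.support.toList.map fun v => ⁅y (s v.1), ρ (u v)⁆).prod ∈ gm S (m + 2) := by
      rw [← gk_zero g1, g2, ← e1]
      exact hF
    have e3 : ρ (F.support.toList.map fun v => ⁅y (s v.1), ρ (u v)⁆).prod =
        (F.support.toList.map fun v => ⁅y (s v.1), ρ (u v)⁆).prod := by
      rw [map_list_prod, List.map_map]
      congr 1
      refine List.map_congr_left fun v _ => ?_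
      show ρ ⁅y (s v.1), ρ (u v)⁆ = _
      rw [map_commutatorElement, h1 _ v.2, hρ]
    have e4 := H (F.support.toList.map Subtype.val) z
      ((Finset.nodup_toList _).map Subtype.val_injective)
      (fun v hv => by
        obtain ⟨v, -, rfl⟩ := List.mem_map.1 hv
        exact ⟨v.2, u v, hu1 v, hzv v⟩)
      (by
        rw [List.map_map]
        have e5 : F.support.toList.map ((fun v => ⁅y (s v), z v⁆) ∘ Subtype.val) =
            F.support.toList.map fun v => ⁅y (s v.1), ρ (u v)⁆ := by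
          refine List.map_congr_left fun v _ => ?_
          show ⁅y (s v.1), z v.1⁆ = _
          rw [hzv]
        rw [e5, ← e3]
        exact Subgroup.mem_map_of_mem ρ e2)
    rw [List.map_map, Finset.sum_map_toList] at e4
    rw [hΨ, Finsupp.liftAddHom_apply, Finsupp.sum, ← e4]
    refine Finset.sum_congr rfl fun v _ => ?_
    show (χ v.1).ap (rg (F v)) = (χ v.1).ap (gk m (z v.1))
    rw [hzv, ← hu2 v, hrg _ (hu1 v)]
  -- the range
  have hgr : ∀ (u : S), u ∈ gm S m → ∀ g : S, br m (ρ g) (gk m (ρ u)) ∈ Φ.range := by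
    intro u hu g
    have hg : g ∈ Subgroup.closure (Set.range y) := by
      rw [hgen]
      exact Subgroup.mem_top g
    induction hg using Subgroup.closure_induction with
    | mem x hx =>
      obtain ⟨a, rfl⟩ := hx
      by_cases ha : a ∈ U
      · obtain ⟨v, hv⟩ := hs a ha
        refine ⟨Finsupp.single ⟨v, by rw [hv]; exact ha⟩ (gk m u), ?_⟩
        rw [hΦ, Finsupp.liftAddHom_apply_single]
        show br m (y (s v)) (rg (gk m u)) = _
        rw [hv, hrg u hu, h1 a ha]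
      · rw [h2 a ha, br_one]
        exact zero_mem _
    | one =>
      rw [map_one, br_one]
      exact zero_mem _
    | mul g h _ _ hg hh =>
      rw [map_mul, br_mul]
      exact add_mem hg hh
    | inv g _ hg =>
      rw [map_inv, br_inv]
      exact neg_mem hg
  have hra : ∀ a, ∃ F, Φ F = rg' a := by
    intro a
    obtain ⟨u, hu, rfl⟩ := gk_surj (m + 1) a
    rw [hrg' u hu]
    let A : Subgroup S :=
      { carrier := {u | u ∈ gm S (m + 1) ∧ gk (m + 1) (ρ u) ∈ Φ.range}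
        one_mem' := ⟨one_mem _, by rw [map_one, gk_one]; exact zero_mem _⟩
        mul_mem' := fun {x x'} hx hx' => ⟨mul_mem hx.1 hx'.1, by
          rw [map_mul, gk_mul (gm_map ρ hx.1) (gm_map ρ hx'.1)]
          exact add_mem hx.2 hx'.2⟩
        inv_mem' := fun {x} hx => ⟨inv_mem hx.1, by
          rw [map_inv, gk_inv (gm_map ρ hx.1)]
          exact neg_mem hx.2⟩ }
    have hA : gm S (m + 1) ≤ A := by
      rw [gm_succ m hm, Subgroup.commutator_le]
      intro w hw g _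
      refine ⟨gm_comm m hw, ?_⟩
      have e1 : ρ ⁅w, g⁆ = ⁅ρ g, ρ w⁆⁻¹ := by
        rw [map_commutatorElement, commutatorElement_inv]
      rw [e1, gk_inv (gm_comm' m (gm_map ρ hw)), ← br_gk _ (gm_map ρ hw)]
      exact neg_mem (hgr w hw g)
    exact (hA hu).2
  choose F hF using hra
  have hadd : ∀ a b, Ψ (F (a + b)) = Ψ (F a) + Ψ (F b) := by
    intro a b
    have e1 : Φ (F (a + b) - (F a + F b)) = 0 := by
      rw [map_sub, map_add, hF, hF, hF, map_add, sub_self]
    have e2 := hker _ e1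
    rw [map_sub, map_add] at e2
    exact sub_eq_zero.1 e2
  refine ⟨-(AddMonoidHom.mk' (fun a => Ψ (F a)) hadd : Gr S (m + 1) →+ ZMod q),
    fun v hv u hu => ?_⟩
  show _ = - -Ψ (F (br m (y (s v)) (gk m (ρ u))))
  rw [neg_neg]
  have e1 : Φ (Finsupp.single ⟨v, hv⟩ (gk m u)) = br m (y (s v)) (gk m (ρ u)) := by
    rw [hΦ, Finsupp.liftAddHom_apply_single]
    show br m (y (s v)) (rg (gk m u)) = _
    rw [hrg u hu]
  have e2 : rg' (br m (y (s v)) (gk m (ρ u))) = br m (y (s v)) (gk m (ρ u)) := by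
    rw [br_gk _ (gm_map ρ hu), hrg' _ (gm_comm' m (gm_map ρ hu)), map_commutatorElement,
      h1 _ hv, hρ]
  have e3 : Φ (Finsupp.single ⟨v, hv⟩ (gk m u) - F (br m (y (s v)) (gk m (ρ u)))) = 0 := by
    rw [map_sub, hF, e2, e1, sub_self]
  have e4 := hker _ e3
  rw [map_sub] at e4
  rw [← sub_eq_zero.1 e4, hΨ, Finsupp.liftAddHom_apply_single]
  show _ = (χ v).ap (rg (gk m u))
  rw [hrg u hu]

end loc

end H88.S3
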