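import Pool.Agent.H51.S3.Unp

/-!
# [H88 S3 UNQ] MP_b39724_nt, stage 3, (3B) and (8.4) with LOCAL functionals (condition (C4') for the prime 2, think 1773)

As H51/S3/Unp, with `Loc n chi` instead of `Two n chi`: `2` is invertible, or for every word `u` with `2 |u| = n + 1` there is a functional `lam` with
`chi s <br w> = - lam <br (s :: w)>` for the letters `s` of `u` and the words `w` of length `n` in the letters of `u`.
* `de_loc`: then `de (br u) (br u) = 0`. `tbQ`, `unq`: (3B) and (8.4).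
-/

set_option autoImplicit false

open scoped Classical

noncomputable section

namespace H88.S3

open H62.BL

variable {R : Type} [CommRing R]

section tb

variable {Om B : Type} [AddCommGroup B] [Module R B]

/-- `2` is invertible, or there are local functionals for the words `u` with `2 |u| = n + 1` -/
def Loc (n : ℕ) (chi : Om → LL R Om n →ₗ[R] B) : Prop :=
  IsUnit (2 : R) ∨ ∀ u : List Om, 2 * u.length = n + 1 → ∃ lam : LL R Om (n + 1) →ₗ[R] B,
    ∀ s ∈ u, ∀ (w : List Om) (hw : w.length = n), (∀ a ∈ w, a ∈ u) →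
      chi s ⟨br w, ll_mem hw⟩ = - lam ⟨br (s :: w), ll_mem (by rw [List.length_cons, hw])⟩

/-- a local functional gives `de` on the words in the letters of `u` -/
theorem de_loc {n : ℕ} (hn : 1 ≤ n) {de : FreeLieAlgebra R Om →ₗ[R] FreeLieAlgebra R Om →ₗ[R] B}
    {chi : Om → LL R Om n →ₗ[R] B} (hd : ∀ s, de (FreeLieAlgebra.of R s) = xc n (chi s))
    (h1 : ∀ a b c, de ⁅a, b⁆ c = de a ⁅b, c⁆ - de b ⁅a, c⁆) (u : List Om) (lam : LL R Om (n + 1) →ₗ[R] B)
    (H : ∀ s ∈ u, ∀ (w : List Om) (hw : w.length = n), (∀ a ∈ w, a ∈ u) →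
      chi s ⟨br w, ll_mem hw⟩ = - lam ⟨br (s :: w), ll_mem (by rw [List.length_cons, hw])⟩)
    (v : List Om) : v ≠ [] → (∀ a ∈ v, a ∈ u) → ∀ l : List Om, (∀ a ∈ l, a ∈ u) → v.length + l.length = n + 1 →
      ∀ z ∈ PS R (FreeLieAlgebra.of R) l,
        de (rb (FreeLieAlgebra.of R) v) z = - xc (n + 1) lam ⁅rb (FreeLieAlgebra.of R) v, z⁆ := by
  have one : ∀ s ∈ u, ∀ l : List Om, (∀ a ∈ l, a ∈ u) → l.length = n → ∀ z ∈ PS R (FreeLieAlgebra.of R) l,
      de (FreeLieAlgebra.of R s) z = - xc (n + 1) lam ⁅FreeLieAlgebra.of R s, z⁆ := by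
    intro s hs l hl hlen z hz
    induction hz using Submodule.span_induction with
    | mem z hz =>
      obtain ⟨w, hw, rfl⟩ := hz
      have hwl : w.length = n := hw.length_eq.trans hlen
      have hw0 : w ≠ [] := fun h => by rw [h, List.length_nil] at hwl; omega
      rw [hd, xc_rb n _ _ hwl, H s hs w hwl fun a ha => hl a (hw.mem_iff.1 ha), ← rb_cons _ s hw0,
        xc_rb (n + 1) _ _ (by rw [List.length_cons, hwl])]
    | zero => rw [map_zero, lie_zero, map_zero, neg_zero]
    | add a b _ _ ha hb => rw [map_add, lie_add, map_add, ha, hb, neg_add]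
    | smul r a _ ha => rw [map_smul, lie_smul, map_smul, ha, smul_neg]
  induction v with
  | nil => intro h; exact absurd rfl h
  | cons s v ih =>
    intro _ hv l hl hlen z hz
    rw [List.length_cons] at hlen
    have hs : s ∈ u := hv s List.mem_cons_self
    have hv' : ∀ a ∈ v, a ∈ u := fun a ha => hv a (List.mem_cons_of_mem s ha)
    by_cases h0 : v = []
    · subst h0
      exact one s hs l hl (by rw [List.length_nil] at hlen; omega) z hz
    · rw [rb_cons _ s h0, h1, one s hs (v ++ l) (fun a ha => (List.mem_append.1 ha).elim (hv' a) (hl a))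
        (by rw [List.length_append]; omega) _ (ps_lie1 _ v hz),
        ih h0 hv' (s :: l) (fun a ha => (List.mem_cons.1 ha).elim (fun h => h ▸ hs) (hl a))
          (by rw [List.length_cons]; omega) _ (ps_ad _ s hz), lie_lie, map_sub]
      abel

/-- THEOREM (3B) with local functionals -/
theorem tbQ (n : ℕ) (hn : 1 ≤ n) (chi : Om → LL R Om n →ₗ[R] B) (h2 : Loc n chi)
    (H : ∀ D : Fin (n + 1) → Om, ∃ lam : PS R (FreeLieAlgebra.of R : Fin (n + 1) → FreeLieAlgebra R (Fin (n + 1)))
        (List.finRange (n + 1)) →ₗ[R] B,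
      ∀ (k : Fin (n + 1)) (w : List (Fin (n + 1))) (h : (k :: w).Perm (List.finRange (n + 1))) (hw : w.length = n),
        chi (D k) ⟨br (w.map D), ll_mem (by rw [List.length_map, hw])⟩ =
          - lam ⟨rb (FreeLieAlgebra.of R) (k :: w), ps_mem _ h⟩) :
    ∃ lam : LL R Om (n + 1) →ₗ[R] B, ∀ (s : Om) (y : List Om → R) (hy : y ∈ LL R Om n),
      chi s ⟨y, hy⟩ = - lam ⟨AD s y, ad_ll s hy⟩ := by
  obtain ⟨de, hd, h1⟩ := der_exists fun s => xc n (chi s)
  have ha : ∀ u v : List Om, de (rb (FreeLieAlgebra.of R) u) (rb (FreeLieAlgebra.of R) v) +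
      de (rb (FreeLieAlgebra.of R) v) (rb (FreeLieAlgebra.of R) u) = 0 := by
    intro u v
    by_cases huv : u.length + v.length = n + 1
    · by_cases hu : u = []
      · subst hu
        have : rb (FreeLieAlgebra.of R : Om → FreeLieAlgebra R Om) [] = 0 := rfl
        rw [this, map_zero, map_zero, LinearMap.zero_apply, add_zero]
      by_cases hv : v = []
      · subst hv
        have : rb (FreeLieAlgebra.of R : Om → FreeLieAlgebra R Om) [] = 0 := rfl
        rw [this, map_zero, map_zero, LinearMap.zero_apply, add_zero]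
      have hlen : (u ++ v).length = n + 1 := by rw [List.length_append]; exact huv
      let D : Fin (n + 1) → Om := fun i => (u ++ v).get (i.cast hlen.symm)
      have hD : (List.finRange (n + 1)).map D = u ++ v := by
        refine List.ext_getElem (by simp [hlen]) fun i h1 h2 => ?_
        simp [D]
      set u0 := (List.finRange (n + 1)).take u.length with hu0
      set v0 := (List.finRange (n + 1)).drop u.length with hv0
      have e0 : u0 ++ v0 = List.finRange (n + 1) := List.take_append_drop _ _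
      have eu : u0.map D = u := by rw [hu0, List.map_take, hD, List.take_left']; rfl
      have ev' : v0.map D = v := by rw [hv0, List.map_drop, hD, List.drop_left']; rfl
      have hu0' : u0 ≠ [] := fun h => hu (by rw [← eu, h]; rfl)
      have hv0' : v0 ≠ [] := fun h => hv (by rw [← ev', h]; rfl)
      obtain ⟨lamF, H'⟩ := H D
      let P : FreeLieAlgebra R (Fin (n + 1)) →ₗ⁅R⁆ FreeLieAlgebra R Om := FreeLieAlgebra.lift R fun k => FreeLieAlgebra.of R (D k)
      have hP : ∀ k, P (FreeLieAlgebra.of R k) = FreeLieAlgebra.of R (D k) := fun k => FreeLieAlgebra.lift_of_apply _ _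
      have hPw : ∀ w : List (Fin (n + 1)), P (rb (FreeLieAlgebra.of R) w) = rb (FreeLieAlgebra.of R) (w.map D) := by
        intro w
        rw [rb_map, funext hP]
        induction w with
        | nil => rfl
        | cons a w ih =>
          by_cases hw : w = []
          · subst hw; rfl
          · rw [rb_cons _ a hw, ih, List.map_cons, rb_cons _ _ (by simpa using hw)]
      have m1 : ⁅rb (FreeLieAlgebra.of R) u0, rb (FreeLieAlgebra.of R) v0⁆ ∈
          PS R (FreeLieAlgebra.of R : Fin (n + 1) → FreeLieAlgebra R (Fin (n + 1))) (List.finRange (n + 1)) := by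
        have := ps_lie1 (R := R) (FreeLieAlgebra.of R) u0 (ps_mem (R := R) (FreeLieAlgebra.of R) (List.Perm.refl v0))
        rw [e0] at this
        exact this
      have m2 : ⁅rb (FreeLieAlgebra.of R) v0, rb (FreeLieAlgebra.of R) u0⁆ ∈
          PS R (FreeLieAlgebra.of R : Fin (n + 1) → FreeLieAlgebra R (Fin (n + 1))) (List.finRange (n + 1)) := by
        rw [← lie_skew]
        exact Submodule.neg_mem _ m1
      have r1 := de_mul hn hd h1 D lamF H' P hP u0 hu0' v0 (by rw [e0]) _ (ps_mem _ (List.Perm.refl v0)) m1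
      have r2 := de_mul hn hd h1 D lamF H' P hP v0 hv0' u0 (by rw [← e0]; exact List.perm_append_comm) _
        (ps_mem _ (List.Perm.refl u0)) m2
      rw [hPw, hPw, eu, ev'] at r1 r2
      rw [r1, r2]
      have : (⟨_, m2⟩ : PS R (FreeLieAlgebra.of R : Fin (n + 1) → FreeLieAlgebra R (Fin (n + 1))) (List.finRange (n + 1))) =
        - ⟨_, m1⟩ := Subtype.ext (lie_skew _ _).symm
      rw [this, map_neg]
      abel
    · rw [de_zero hd h1 u v huv _ (ps_mem _ (List.Perm.refl v)),
        de_zero hd h1 v u (by omega) _ (ps_mem _ (List.Perm.refl u)), add_zero]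
  have h0 : ∀ u : List Om, de (rb (FreeLieAlgebra.of R) u) (rb (FreeLieAlgebra.of R) u) = 0 := by
    intro u
    rcases h2 with h2 | h2
    · have h3 := ha u u
      rw [← two_smul R] at h3
      obtain ⟨t, ht⟩ := h2.exists_left_inv
      rw [← one_smul R (de (rb (FreeLieAlgebra.of R) u) (rb (FreeLieAlgebra.of R) u)), ← ht, mul_smul, h3, smul_zero]
    · by_cases hu : 2 * u.length = n + 1
      · obtain ⟨lam, hlam⟩ := h2 u hu
        have hu0 : u ≠ [] := fun h => by rw [h, List.length_nil] at hu; omega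
        rw [de_loc hn hd h1 u lam hlam u hu0 (fun _ h => h) u (fun _ h => h) (by omega) _ (ps_mem _ (List.Perm.refl u)),
          lie_self, map_zero, neg_zero]
      · exact de_zero hd h1 u u (by omega) _ (ps_mem _ (List.Perm.refl u))
  obtain ⟨Ps, hPs⟩ := H51.S3.frp de h1 ha h0
  obtain ⟨lam, hlam⟩ := ll_map (FreeLieAlgebra.of R : Om → FreeLieAlgebra R Om) Ps (n + 1)
  refine ⟨-lam, fun s y hy => ?_⟩
  rw [LinearMap.neg_apply, neg_neg]
  have e : chi s = lam.comp (((AD s).domRestrict (LL R Om n)).codRestrict (LL R Om (n + 1)) fun y => ad_ll s y.2) := by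
    refine ll_ext fun w hw => ?_
    have hw0 : w ≠ [] := fun h => by rw [h, List.length_nil] at hw; omega
    have e2 : lam ⟨br (s :: w), ll_mem (by rw [List.length_cons, hw])⟩ = chi s ⟨br w, ll_mem hw⟩ := by
      rw [hlam (s :: w) (by rw [List.length_cons, hw]), rb_cons _ s hw0, hPs, hd, xc_rb n _ _ hw]
    rw [← e2]
    exact congrArg lam (Subtype.ext (AD_br s hw0).symm)
  rw [e]
  rfl

end tb

section unl

variable {G Om : Type} [Group G] [MulAction G Om] {ι : Type} {B : Type} [AddCommGroup B] [Module R B]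

variable {s : ι → Om} {n : ℕ} {chi : ι → LL R Om n →ₗ[R] B} {kap : G → LL R Om (n + 1) →ₗ[R] B}

/-- THEOREM ((8.4) of think 1707) with local functionals: all tuples unlinked gives a survivor. -/
theorem unq (hn : 1 ≤ n) (hocc : ∀ (a : Om) (F : Finset ι), F.card ≤ n + 1 → ∃ v, v ∉ F ∧ s v = a)
    (H : ∀ D : Fin (n + 1) → ι, Function.Injective D → ∃ lam, P1 (G := G) s chi D lam ∧ P2 s kap D lam)
    (h2 : IsUnit (2 : R) ∨ ∀ u : List Om, 2 * u.length = n + 1 → ∃ lam : LL R Om (n + 1) →ₗ[R] B,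
      ∀ v : ι, s v ∈ u → ∀ (w : List Om) (hw : w.length = n), (∀ a ∈ w, a ∈ u) →
        chi v ⟨br w, ll_mem hw⟩ = - lam ⟨br (s v :: w), ll_mem (by rw [List.length_cons, hw])⟩) :
    ∃ la : LL R Om (n + 1) →ₗ[R] B, (∀ (v : ι) (y : List Om → R) (hy : y ∈ LL R Om n), chi v ⟨y, hy⟩ = - la ⟨AD (s v) y, ad_ll _ hy⟩) ∧
      ∀ (u : G) (x : List Om → R) (hx : x ∈ LL R Om (n + 1)), kap u ⟨x, hx⟩ = la ⟨qa u⁻¹ x, qa_ll _ hx⟩ - la ⟨x, hx⟩ := by
  have hex : ∀ a : Om, ∃ v, s v = a := fun a => by
    obtain ⟨v, _, hv⟩ := hocc a ∅ (by simp)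
    exact ⟨v, hv⟩
  choose sg hsg using hex
  have hB : ∀ {v v' : ι}, s v = s v' → chi v = chi v' := fun h => claimB hn hocc H h
  have hchi : ∀ v, chi v = chi (sg (s v)) := fun v => hB (hsg (s v)).symm
  obtain ⟨la, hla⟩ := tbQ n hn (fun a => chi (sg a)) (by
    rcases h2 with h2 | h2
    · exact Or.inl h2
    · refine Or.inr fun u hu => ?_
      obtain ⟨lam, hlam⟩ := h2 u hu
      refine ⟨lam, fun a ha w hw hwu => ?_⟩
      have h3 := hlam (sg a) (by rw [hsg]; exact ha) w hw hwu
      rw [h3]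
      have h5 : (⟨br (s (sg a) :: w), ll_mem (by rw [List.length_cons, hw])⟩ : LL R Om (n + 1)) =
          ⟨br (a :: w), ll_mem (by rw [List.length_cons, hw])⟩ := Subtype.ext (by
        show (br (s (sg a) :: w) : List Om → R) = br (a :: w)
        rw [hsg])
      rw [h5]) (fun D0 => by
    obtain ⟨D, hD, _, hs⟩ := pick s (n + 1) hocc (n + 1) D0 ∅ (by rw [Finset.card_empty]; omega)
    obtain ⟨lam, a1, _⟩ := H D hD
    let Le : FreeLieAlgebra R (Fin (n + 1)) →ₗ⁅R⁆ FreeLieAlgebra R (Fin (n + 1) × G) :=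
      FreeLieAlgebra.lift R fun k => FreeLieAlgebra.of R (k, 1)
    have hLe : ∀ w : List (Fin (n + 1)), Le (rb (FreeLieAlgebra.of R) w) = rb (FreeLieAlgebra.of R) (w.map fun k => (k, (1 : G))) := by
      intro w
      have e : (fun k => Le (FreeLieAlgebra.of R k)) = fun k : Fin (n + 1) => FreeLieAlgebra.of R (k, (1 : G)) :=
        funext fun k => FreeLieAlgebra.lift_of_apply _ _
      rw [rb_map, e]
      induction w with
      | nil => rfl
      | cons a w ih =>
        by_cases hw : w = []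
        · subst hw; rfl
        · rw [rb_cons _ a hw, ih, List.map_cons, rb_cons _ _ (by simpa using hw)]
    refine ⟨(lam.comp (ev.comp (Le : FreeLieAlgebra R (Fin (n + 1)) →ₗ[R] FreeLieAlgebra R (Fin (n + 1) × G)))).domRestrict _,
      fun k w h hw => ?_⟩
    have hm : (w.map fun k => (k, (1 : G))).map (ew s D) = w.map D0 := by
      rw [List.map_map]
      refine List.map_congr_left fun j _ => ?_
      show (1 : G) • s (D j) = D0 j
      rw [one_smul, hs]
    have r1 := a1 k (w.map fun k => (k, 1)) (by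
      rw [List.map_map]
      have : (Prod.fst ∘ fun k : Fin (n + 1) => (k, (1 : G))) = id := rfl
      rw [this, List.map_id]
      exact h)
    rw [hm, wv_eq (chi (D k)) (by rw [List.length_map, hw])] at r1
    have e1 : chi (sg (D0 k)) = chi (D k) := hB (by rw [hsg, hs])
    rw [e1, r1]
    congr 1
    show lam (br ((k, 1) :: w.map fun k => (k, 1))) = lam (ev (Le (rb (FreeLieAlgebra.of R) (k :: w))))
    rw [hLe, ev_rb]
    rfl)
  have c1 : ∀ (v : ι) (y : List Om → R) (hy : y ∈ LL R Om n), chi v ⟨y, hy⟩ = - la ⟨AD (s v) y, ad_ll _ hy⟩ := by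
    intro v y hy
    rw [hchi v, hla]
  refine ⟨la, c1, fun u x hx => ?_⟩
  let T : LL R Om (n + 1) →ₗ[R] B :=
    { toFun := fun x => la ⟨qa u⁻¹ x.1, qa_ll _ x.2⟩ - la x
      map_add' := fun x y => by
        have : (⟨qa u⁻¹ (x + y).1, qa_ll _ (x + y).2⟩ : LL R Om (n + 1)) = ⟨qa u⁻¹ x.1, qa_ll _ x.2⟩ + ⟨qa u⁻¹ y.1, qa_ll _ y.2⟩ := rfl
        rw [this, map_add, map_add]
        abel
      map_smul' := fun r x => by
        have : (⟨qa u⁻¹ (r • x).1, qa_ll _ (r • x).2⟩ : LL R Om (n + 1)) = r • ⟨qa u⁻¹ x.1, qa_ll _ x.2⟩ := rfl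
        rw [this, map_smul, map_smul, RingHom.id_apply, smul_sub] }
  have hT : kap u = T := by
    refine ll_ext fun w hw => ?_
    rcases w with _ | ⟨a, w⟩
    · simp at hw
    have hw' : w.length = n := by simpa using hw
    have hw0 : w ≠ [] := fun h => by rw [h, List.length_nil] at hw'; omega
    have r := claimA hn hocc H (v := sg a) (v' := sg (u⁻¹ • a)) (u := u⁻¹) (by rw [hsg, hsg]) (w.map fun b => u⁻¹ • b)
      (by rw [List.length_map, hw'])
    have em : (w.map fun b => u⁻¹ • b).map (fun b => (u⁻¹)⁻¹ • b) = w := by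
      rw [List.map_map]
      refine (List.map_congr_left fun x _ => ?_).trans (List.map_id _)
      show (u⁻¹)⁻¹ • u⁻¹ • x = x
      rw [inv_inv, smul_inv_smul]
    rw [em, inv_inv, hsg, wv_eq (chi (sg a)) hw', wv_eq (chi (sg (u⁻¹ • a))) (by rw [List.length_map, hw']),
      wv_eq (kap u) (w := a :: w) hw, c1, c1, neg_neg, neg_neg] at r
    have e1 : (⟨AD (s (sg a)) (br w), ad_ll _ (ll_mem hw')⟩ : LL R Om (n + 1)) = ⟨br (a :: w), ll_mem hw⟩ := Subtype.ext (by
      show AD (s (sg a)) (br w) = br (a :: w)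
      rw [hsg, AD_br a hw0])
    have e2 : (⟨AD (s (sg (u⁻¹ • a))) (br (w.map fun b => u⁻¹ • b)), ad_ll _ (ll_mem (by rw [List.length_map, hw']))⟩ :
        LL R Om (n + 1)) = ⟨qa u⁻¹ (br (a :: w)), qa_ll _ (ll_mem hw)⟩ := Subtype.ext (by
      show AD (s (sg (u⁻¹ • a))) (br (w.map fun b => u⁻¹ • b)) = qa u⁻¹ (br (a :: w))
      rw [hsg, AD_br _ (by simpa using hw0), qa_br]
      rfl)
    rw [e1, e2] at r
    show kap u ⟨br (a :: w), ll_mem hw⟩ = la ⟨qa u⁻¹ (br (a :: w)), qa_ll _ (ll_mem hw)⟩ - la ⟨br (a :: w), ll_mem hw⟩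
    rw [← r]
    abel
  rw [hT]
  rfl

end unl

end H88.S3
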