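import Pool.Agent.H73.S3.Adf

/-!
# [H88 S3 ADG] MP_b39724_nt, stage 3, the prime 2: the conditions of a configuration and changes by centralising elements (condition (C4'), think 1773)

`adf_gr`: at a large split letter the condition is: the value commutes with the label. So it does not change if the value is multiplied by an element whose image commutes with the label.
-/

set_option autoImplicit false

open scoped NumberField commutatorElement
open IsDedekindDomain
open scoped Classical

noncomputable section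

namespace H88.S3

open H63.MA H38.BB H38.BG H57.PC H57.BRA H77.WD H77.WE H77.PC3 H35.CF H35.UB H77.S3 H71.S3 H73.S3

variable {K : Type} [Field K] [NumberField K] {Ω : Type} [Field Ω] [Algebra K Ω]
  {p N : ℕ} {ζ : K} {D : RD0 K p ζ} {Q : DP K Ω} {A : GS D Ω} {P : Type} [Group P]
  {c : CL p N P} {S : Type} [Group S] [MulDistribMulAction P S]

theorem adf_gr (G : SG c S) (B : SD D Q A) (X : FD A P S) (W : WF A) (T : ℝ) (Zc : Finset (Pl K))
    (hZ : Disjoint Zc X.E) (f : Pl K → Option (Px c)) :
    ∀ j ∈ (adf G B X W T Zc f).Jf, (adf G B X W T Zc f).pp j → ∀ z : S,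
      Commute (G.Pi ((adf G B X W T Zc f).t j)) (G.Pi (il z)) →
      ∀ x : Pl K ⊕ Fin A.g → SP S P, (adf G B X W T Zc f).G x →
        (adf G B X W T Zc f).G (Function.update x j (x j * il z)) := by
  obtain ⟨Y, hY⟩ : ∃ Y, Y = adf G B X W T Zc f := ⟨_, rfl⟩
  rw [← hY]
  have gdef : ∀ x, Y.G x ↔ ((∀ v ∈ sp Zc f, ∀ s, f v = some s →
      Commute s.1 (G.Pi (x (Sum.inl v)))) ∧ (∀ v ∈ X.E, G.Pi (x (Sum.inl v)) = X.l.F v) ∧
        ∀ i, G.Pi (x (Sum.inr i)) = X.l.b i) := fun x => by
    rw [hY]
    exact Iff.rfl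
  intro j hj hpj z hc x hx
  rcases j with v | i
  · have h1 : v ∈ sp Zc f := by
      rw [hY] at hpj
      exact hpj.1
    obtain ⟨s, hs⟩ := Option.ne_none_iff_exists'.1 (mem_sp.1 h1).2
    have hvZ : v ∈ Zc := (mem_sp.1 h1).1
    have hvE : v ∉ X.E := Finset.disjoint_left.1 hZ hvZ
    have ht : Y.t (Sum.inl v) = il (G.y s) := by
      rw [hY]
      show (if v ∈ X.E then (⟨X.sv v, X.φ (W.L.t v)⟩ : SP S P) else
        (if v ∈ Zc then f v else none).elim 1 fun s => il (G.y s)) = _
      rw [if_neg hvE, if_pos hvZ, hs]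
      rfl
    have hpi : G.Pi (Y.t (Sum.inl v)) = s.1 := by
      rw [ht, SG.Pi_mk]
      show G.pi (G.y s) * 1 = s.1
      rw [mul_one, G.pi_y]
    rw [hpi] at hc
    rw [gdef] at hx ⊢
    refine ⟨fun w hw s' hs' => ?_, fun w hw => ?_, fun i => ?_⟩
    · by_cases hwv : w = v
      · subst hwv
        rw [up_eq, map_mul]
        have h3 : s' = s := Option.some_injective _ (hs'.symm.trans hs)
        rw [h3]
        exact (hx.1 w hw s hs).mul_right hc
      · rw [up_ne _ _ (fun h => hwv (Sum.inl_injective h))]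
        exact hx.1 w hw s' hs'
    · have hwv : w ≠ v := fun h => hvE (h ▸ hw)
      rw [up_ne _ _ (fun h => hwv (Sum.inl_injective h))]
      exact hx.2.1 w hw
    · rw [up_ne _ _ (by simp)]
      exact hx.2.2 i
  · rw [hY] at hpj
    exact absurd hpj not_false

end H88.S3
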