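import Pool.Agent.H51.S3.Hse
import Pool.Agent.H73.S3.Nnx

/-!
# [H88 S3 HSU] MP_b39724_nt, stage 3, the prime 2: the relation between the functionals at several letters (condition (C4'), think 1773)

`xz z x`: the values `x j * z j`. `gr`: the conditions `G` do not change if `x j` is multiplied by a `z` whose image commutes with the image of the label (`j` large and split).
`h_xz`: `H (m + 1)` does not change if the `⁅y j, z j⁆` are in `N ⊓ gam_(m+1)` and their product (in any order) is in `⁅N ⊓ gam_(m+1), ⊤⁆`.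
`hh_u`: then `∑ j, (η j).1 (z j) = 0` if `Hh m τ x η ≠ 0` and `z j ∈ gam_m`.
-/

set_option autoImplicit false

open scoped commutatorElement
open scoped Classical

noncomputable section

namespace H88.S3

open H1.S3 H73.S3

variable {S P : Type} [Group S] [Group P] [MulDistribMulAction P S] {J V : Type}

/-- the values are multiplied by `z j` on the right side -/
def xz (z : J → S) (x : J → SP S P) : J → SP S P := fun j => x j * il (z j)

private theorem ilo : (il (1 : S) : SP S P) = 1 := map_one (SemidirectProduct.inl : S →* SP S P)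

private theorem ilm (a b : S) : (il (a * b) : SP S P) = il a * il b :=
  map_mul (SemidirectProduct.inl : S →* SP S P) a b

private theorem ilc (a b : S) : (il ⁅a, b⁆ : SP S P) = ⁅(il a : SP S P), il b⁆ :=
  map_commutatorElement (SemidirectProduct.inl : S →* SP S P) a b

private theorem ile (z : SP S P) (h : z.right = 1) : z = il z.left := by
  refine SemidirectProduct.ext ?_ ?_
  · rfl
  · exact h

theorem mv_xz (X : AD S P J V) (z : J → S) (u : X.Jf → S) (x : J → SP S P) :
    X.mv u (xz z x) = xz z (X.mv u x) := by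
  funext i
  unfold xz AD.mv
  split_ifs
  · rw [mul_assoc]
  · rfl

theorem g_xz (X : AD S P J V) {P' : Type} [Group P'] {Pi : SP S P →* P'}
    (gr : ∀ j ∈ X.Jf, X.pp j → ∀ z : S, Commute (Pi (X.t j)) (Pi (il z)) → ∀ x : J → SP S P,
      X.G x → X.G (Function.update x j (x j * il z)))
    (z : J → S) (h0 : ∀ j, ¬(j ∈ X.Jf ∧ X.pp j) → z j = 1)
    (hc : ∀ j ∈ X.Jf, X.pp j → Commute (Pi (X.t j)) (Pi (il (z j)))) (x : J → SP S P)
    (h : X.G x) : X.G (xz z x) := by
  have h1 : ∀ F : Finset J, F ⊆ X.Jf → X.G (fun j => if j ∈ F then x j * il (z j) else x j) := by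
    intro F
    induction F using Finset.induction_on with
    | empty =>
      intro _
      have e : (fun j => if j ∈ (∅ : Finset J) then x j * il (z j) else x j) = x := by
        funext j
        exact if_neg (Finset.notMem_empty j)
      rw [e]
      exact h
    | insert a F ha ih =>
      intro hF
      have h2 := ih fun j hj => hF (Finset.mem_insert_of_mem hj)
      have haJ := hF (Finset.mem_insert_self a F)
      by_cases hp : X.pp a
      · have h3 := gr a haJ hp (z a) (hc a haJ hp) _ h2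
        have e : Function.update (fun j => if j ∈ F then x j * il (z j) else x j) a
            ((if a ∈ F then x a * il (z a) else x a) * il (z a)) =
            fun j => if j ∈ insert a F then x j * il (z j) else x j := by
          funext j
          by_cases hj : j = a
          · subst hj
            rw [Function.update_self, if_neg ha, if_pos (Finset.mem_insert_self _ _)]
          · rw [Function.update_of_ne hj]
            simp only [Finset.mem_insert, hj, false_or]
        rw [← e]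
        exact h3
      · have h3 : z a = 1 := h0 a fun h => hp h.2
        have e : (fun j => if j ∈ insert a F then x j * il (z j) else x j) =
            fun j => if j ∈ F then x j * il (z j) else x j := by
          funext j
          by_cases hj : j = a
          · subst hj
            rw [if_pos (Finset.mem_insert_self _ _), if_neg ha, h3, ilo, mul_one]
          · simp only [Finset.mem_insert, hj, false_or]
        rw [e]
        exact h2
  have e : xz z x = fun j => if j ∈ X.Jf then x j * il (z j) else x j := by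
    funext j
    unfold xz
    split_ifs with hj
    · rfl
    · rw [h0 j fun h => hj h.1, ilo, mul_one]
  rw [e]
  exact h1 X.Jf subset_rfl

theorem g_xz_iff (X : AD S P J V) {P' : Type} [Group P'] {Pi : SP S P →* P'}
    (gr : ∀ j ∈ X.Jf, X.pp j → ∀ z : S, Commute (Pi (X.t j)) (Pi (il z)) → ∀ x : J → SP S P,
      X.G x → X.G (Function.update x j (x j * il z)))
    (z : J → S) (h0 : ∀ j, ¬(j ∈ X.Jf ∧ X.pp j) → z j = 1)
    (hc : ∀ j ∈ X.Jf, X.pp j → Commute (Pi (X.t j)) (Pi (il (z j)))) (x : J → SP S P) :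
    X.G (xz z x) ↔ X.G x := by
  refine ⟨fun h => ?_, g_xz X gr z h0 hc x⟩
  have h1 := g_xz X gr (fun j => (z j)⁻¹) (fun j hj => by rw [h0 j hj, inv_one]) (fun j h2 h3 => by
    have h4 : (il (z j)⁻¹ : SP S P) = (il (z j))⁻¹ := map_inv (SemidirectProduct.inl : S →* SP S P) _
    rw [h4, map_inv]
    exact (hc j h2 h3).inv_right) _ h
  have e : xz (fun j => (z j)⁻¹) (xz z x) = x := by
    funext j
    unfold xz
    rw [mul_assoc, ← ilm, mul_inv_cancel, ilo, mul_one]
  rwa [e] at h1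

private theorem list_cen {Q : Type} [Group Q] (l : List V) (f b : V → Q)
    (hb : ∀ v ∈ l, ∀ g, b v * g = g * b v) :
    (l.map fun v => f v * b v).prod = (l.map f).prod * (l.map b).prod := by
  induction l with
  | nil => rw [List.map_nil, List.map_nil, List.map_nil, List.prod_nil, mul_one]
  | cons a l ih =>
    rw [List.map_cons, List.map_cons, List.map_cons, List.prod_cons, List.prod_cons,
      List.prod_cons, ih fun v hv => hb v (List.mem_cons_of_mem _ hv)]
    have h1 := hb a List.mem_cons_self (l.map f).prod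
    calc f a * b a * ((l.map f).prod * (l.map b).prod)
        = f a * (b a * (l.map f).prod) * (l.map b).prod := by group
      _ = f a * ((l.map f).prod * b a) * (l.map b).prod := by rw [h1]
      _ = f a * (l.map f).prod * (b a * (l.map b).prod) := by group

section cnt

variable [Fintype S] (X : AD S P J V) {p k Mw q c : ℕ} {P' : Type} [Group P']
  {Pi : SP S P →* P'}

omit [Fintype S] in
private theorem pj_inj (hX : X.Ok p k Mw q c Pi) {j j' : J} (h1 : j ∈ X.Jf) (h2 : X.pp j)
    (h3 : j' ∈ X.Jf) (h4 : X.pp j') (h : X.pj j = X.pj j') : j = j' := by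
  have h5 := hX.pb j h1 h2
  have h6 := hX.pb j' h3 h4
  rw [h, h6] at h5
  exact (List.singleton_inj.1 h5).symm

/-- the changes at the places -/
private theorem ex_b (hX : X.Ok p k Mw q c Pi) (z : J → S) (L : List J)
    (hL1 : ∀ j ∈ L, j ∈ X.Jf ∧ X.pp j) :
    ∃ b : V → S, (∀ j ∈ L, b (X.pj j) = ⁅X.y j, z j⁆) ∧ ∀ v, (∀ j ∈ L, X.pj j ≠ v) → b v = 1 := by
  refine ⟨fun v => if h : ∃ j ∈ L, X.pj j = v then ⁅X.y h.choose, z h.choose⁆ else 1,
    fun j hj => ?_, fun v hv => ?_⟩
  · have h : ∃ j' ∈ L, X.pj j' = X.pj j := ⟨j, hj, rfl⟩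
    beta_reduce
    rw [dif_pos h]
    have h1 : h.choose = j := pj_inj X hX (hL1 _ h.choose_spec.1).1 (hL1 _ h.choose_spec.1).2
      (hL1 j hj).1 (hL1 j hj).2 h.choose_spec.2
    rw [h1]
  · beta_reduce
    rw [dif_neg]
    rintro ⟨j, hj, e⟩
    exact hv j hj e

omit [Fintype S] in
private theorem pl_comm (hX : X.Ok p k Mw q c Pi) (L : List J) (hL : L.Nodup)
    (hL1 : ∀ j ∈ L, j ∈ X.Jf ∧ X.pp j) {C : Type} [gC : Group C] (hcm : ∀ a b : C, a * b = b * a)
    (f : V → C) (hf : ∀ v, (∀ j ∈ L, X.pj j ≠ v) → f v = 1) :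
    (X.l.map f).prod = (L.map fun j => f (X.pj j)).prod := by
  letI : CommGroup C := { gC with mul_comm := hcm }
  rw [← List.prod_toFinset _ hX.nd]
  have h4 : ∏ v ∈ X.l.toFinset, f v = ∏ v ∈ L.toFinset.image X.pj, f v := by
    symm
    refine Finset.prod_subset ?_ ?_
    · intro v hv
      obtain ⟨j, hj, rfl⟩ := Finset.mem_image.1 hv
      rw [List.mem_toFinset] at hj ⊢
      exact (hX.jl j (hL1 j hj).1).1
    · intro v _ hv
      exact hf v fun j hj e => hv (Finset.mem_image.2 ⟨j, List.mem_toFinset.2 hj, e⟩)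
  rw [h4, Finset.prod_image fun j hj j' hj' e => by
    rw [Finset.mem_coe, List.mem_toFinset] at hj hj'
    exact pj_inj X hX (hL1 j hj).1 (hL1 j hj).2 (hL1 j' hj').1 (hL1 j' hj').2 e,
    List.prod_toFinset _ hL]

omit [Fintype S] in
/-- the product over the places is the product over the letters, modulo a subgroup in which all factors are central -/
private theorem pl_prod (hX : X.Ok p k Mw q c Pi) (M : Subgroup S) [M.Normal] (b : V → S)
    (hcen : ∀ v, ∀ g : S, ⁅g, b v⁆ ∈ M) (z : J → S) (L : List J) (hL : L.Nodup)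
    (hL1 : ∀ j ∈ L, j ∈ X.Jf ∧ X.pp j)
    (hb1 : ∀ j ∈ L, b (X.pj j) = ⁅X.y j, z j⁆) (hb2 : ∀ v, (∀ j ∈ L, X.pj j ≠ v) → b v = 1)
    (hp : (L.map fun j => ⁅X.y j, z j⁆).prod ∈ M) :
    (X.l.map fun v => QuotientGroup.mk' M (b v)).prod = 1 := by
  have hc : ∀ v, QuotientGroup.mk' M (b v) ∈ Subgroup.center (S ⧸ M) := by
    intro v
    rw [Subgroup.mem_center_iff]
    intro g
    obtain ⟨g, rfl⟩ := QuotientGroup.mk'_surjective M g
    have h1 := (QuotientGroup.eq_one_iff (N := M) _).2 (hcen v g)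
    have h2 : QuotientGroup.mk' M ⁅g, b v⁆ = 1 := h1
    rw [map_commutatorElement, commutatorElement_eq_one_iff_mul_comm] at h2
    exact h2
  have h3 : ∀ l : List V, (l.map fun v => QuotientGroup.mk' M (b v)).prod =
      (Subgroup.center (S ⧸ M)).subtype
        ((l.map fun v => (⟨QuotientGroup.mk' M (b v), hc v⟩ : Subgroup.center (S ⧸ M))).prod) := by
    intro l
    rw [map_list_prod, List.map_map]
    rfl
  have h5 : ((L.map fun j => (⟨QuotientGroup.mk' M (b (X.pj j)), hc (X.pj j)⟩ :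
      Subgroup.center (S ⧸ M))).prod) = 1 := by
    refine Subtype.ext ?_
    show (Subgroup.center (S ⧸ M)).subtype _ = 1
    rw [map_list_prod, List.map_map]
    have h6 : L.map ((Subgroup.center (S ⧸ M)).subtype ∘ fun j =>
        (⟨QuotientGroup.mk' M (b (X.pj j)), hc (X.pj j)⟩ : Subgroup.center (S ⧸ M))) =
        (L.map fun j => ⁅X.y j, z j⁆).map (QuotientGroup.mk' M) := by
      rw [List.map_map]
      refine List.map_congr_left fun j hj => ?_
      show QuotientGroup.mk' M (b (X.pj j)) = QuotientGroup.mk' M ⁅X.y j, z j⁆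
      rw [hb1 j hj]
    rw [h6, ← map_list_prod]
    exact (QuotientGroup.eq_one_iff (N := M) _).2 hp
  rw [h3]
  have h7 := pl_comm X hX L hL hL1 (C := Subgroup.center (S ⧸ M))
    (fun a b => Subtype.ext (Subgroup.mem_center_iff.1 b.2 a.1))
    (fun v => (⟨QuotientGroup.mk' M (b v), hc v⟩ : Subgroup.center (S ⧸ M)))
    (fun v hv => Subtype.ext (by
      show QuotientGroup.mk' M (b v) = 1
      rw [hb2 v hv, map_one]))
  exact congrArg (Subgroup.center (S ⧸ M)).subtype (h7.trans h5)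

omit [Fintype S] in
/-- a block of the changed values -/
private theorem bk_xz (hX : X.Ok p k Mw q c Pi) (z : J → S) (L : List J)
    (hL1 : ∀ j ∈ L, j ∈ X.Jf ∧ X.pp j) (hL2 : ∀ j, z j ≠ 1 → j ∈ L) (b : V → S)
    (hb1 : ∀ j ∈ L, b (X.pj j) = ⁅X.y j, z j⁆) (hb2 : ∀ v, (∀ j ∈ L, X.pj j ≠ v) → b v = 1)
    {x : J → SP S P} (hx : ∀ j ∈ X.Jf, (x j).right = X.ph (X.W j)) (v : V) :
    ∃ a : S, (X.bk (xz z x) v).left = (X.bk x v).left * (a * b v * a⁻¹) := by
  by_cases h : ∃ j ∈ L, X.pj j = v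
  · obtain ⟨j, hj, rfl⟩ := h
    obtain ⟨h1, h2⟩ := hL1 j hj
    refine ⟨(x j).left, ?_⟩
    have h3 : x j = il (x j).left := ile _ (by rw [hx j h1, hX.pw j h1 h2])
    have h4 : ∀ x' : J → SP S P, X.bk x' (X.pj j) = ⁅X.t j, x' j⁆ := by
      intro x'
      unfold AD.bk wd
      rw [hX.pb j h1 h2, List.map_singleton, List.prod_singleton]
    obtain ⟨a, ha⟩ : ∃ a, a = (x j).left := ⟨_, rfl⟩
    have h5 : xz z x j = il (a * z j) := by
      unfold xz
      rw [h3, ← ha, ilm]
    rw [← ha] at h3 ⊢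
    rw [h4, h4, h5, h3, hX.pt j h1 h2, ← ilc, ← ilc, hb1 j hj]
    show ⁅X.y j, a * z j⁆ = ⁅X.y j, a⁆ * (a * ⁅X.y j, z j⁆ * a⁻¹)
    simp only [commutatorElement_def]
    group
  · refine ⟨1, ?_⟩
    rw [hb2 v fun j hj e => h ⟨j, hj, e⟩]
    have h1 : X.bk (xz z x) v = X.bk x v := by
      unfold AD.bk wd
      congr 1
      refine List.map_congr_left fun i hi => ?_
      have h2 : z i = 1 := by
        by_contra h2
        exact h ⟨i, hL2 i h2, hX.bp v i hi⟩
      unfold xz
      rw [h2, ilo, mul_one]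
    rw [h1]
    group

theorem h_xz (hX : X.Ok p k Mw q c Pi) (m : ℕ) (τ : V → S) (x : J → SP S P)
    (hx : ∀ j ∈ X.Jf, (x j).right = X.ph (X.W j))
    (gr : ∀ j ∈ X.Jf, X.pp j → ∀ z : S, Commute (Pi (X.t j)) (Pi (il z)) → ∀ x : J → SP S P,
      X.G x → X.G (Function.update x j (x j * il z)))
    (z : J → S) (L : List J) (hL : L.Nodup) (hL1 : ∀ j ∈ L, j ∈ X.Jf ∧ X.pp j)
    (hL2 : ∀ j, z j ≠ 1 → j ∈ L) (hz : ∀ j ∈ L, ⁅X.y j, z j⁆ ∈ Nks Pi ⊓ gm S m)
    (hp : (L.map fun j => ⁅X.y j, z j⁆).prod ∈ (⁅Nks Pi ⊓ gm S m, ⊤⁆ : Subgroup S)) :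
    X.H m τ (xz z x) = X.H m τ x := by
  obtain ⟨b, hb1, hb2⟩ := ex_b X hX z L hL1
  have h0 : ∀ j, ¬(j ∈ X.Jf ∧ X.pp j) → z j = 1 := by
    intro j hj
    by_contra h
    exact hj (hL1 j (hL2 j h))
  have hc : ∀ j ∈ X.Jf, X.pp j → Commute (Pi (X.t j)) (Pi (il (z j))) := by
    intro j h1 h2
    by_cases h3 : z j = 1
    · rw [h3, ilo, map_one]
      exact Commute.one_right _
    · have h4 : ⁅X.y j, z j⁆ ∈ Nks Pi := (hz j (hL2 j h3)).1
      rw [mem_nks, ilc, map_commutatorElement, commutatorElement_eq_one_iff_mul_comm,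
        ← hX.pt j h1 h2] at h4
      exact h4
  have hx' : ∀ j ∈ X.Jf, (xz z x j).right = X.ph (X.W j) := by
    intro j hj
    rw [← hx j hj]
    unfold xz
    rw [SemidirectProduct.mul_right]
    exact mul_one _
  have hmx : ∀ u : X.Jf → S, ∀ j ∈ X.Jf, (X.mv u x j).right = X.ph (X.W j) := by
    intro u j hj
    rw [← hx j hj]
    unfold AD.mv
    rw [dif_pos hj, SemidirectProduct.mul_right]
    exact one_mul _
  have h1 := h_cnt X hX m τ x hx
  have h2 := h_cnt X hX m τ (xz z x) hx'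
  obtain ⟨M, hM⟩ : ∃ M : Subgroup S, M = ⁅Nks Pi ⊓ gm S m, ⊤⁆ := ⟨_, rfl⟩
  have hMn : M.Normal := by
    rw [hM]
    infer_instance
  have hbm : ∀ v, b v ∈ Nks Pi ⊓ gm S m := by
    intro v
    by_cases h : ∃ j ∈ L, X.pj j = v
    · obtain ⟨j, hj, rfl⟩ := h
      rw [hb1 j hj]
      exact hz j hj
    · rw [hb2 v fun j hj e => h ⟨j, hj, e⟩]
      exact one_mem _
  rw [← hM] at h1 h2 hp
  have hcen : ∀ v, ∀ g : S, ⁅g, b v⁆ ∈ M := by
    intro v g
    rw [hM, Subgroup.commutator_comm]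
    exact Subgroup.commutator_mem_commutator (Subgroup.mem_top g) (hbm v)
  have hpr := pl_prod X hX M b hcen z L hL hL1 hb1 hb2 hp
  have h3 : ((X.Cg m).filter fun u => X.G (X.mv u (xz z x)) ∧
        (X.l.map fun v => τ v * (X.bk (X.mv u (xz z x)) v).left * (τ v)⁻¹).prod ∈ M) =
      ((X.Cg m).filter fun u => X.G (X.mv u x) ∧
        (X.l.map fun v => τ v * (X.bk (X.mv u x) v).left * (τ v)⁻¹).prod ∈ M) := by
    refine Finset.filter_congr fun u _ => ?_
    rw [mv_xz, g_xz_iff X gr z h0 hc]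
    refine and_congr_right fun _ => ?_
    have h4 : ∀ v, QuotientGroup.mk' M (τ v * (X.bk (xz z (X.mv u x)) v).left * (τ v)⁻¹) =
        QuotientGroup.mk' M (τ v * (X.bk (X.mv u x) v).left * (τ v)⁻¹) *
          QuotientGroup.mk' M (b v) := by
      intro v
      obtain ⟨a, ha⟩ := bk_xz X hX z L hL1 hL2 b hb1 hb2 (hmx u) v
      have h5 : τ v * (X.bk (xz z (X.mv u x)) v).left * (τ v)⁻¹ =
          τ v * (X.bk (X.mv u x) v).left * (τ v)⁻¹ * (⁅τ v * a, b v⁆ * b v) := by
        rw [ha, commutatorElement_def]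
        group
      have h6 : QuotientGroup.mk' M ⁅τ v * a, b v⁆ = 1 :=
        (QuotientGroup.eq_one_iff (N := M) _).2 (hcen v _)
      rw [h5, map_mul, map_mul _ ⁅τ v * a, b v⁆, h6, one_mul]
    have h7 : QuotientGroup.mk' M
        (X.l.map fun v => τ v * (X.bk (xz z (X.mv u x)) v).left * (τ v)⁻¹).prod =
        QuotientGroup.mk' M (X.l.map fun v => τ v * (X.bk (X.mv u x) v).left * (τ v)⁻¹).prod := by
      rw [map_list_prod, map_list_prod, List.map_map, List.map_map]
      have h8 := list_cen X.l (fun v => QuotientGroup.mk' M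
        (τ v * (X.bk (X.mv u x) v).left * (τ v)⁻¹)) (fun v => QuotientGroup.mk' M (b v))
        (fun v _ g => by
          obtain ⟨g, rfl⟩ := QuotientGroup.mk'_surjective M g
          have h9 : QuotientGroup.mk' M ⁅g, b v⁆ = 1 :=
            (QuotientGroup.eq_one_iff (N := M) _).2 (hcen v g)
          rw [map_commutatorElement, commutatorElement_eq_one_iff_mul_comm] at h9
          exact h9.symm)
      rw [hpr, mul_one] at h8
      refine Eq.trans ?_ h8
      congr 1
      exact List.map_congr_left fun v _ => h4 v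
    rw [← QuotientGroup.eq_one_iff (N := M), ← QuotientGroup.eq_one_iff (N := M)]
    have h8 : ((((X.l.map fun v => τ v * (X.bk (xz z (X.mv u x)) v).left * (τ v)⁻¹).prod : S) :
        S ⧸ M)) = ((X.l.map fun v => τ v * (X.bk (X.mv u x) v).left * (τ v)⁻¹).prod : S) := h7
    rw [h8]
  rw [h3, ← h1] at h2
  have h4 := Nat.eq_of_mul_eq_mul_left (Nat.card_pos (α := M)) h2
  unfold AD.H
  rw [h4]

theorem hh_u [NeZero q] (hX : X.Ok p k Mw q c Pi) (m : ℕ) (hm : 1 ≤ m) (τ : V → S)
    (x : J → SP S P) (hx : ∀ j ∈ X.Jf, (x j).right = X.ph (X.W j))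
    (η : X.Jf → Du S q m × Du S q (m + 1)) (h : X.Hh m τ x η ≠ 0)
    (gr : ∀ j ∈ X.Jf, X.pp j → ∀ z : S, Commute (Pi (X.t j)) (Pi (il z)) → ∀ x : J → SP S P,
      X.G x → X.G (Function.update x j (x j * il z)))
    (z : J → S) (L : List J) (hL : L.Nodup) (hL1 : ∀ j ∈ L, j ∈ X.Jf ∧ X.pp j)
    (hL2 : ∀ j, z j ≠ 1 → j ∈ L) (hzm : ∀ j, z j ∈ gm S m)
    (hz : ∀ j ∈ L, ⁅X.y j, z j⁆ ∈ Nks Pi)
    (hp : (L.map fun j => ⁅X.y j, z j⁆).prod ∈ (⁅Nks Pi ⊓ gm S (m + 1), ⊤⁆ : Subgroup S)) :
    ∑ j : X.Jf, (η j).1.ap (gk m (z j)) = 0 := by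
  have h0 : ∀ j, ¬(j ∈ X.Jf ∧ X.pp j) → z j = 1 := by
    intro j hj
    by_contra h
    exact hj (hL1 j (hL2 j h))
  obtain ⟨w, hw⟩ : ∃ w : X.Jf → S, w = fun i : X.Jf => (x i).left * z i * (x i).left⁻¹ := ⟨_, rfl⟩
  have hwj : ∀ i, w i = (x i).left * z i * (x i).left⁻¹ := fun i => by rw [hw]
  have hw1 : ∀ i : X.Jf, z i = 1 → w i = 1 := by
    intro i hi
    rw [hwj, hi]
    group
  have hwc : w ∈ X.Cg m := by
    unfold AD.Cg
    rw [Finset.mem_filter]
    refine ⟨Finset.mem_univ _, fun i => ?_⟩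
    by_cases hi : X.pp i
    · rw [if_pos hi, hwj]
      exact (gm_normal m).conj_mem _ (hzm i) _
    · rw [hw1 i (h0 i fun h => hi h.2)]
      exact one_mem _
  have hmw : X.mv w x = xz z x := by
    funext i
    unfold AD.mv xz
    by_cases hi : i ∈ X.Jf
    · rw [dif_pos hi]
      by_cases hi2 : X.pp i
      · have h3 : x i = il (x i).left := ile _ (by rw [hx i hi, hX.pw i hi hi2])
        have h4 : w ⟨i, hi⟩ = (x i).left * z i * (x i).left⁻¹ := hwj ⟨i, hi⟩
        obtain ⟨a, ha⟩ : ∃ a, a = (x i).left := ⟨_, rfl⟩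
        rw [h4, ← ha]
        rw [← ha] at h3
        rw [h3, ← ilm, ← ilm]
        congr 1
        group
      · have h5 : z i = 1 := h0 i fun h => hi2 h.2
        rw [hw1 ⟨i, hi⟩ h5, h5, ilo, one_mul, mul_one]
    · rw [dif_neg hi, h0 i fun h => hi h.1, ilo, mul_one]
  have hH : ∀ u : X.Jf → S, X.H (m + 1) τ (X.mv (u * w) x) = X.H (m + 1) τ (X.mv u x) := by
    intro u
    rw [← mv_mv, hmw, mv_xz]
    refine h_xz X hX (m + 1) τ (X.mv u x) ?_ gr z L hL hL1 hL2 (fun j hj => ?_) hp
    · intro j hj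
      rw [← hx j hj]
      unfold AD.mv
      rw [dif_pos hj, SemidirectProduct.mul_right]
      exact one_mul _
    · exact ⟨hz j hj, gm_comm' m (hzm j)⟩
  obtain ⟨E, hE⟩ : ∃ E, E = ∑ j : X.Jf, (η j).1.ap (gk m (z j)) := ⟨_, rfl⟩
  rw [← hE]
  have hpr : ∀ u ∈ X.Cg m, X.pr η (u * w) = X.pr η u + E := by
    intro u hu
    unfold AD.Cg at hu
    rw [Finset.mem_filter] at hu
    unfold AD.pr
    rw [hE, ← Finset.sum_add_distrib]
    refine Finset.sum_congr rfl fun i _ => ?_
    by_cases hi : X.pp i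
    · have h3 := hu.2 i
      rw [if_pos hi] at h3
      have h4 : w i ∈ gm S m := by
        rw [hwj]
        exact (gm_normal m).conj_mem _ (hzm i) _
      rw [if_pos hi, if_pos hi, _root_.Pi.mul_apply, gk_mul h3 h4, hwj i, gk_conj (hzm i)]
      exact map_add _ _ _
    · have h5 : z i = 1 := h0 i fun h => hi h.2
      rw [if_neg hi, if_neg hi, _root_.Pi.mul_apply, hw1 i h5, mul_one, h5, gk_one, map_zero, add_zero]
  have hs : ∑ u ∈ X.Cg m, X.H (m + 1) τ (X.mv u x) * H63.MA.ep q (-X.pr η u) =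
      ∑ u ∈ X.Cg m, X.H (m + 1) τ (X.mv (u * w) x) * H63.MA.ep q (-X.pr η (u * w)) := by
    symm
    refine Finset.sum_bij' (fun u _ => u * w) (fun u _ => u * w⁻¹) ?_ ?_ ?_ ?_ ?_
    · intro u hu
      exact cg_mul X hu hwc
    · intro u hu
      exact cg_mul X hu (cg_inv X hwc)
    · intro u _
      exact mul_inv_cancel_right u w
    · intro u _
      exact inv_mul_cancel_right u w
    · intro u _
      rfl
  have hs2 : X.Hh m τ x η = X.Hh m τ x η * H63.MA.ep q (-E) := by
    conv_lhs => unfold AD.Hh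
    rw [hs]
    unfold AD.Hh
    rw [div_mul_eq_mul_div, Finset.sum_mul]
    congr 1
    refine Finset.sum_congr rfl fun u hu => ?_
    rw [hH, hpr u hu, neg_add, epq_add, mul_assoc]
  have h1 : H63.MA.ep q (-E) = 1 := by
    have h2 : X.Hh m τ x η * (1 - H63.MA.ep q (-E)) = 0 := by
      rw [mul_sub, mul_one, ← hs2, sub_self]
    rcases mul_eq_zero.1 h2 with h3 | h3
    · exact absurd h3 h
    · exact (sub_eq_zero.1 h3).symm
  have h4 : -E = 0 := by
    apply ZMod.injective_stdAddChar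
    rw [← H63.MA.rayc_std, h1, AddChar.map_zero_eq_one]
  exact neg_eq_zero.1 h4

end cnt

end H88.S3
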