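import Pool.Agent.H73.S3.Enr
import Pool.Agent.H73.S3.Cen
import Pool.Agent.H73.S3.Rei
import Pool.Agent.H88.S3.Hsu
import Pool.Agent.H88.S3.Adg

/-!
# [H88 S3 UNS2] a configuration without linked tuples is a survivor (MP_b39724_nt, stage 3, chapter B, (8.4)), with the relations between several functionals

As H73/S3/Uns. `Frq G q m`: the property of the group `S`: if every letter occurs often and all tuples are unlinked, and `∑ v, χ v (z v) = 0` for all families `z v ∈ gam_m` such that the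
`⁅y v, z v⁆` are in `ker pi` and their product is in `⁅ker pi ⊓ gam_(m+1), ⊤⁆`, then `χ v = - lam ∘ br (y v)` and `Q` is the group of the `x lam - lam`. `unsq`: as `uns`, with `hh_u` of H88/S3/Hsu.
-/

set_option autoImplicit false

open scoped NumberField commutatorElement
open IsDedekindDomain
open scoped Classical

noncomputable section

namespace H88.S3

open H63.MA H38.BB H38.BG H57.PC H57.BRA H77.WD H77.WE H77.PC3 H35.CF H35.UB H77.S3 H71.S3 H1.S3 H73.S3

attribute [local instance 50] Fintype.ofFinite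

/-- the property of the group `S` which is used: all tuples unlinked gives a survivor -/
def Frq {p N : ℕ} {P : Type} [Group P] {c : CL p N P} {S : Type} [Group S]
    [MulDistribMulAction P S] (G : SG c S) (q m : ℕ) : Prop :=
  ∀ (ι : Type) (s : ι → Px c) (χ : ι → Du S q m) (Q : Subgroup (Sd P (Du S q (m + 1)))),
    (∀ (a : Px c) (F : Finset ι), F.card ≤ m + 1 → ∃ v, v ∉ F ∧ s v = a) →
    (∀ (L : List ι) (z : ι → S), L.Nodup →
      (∀ v ∈ L, z v ∈ gm S m ∧ G.pi ⁅G.y (s v), z v⁆ = 1) →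
      (L.map fun v => ⁅G.y (s v), z v⁆).prod ∈ (⁅G.pi.ker ⊓ gm S (m + 1), ⊤⁆ : Subgroup S) →
      (L.map fun v => (χ v).ap (gk m (z v))).sum = 0) →
    (∀ D : Fin (m + 1) → ι, Function.Injective D →
      Ulk Q (fun k => G.y (s (D k))) fun k => χ (D k)) →
    ∃ lam : Du S q (m + 1), (∀ v z, (χ v).ap z = -lam.ap (br m (G.y (s v)) z)) ∧
      ∀ u ∈ Q, u.n = u.x • lam - lam

private theorem rp_rt {S P : Type} [Group S] [Group P] [MulDistribMulAction P S] (d : ℕ)
    (x : SP S P) : (rp d x).right = x.right := by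
  have h1 := @Quotient.mk_out _ (QuotientGroup.rightRel ((gm S d).map
    (SemidirectProduct.inl : S →* SP S P))) x
  have h2 : x * (rp d x)⁻¹ ∈ (gm S d).map (SemidirectProduct.inl : S →* SP S P) :=
    QuotientGroup.rightRel_apply.1 h1
  obtain ⟨u, -, hu⟩ := Subgroup.mem_map.1 h2
  have h3 := congrArg SemidirectProduct.right hu
  rw [SemidirectProduct.right_inl, SemidirectProduct.mul_right, SemidirectProduct.inv_right] at h3
  exact (mul_inv_eq_one.1 h3.symm).symm

private theorem kf_rt {S P : Type} [Group S] [Group P] [MulDistribMulAction P S] {q : ℕ} (d : ℕ)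
    (χ : Du S q d) (x₀ x : SP S P) (h : Kf d χ x₀ x ≠ 0) : x₀.right = x.right := by
  unfold Kf at h
  split_ifs at h with h1
  · rw [← h1, rp_rt]
  · exact absurd rfl h

private theorem chp_ext {S P : Type} [Group S] [Group P] [MulDistribMulAction P S] {J V : Type}
    (X : AD S P J V) {M : Type} [AddCommGroup M] [DistribMulAction P M] (k k' : FreeGroup J → M)
    (hk : X.CHp k) (hk' : X.CHp k') (h : ∀ j, k (FreeGroup.of j) = k' (FreeGroup.of j)) :
    k = k' := by
  have one : ∀ k : FreeGroup J → M, X.CHp k → k 1 = 0 := by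
    intro k hk
    have h1 := hk 1 1
    rw [mul_one, map_one, one_smul] at h1
    exact left_eq_add.1 h1
  have inv : ∀ k : FreeGroup J → M, X.CHp k → ∀ a, k a⁻¹ = -(X.ph a⁻¹ • k a) := by
    intro k hk a
    have h1 := hk a⁻¹ a
    rw [inv_mul_cancel, one k hk] at h1
    exact eq_neg_of_add_eq_zero_left h1.symm
  funext x
  refine FreeGroup.induction_on x ?_ ?_ ?_ ?_
  · rw [one k hk, one k' hk']
  · exact h
  · intro j hj
    rw [inv k hk, inv k' hk', h]
  · intro a b ha hb
    rw [hk, hk', ha, hb]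

variable {K : Type} [Field K] [NumberField K] {Ω : Type} [Field Ω] [Algebra K Ω]
  {p N : ℕ} {ζ : K} {D : RD0 K p ζ} {Q : DP K Ω} {A : GS D Ω} {P : Type} [Group P]
  {c : CL p N P} {S : Type} [Group S] [MulDistribMulAction P S] {q m : ℕ}

private theorem sp_lfu (Zc : Finset (Pl K)) (f : Pl K → Option (Elb c S q m)) :
    sp Zc (lf f) = sp Zc f := by
  ext v
  rw [mem_sp, mem_sp]
  unfold lf
  rw [ne_eq, Option.map_eq_none_iff]

theorem unsq [Fintype S] [Fintype P] [NeZero q] (hp : p.Prime) (G : SG c S) (B : SD D Q A)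
    (X : FD A P S) (W : WF A) {k Mw c₀ : ℕ} (T : ℝ) (Zc : Finset (Pl K))
    (hZE : Disjoint Zc X.E) (hm : 1 ≤ m) (hF : Frq G q m) (M : ℕ) (hM : m + 2 ≤ M)
    (τ₀ : Pl K → S) (e₀ : Pl K ⊕ Fin A.g → El S P q m)
    (f : Pl K → Option (Elb c S q m)) (hf : f ∈ Cf Zc (Elb c S q m)) (hr : Rich X W T Zc M (lf f))
    (hok : (adf G B X W T Zc (lf f)).Ok p k Mw q c₀ G.Pi)
    (hA : AX G B X W T Zc τ₀ e₀ f ≠ 0) (hF' : FX G B X W T Zc τ₀ e₀ f ≠ 0) :
    ∃ v ∈ Tp Zc (PPc X W T) f (m + 1), Lk G B X W T Zc e₀ f v := by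
  by_contra hcon
  push Not at hcon
  -- the letters
  have hs : ∀ v : {v : Pl K // v ∈ sp Zc f ∧ PPc X W T v}, ∃ a : Elb c S q m, f v.1 = some a :=
    fun v => Option.ne_none_iff_exists'.1 (mem_sp.1 v.2.1).2
  choose a ha using hs
  have hlf : ∀ v : {v : Pl K // v ∈ sp Zc f ∧ PPc X W T v}, lf f v.1 = some (a v).1 := by
    intro v
    unfold lf
    rw [ha]
    rfl
  have ht : ∀ v : {v : Pl K // v ∈ sp Zc f ∧ PPc X W T v},
      (adf G B X W T Zc (lf f)).t (Sum.inl v.1) = il (G.y (a v).1) := by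
    intro v
    have h1 : v.1 ∈ Zc := (mem_sp.1 v.2.1).1
    have h2 : v.1 ∉ X.E := Finset.disjoint_left.1 hZE h1
    simp only [adf, Sum.elim_inl, if_neg h2, if_pos h1, hlf, Option.elim]
  have hy : ∀ v : {v : Pl K // v ∈ sp Zc f ∧ PPc X W T v},
      (adf G B X W T Zc (lf f)).y (Sum.inl v.1) = G.y (a v).1 := by
    intro v
    unfold AD.y
    rw [ht]
    rfl
  have hJ : ∀ v : {v : Pl K // v ∈ sp Zc f ∧ PPc X W T v},
      (Sum.inl v.1 : Pl K ⊕ Fin A.g) ∈ (adf G B X W T Zc (lf f)).Jf := by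
    intro v
    show (Sum.inl v.1 : Pl K ⊕ Fin A.g) ∈ (sp Zc (lf f) ∪ X.E).disjSum Finset.univ
    rw [Finset.inl_mem_disjSum, Finset.mem_union, sp_lfu]
    exact Or.inl v.2.1
  have hpp : ∀ v : {v : Pl K // v ∈ sp Zc f ∧ PPc X W T v},
      (adf G B X W T Zc (lf f)).pp (Sum.inl v.1) := by
    intro v
    show v.1 ∈ sp Zc (lf f) ∧ PPc X W T v.1
    rw [sp_lfu]
    exact v.2
  -- the amplitude
  unfold AX at hA
  split_ifs at hA with hA1
  swap
  · exact hA rfl
  obtain ⟨-, -, hSv⟩ := hA1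
  have hH : (adf G B X W T Zc (lf f)).Hh m (tf τ₀ f) (fun j => (ef e₀ f j).2)
      ((adf G B X W T Zc (lf f)).et (ef e₀ f)) ≠ 0 := fun h0 => hA (by rw [h0, zero_div])
  -- the kernel
  unfold FX at hF'
  split_ifs at hF' with hF1
  swap
  · exact hF' rfl
  unfold AD.Kr at hF'
  rw [Finset.prod_ne_zero_iff] at hF'
  have hx : ∀ j ∈ (adf G B X W T Zc (lf f)).Jf, ((fun j => (ef e₀ f j).2) j).right =
      (adf G B X W T Zc (lf f)).ph ((adf G B X W T Zc (lf f)).W j) := by
    intro j hj
    have h1 := hF' j hj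
    rw [← H73.S3.vl_rt _ (tf τ₀ f) j]
    split_ifs at h1
    · exact kf_rt _ _ _ _ h1
    · exact kf_rt _ _ _ _ h1
  obtain ⟨lam, hl1, hl2⟩ := hF {v : Pl K // v ∈ sp Zc f ∧ PPc X W T v} (fun v => (a v).1)
    (fun v => (ef e₀ f (Sum.inl v.1)).1.1)
    ((adf G B X W T Zc (lf f)).Qp (kx G B X W T Zc e₀ f))
    (by
      intro b F hFc
      have h1 : (F.image Subtype.val).card <
          (Zc.filter fun v => lf f v = some b ∧ PPc X W T v).card := by
        have h2 := hr b
        have h3 : (F.image Subtype.val).card ≤ F.card := Finset.card_image_le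
        omega
      obtain ⟨v, hv1, hv2⟩ := Finset.exists_mem_notMem_of_card_lt_card h1
      rw [Finset.mem_filter] at hv1
      obtain ⟨hv3, hv4, hv5⟩ := hv1
      have hv6 : v ∈ sp Zc f := by
        rw [← sp_lfu, mem_sp]
        refine ⟨hv3, ?_⟩
        rw [hv4]
        exact Option.some_ne_none _
      refine ⟨⟨v, hv6, hv5⟩, fun h => hv2 (Finset.mem_image.2 ⟨_, h, rfl⟩), ?_⟩
      have h4 := hlf ⟨v, hv6, hv5⟩
      rw [hv4] at h4
      exact (Option.some.inj h4).symm)
    (by
      intro L z hL hLz hprod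
      obtain ⟨z', hz1, hz2⟩ : ∃ z' : Pl K ⊕ Fin A.g → S,
          (∀ v ∈ L, z' (Sum.inl v.1) = z v) ∧ ∀ j, (∀ v ∈ L, j ≠ Sum.inl v.1) → z' j = 1 := by
        refine ⟨fun j => if h : ∃ v ∈ L, j = Sum.inl v.1 then z h.choose else 1,
          fun v hv => ?_, fun j hj => ?_⟩
        · have h : ∃ v' ∈ L, (Sum.inl v.1 : Pl K ⊕ Fin A.g) = Sum.inl v'.1 := ⟨v, hv, rfl⟩
          beta_reduce
          rw [dif_pos h]
          have h1 : h.choose = v := Subtype.ext (Sum.inl_injective h.choose_spec.2).symm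
          rw [h1]
        · beta_reduce
          rw [dif_neg]
          rintro ⟨v, hv, e⟩
          exact hj v hv e
      have hmem : ∀ j : Pl K ⊕ Fin A.g, j ∈ L.map (fun v => (Sum.inl v.1 : Pl K ⊕ Fin A.g)) ↔
          ∃ v ∈ L, j = Sum.inl v.1 := by
        intro j
        rw [List.mem_map]
        constructor
        · rintro ⟨v, hv, e⟩
          exact ⟨v, hv, e.symm⟩
        · rintro ⟨v, hv, e⟩
          exact ⟨v, hv, e.symm⟩
      have hLn : (L.map fun v => (Sum.inl v.1 : Pl K ⊕ Fin A.g)).Nodup :=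
        hL.map fun v v' e => Subtype.ext (Sum.inl_injective e)
      have hker : ∀ u : S, G.pi u = 1 → u ∈ Nks G.Pi := by
        intro u hu
        rw [mem_nks, SG.Pi_mk]
        show G.pi u * (1 : P) = 1
        rw [hu, mul_one]
      have hkle : G.pi.ker ≤ Nks G.Pi := fun u hu => hker u hu
      have key := hh_u _ hok m hm (tf τ₀ f) (fun j => (ef e₀ f j).2) hx _ hH
        (fun j hj hp z hc x hx => by
          refine Eq.mp ?_ (adf_gr G B X W T Zc hZE (lf f) j hj hp z hc x hx)
          congr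
          exact Subsingleton.elim _ _)
        z' (L.map fun v => Sum.inl v.1) hLn
        (fun j hj => by
          obtain ⟨v, hv, rfl⟩ := (hmem j).1 hj
          exact ⟨hJ v, hpp v⟩)
        (fun j hj => by
          rw [hmem]
          by_contra hc
          exact hj (hz2 j fun v hv e => hc ⟨v, hv, e⟩))
        (fun j => by
          by_cases hj : ∃ v ∈ L, j = Sum.inl v.1
          · obtain ⟨v, hv, rfl⟩ := hj
            rw [hz1 v hv]
            exact (hLz v hv).1
          · rw [hz2 j fun v hv e => hj ⟨v, hv, e⟩]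
            exact one_mem _)
        (fun j hj => by
          obtain ⟨v, hv, rfl⟩ := (hmem j).1 hj
          rw [hz1 v hv, hy]
          exact hker _ (hLz v hv).2)
        (by
          have h1 : (L.map fun v => (Sum.inl v.1 : Pl K ⊕ Fin A.g)).map
              (fun j => ⁅(adf G B X W T Zc (lf f)).y j, z' j⁆) =
              L.map fun v => ⁅G.y (a v).1, z v⁆ := by
            rw [List.map_map]
            refine List.map_congr_left fun v hv => ?_
            show ⁅(adf G B X W T Zc (lf f)).y (Sum.inl v.1), z' (Sum.inl v.1)⁆ = _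
            rw [hz1 v hv, hy]
          rw [h1]
          exact Subgroup.commutator_mono (inf_le_inf_right _ hkle) le_rfl hprod)
      have h2 : ∑ j ∈ (adf G B X W T Zc (lf f)).Jf, (ef e₀ f j).1.1.ap (gk m (z' j)) = 0 := by
        rw [← Finset.sum_coe_sort]
        exact key
      have h3 : ∑ j ∈ (L.map fun v => (Sum.inl v.1 : Pl K ⊕ Fin A.g)).toFinset,
          (ef e₀ f j).1.1.ap (gk m (z' j)) =
          ∑ j ∈ (adf G B X W T Zc (lf f)).Jf, (ef e₀ f j).1.1.ap (gk m (z' j)) := by
        refine Finset.sum_subset (fun j hj => ?_) fun j _ hj => ?_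
        · rw [List.mem_toFinset] at hj
          obtain ⟨v, hv, rfl⟩ := (hmem j).1 hj
          exact hJ v
        · rw [List.mem_toFinset] at hj
          rw [hz2 j fun v hv e => hj ((hmem j).2 ⟨v, hv, e⟩), gk_one, map_zero]
      rw [h2, List.sum_toFinset _ hLn, List.map_map] at h3
      refine Eq.trans ?_ h3
      congr 1
      refine List.map_congr_left fun v hv => ?_
      show _ = (ef e₀ f (Sum.inl v.1)).1.1.ap (gk m (z' (Sum.inl v.1)))
      rw [hz1 v hv])
    (by
      intro D' hD'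
      have h1 : (fun k => (D' k).1) ∈ Tp Zc (PPc X W T) f (m + 1) := by
        unfold Tp
        rw [Finset.mem_filter, Fintype.mem_piFinset]
        refine ⟨fun k => ?_, fun i j hij => hD' (Subtype.ext hij)⟩
        rw [Finset.mem_filter]
        exact (D' k).2
      have h2 := hcon _ h1
      unfold Lk at h2
      rw [not_not] at h2
      simp only [hy] at h2
      exact h2)
  refine hSv ⟨lam, ?_, ?_⟩
  · rintro ⟨v | i, hj⟩ hp1 z
    · have h1 : v ∈ sp Zc (lf f) ∧ PPc X W T v := hp1
      rw [sp_lfu] at h1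
      have h2 := hl1 ⟨v, h1⟩ z
      rw [← hy] at h2
      exact h2
    · exact absurd hp1 not_false
  · have hk := (hk_iff (adf G B X W T Zc (lf f)) hp hok m
      ((adf G B X W T Zc (lf f)).et (ef e₀ f))).1
    have h1 : (adf G B X W T Zc (lf f)).kk ((adf G B X W T Zc (lf f)).et (ef e₀ f)) =
        fun x => (adf G B X W T Zc (lf f)).ph x • lam - lam := by
      refine chp_ext (adf G B X W T Zc (lf f)) _ _ hk.ch ?_ fun j => ?_
      · intro x y
        show (adf G B X W T Zc (lf f)).ph (x * y) • lam - lam =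
          ((adf G B X W T Zc (lf f)).ph x • lam - lam) +
            (adf G B X W T Zc (lf f)).ph x • ((adf G B X W T Zc (lf f)).ph y • lam - lam)
        rw [map_mul, mul_smul, smul_sub]
        abel
      · have h2 : (⟨kx G B X W T Zc e₀ f (FreeGroup.of j),
            (adf G B X W T Zc (lf f)).ph (FreeGroup.of j)⟩ : Sd P (Du S q (m + 1))) ∈
            (adf G B X W T Zc (lf f)).Qp (kx G B X W T Zc e₀ f) :=
          Subgroup.subset_closure ⟨j, rfl⟩
        exact hl2 _ h2
    rw [← h1]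
    exact hk

end H88.S3
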