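import Pool.Agent.H82.S3.Fre
import Pool.Agent.H88.S3.Uns2
import Pool.Agent.H88.S3.Unq
import Pool.Agent.H88.S3.Loe

/-!
# [H88 S3 FRE2] the property `Frq` of H88/S3/Uns2 for `S = Sp Pa (Px c)` (MP_b39724_nt, stage 3, condition (C4'), think 1773)

`lcs_le1`: the condition (C4') for sets of at most one element. `rtr`: the retraction of `Sp Pa α` on the group of the letters of `U`. `freq`: `1 ≤ m`, `m + 1 ≤ Pa.c`, `q` a power of `p` divisible by the precisions, `p ≠ 2` or
(C4'): any `k ≥ 2` labels generate a group of class at most `2 k - 1`.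
-/

set_option autoImplicit false

open scoped Classical commutatorElement

noncomputable section

namespace H88.S3

open Pool.Agent.H61.Tu H77.PC3 H35.UB H62.BL H82.S3

open H73.S3 (gm Gr gk Du SG cjx SP il Ulk gk_surj gk_pow gk_of gk_one br br_gk gm_comm')

section grp

variable {P : Type} [Group P]

theorem lcs_le1 {α : Type} (f : α → P) (U : Finset α) (hU : U.card ≤ 1) {m : ℕ} (hm : 1 ≤ m) :
    (Subgroup.closure (f '' U)).lowerCentralSeries m = ⊥ := by
  have h1 : (Subgroup.closure (f '' U)).lowerCentralSeries 1 = ⊥ := by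
    rw [Subgroup.lowerCentralSeries_succ, Subgroup.lowerCentralSeries_zero]
    obtain ⟨a, ha⟩ : ∃ a : P, f '' U ⊆ {a} := by
      rcases Finset.eq_empty_or_nonempty U with h | ⟨x, hx⟩
      · subst h
        exact ⟨1, by simp⟩
      · refine ⟨f x, ?_⟩
        rintro _ ⟨b, hb, rfl⟩
        rw [Finset.card_le_one.1 hU b (by exact_mod_cast hb) x hx]
        exact Set.mem_singleton _
    rw [eq_bot_iff]
    refine (Subgroup.commutator_mono (Subgroup.closure_mono ha) (Subgroup.closure_mono ha)).trans ?_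
    rw [Subgroup.commutator_le]
    intro x hx y hy
    obtain ⟨i, rfl⟩ := Subgroup.mem_closure_singleton.1 hx
    obtain ⟨j, rfl⟩ := Subgroup.mem_closure_singleton.1 hy
    rw [Subgroup.mem_bot, commutatorElement_eq_one_iff_mul_comm, ← zpow_add, ← zpow_add, add_comm]
  rw [eq_bot_iff, ← h1]
  exact Subgroup.lowerCentralSeries_antitone _ hm

theorem lcs_all {α : Type} (f : α → P)
    (h : ∀ U : Finset α, 2 ≤ U.card →
      (Subgroup.closure (f '' U)).lowerCentralSeries (2 * U.card - 1) = ⊥)
    (U : Finset α) {m : ℕ} (hm : 1 ≤ m) (hU : 2 * U.card ≤ m + 1) :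
    (Subgroup.closure (f '' U)).lowerCentralSeries m = ⊥ := by
  rcases Nat.lt_or_ge U.card 2 with h1 | h1
  · exact lcs_le1 f U (by omega) hm
  · rw [eq_bot_iff, ← h U h1]
    exact Subgroup.lowerCentralSeries_antitone _ (by omega)

end grp

section rtr

variable (P : Par) {α : Type}

theorem rtr (U : Finset α) : ∃ ρ : Sp P α →* Sp P α, (∀ a ∈ U, ρ (sy P a) = sy P a) ∧
    (∀ a, a ∉ U → ρ (sy P a) = 1) ∧ (∀ x, ρ (ρ x) = ρ x) ∧
    (⊤ : Subgroup (Sp P α)).map ρ = Subgroup.closure (sy P '' U) := by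
  obtain ⟨ρ, hρ⟩ := lft_exists P (T := Sp P α) (gam_c P) (fun _ _ _ ht => gam_pow P ht)
    fun a => if a ∈ U then sy P a else 1
  have h1 : ∀ a ∈ U, ρ (sy P a) = sy P a := fun a ha => by rw [hρ, if_pos ha]
  have h2 : ∀ a, a ∉ U → ρ (sy P a) = 1 := fun a ha => by rw [hρ, if_neg ha]
  refine ⟨ρ, h1, h2, fun x => ?_, ?_⟩
  · have h3 : ρ.comp ρ = ρ := sp_hom_ext P _ _ fun a => by
      rw [MonoidHom.comp_apply]
      by_cases ha : a ∈ U
      · rw [h1 a ha, h1 a ha]
      · rw [h2 a ha, map_one]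
    exact DFunLike.congr_fun h3 x
  · rw [← sy_gen P, MonoidHom.map_closure]
    apply le_antisymm
    · rw [Subgroup.closure_le]
      rintro _ ⟨_, ⟨a, rfl⟩, rfl⟩
      by_cases ha : a ∈ U
      · rw [h1 a ha]
        exact Subgroup.subset_closure ⟨a, ha, rfl⟩
      · rw [h2 a ha]
        exact one_mem _
    · refine Subgroup.closure_mono ?_
      rintro _ ⟨a, ha, rfl⟩
      exact ⟨sy P a, ⟨a, rfl⟩, h1 a ha⟩

theorem rn_com {G : Type} [Group G] (a : G) {w : List G} (h : w ≠ []) :
    H62.BL.rn (a :: w) = ⁅a, H62.BL.rn w⁆ := by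
  cases w with
  | nil => exact absurd rfl h
  | cons b w => rfl

theorem rn_gm {G : Type} [Group G] (w : List G) (hw : w ≠ []) :
    H62.BL.rn w ∈ gm G w.length := by
  induction w with
  | nil => exact absurd rfl hw
  | cons a w ih =>
    by_cases h : w = []
    · subst h
      exact Subgroup.mem_top _
    · rw [rn_com a h, List.length_cons]
      exact gm_comm' _ (ih h)

theorem rn_map {G G' : Type} [Group G] [Group G'] (f : G →* G') (w : List G) (hw : w ≠ []) :
    f (H62.BL.rn w) = H62.BL.rn (w.map f) := by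
  induction w with
  | nil => exact absurd rfl hw
  | cons a w ih =>
    by_cases h : w = []
    · subst h
      rfl
    · rw [rn_com a h, map_commutatorElement, ih h, List.map_cons, rn_com _ (by simpa using h)]

end rtr

section fre

variable {p N : ℕ} {P : Type} [Group P] {c : CL p N P}

theorem freq (Pa : Par) (G : SG c (Sp Pa (Px c))) (hG : ∀ x, G.y x = sy Pa x)
    (hT : ∀ u, G.pi u ^ (Pa.p ^ Pa.M Pa.c) = 1) (m : ℕ) (hm : 1 ≤ m) (hmc : m + 1 ≤ Pa.c) (q r : ℕ) (hq : q = Pa.p ^ r)
    (hr : Pa.M 1 ≤ r) (h2 : Pa.p ≠ 2 ∨ ∀ U : Finset (Px c), 2 ≤ U.card →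
      (Subgroup.closure ((fun x : Px c => x.1) '' U)).lowerCentralSeries (2 * U.card - 1) = ⊥) :
    Frq G q m := by
  obtain ⟨n, rfl⟩ : ∃ n, m = n + 1 := ⟨m - 1, by omega⟩
  have hqd : ∀ k, k + 1 ≤ Pa.c → Pa.q k ∣ q := by
    intro k hk
    rw [hq]
    exact pow_dvd_pow _ ((mok_le Pa.ok (by omega) (by omega) hk).trans hr)
  intro ι s χ Q hocc hrel hU
  have hs : Function.Surjective s := fun a => by
    obtain ⟨v, -, hv⟩ := hocc a ∅ (by simp)
    exact ⟨v, hv⟩
  letI : MulAction Q (Px c) := MulAction.compHom (Px c) ((H1.S3.Sd.pr (F := P) (N := Du (Sp Pa (Px c)) q (n + 1 + 1))).comp Q.subtype)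
  have hact : ∀ (u : Q) (a : Px c), u • a = cjx (u : H1.S3.Sd P (Du (Sp Pa (Px c)) q (n + 1 + 1))).x a := fun _ _ => rfl
  let chi : ι → LL (ZMod q) (Px c) (n + 1) →ₗ[ZMod q] ZMod q := fun v =>
    AddMonoidHom.toZModLinearMap q ((χ v).ap.comp (lq Pa (by omega) (hqd n (by omega))))
  let kap : Q → LL (ZMod q) (Px c) (n + 2) →ₗ[ZMod q] ZMod q := fun u =>
    AddMonoidHom.toZModLinearMap q ((u : H1.S3.Sd P (Du (Sp Pa (Px c)) q (n + 1 + 1))).n.ap.comp (lq Pa (n := n + 1) (by omega) (hqd (n + 1) (by omega))))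
  have hchi : ∀ v y, chi v y = (χ v).ap (lq Pa (by omega) (hqd n (by omega)) y) := fun _ _ => rfl
  have hkap : ∀ u y, kap u y = (u : H1.S3.Sd P (Du (Sp Pa (Px c)) q (n + 1 + 1))).n.ap (lq Pa (n := n + 1) (by omega) (hqd (n + 1) (by omega)) y) :=
    fun _ _ => rfl
  have hev : ∀ (D : Fin (n + 1 + 1) → ι) (w : List (Fin (n + 1 + 1) × Q)),
      (w.map fun a => (a.2 : H1.S3.Sd P (Du (Sp Pa (Px c)) q (n + 1 + 1))).x • G.y (s (D a.1))) = (w.map (ew s D)).map (sy Pa) := by
    intro D w
    rw [List.map_map]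
    refine List.map_congr_left fun a _ => ?_
    rw [G.smul_y, hG]
    rfl
  have hH : ∀ D : Fin (n + 1 + 1) → ι, Function.Injective D → ∃ lam, P1 (G := Q) s chi D lam ∧ P2 s kap D lam := by
    intro D hD
    obtain ⟨lam, a1, a2⟩ := hU D hD
    refine ⟨lam, fun k w hw => ?_, fun u w hw => ?_⟩
    · have hl : (w.map (ew s D)).length = n + 1 := by
        have := hw.length_eq
        rw [List.length_cons, List.length_map, List.length_finRange] at this
        rw [List.length_map]
        omega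
      rw [wv_eq _ hl, hchi, lq_br Pa _ _ _ hl, ← hev, ← a1 k w hw]
    · have hl : (w.map (ew s D)).length = n + 1 + 1 := by
        have := hw.length_eq
        rw [List.length_map, List.length_finRange] at this
        rw [List.length_map]
        omega
      rw [wv_eq _ hl, hkap, lq_br Pa _ _ _ hl, ← hev, ← a2 u w hw]
  have h3 : IsUnit (2 : ZMod q) ∨ ∀ u : List (Px c), 2 * u.length = n + 1 + 1 →
      ∃ lam : LL (ZMod q) (Px c) (n + 1 + 1) →ₗ[ZMod q] ZMod q,
      ∀ v : ι, s v ∈ u → ∀ (w : List (Px c)) (hw : w.length = n + 1), (∀ a ∈ w, a ∈ u) →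
        chi v ⟨br w, ll_mem hw⟩ = - lam ⟨br (s v :: w), ll_mem (by rw [List.length_cons, hw])⟩ := by
    rcases h2 with h2 | h2
    · left
      have h4 : Nat.Coprime 2 q := by
        rw [hq]
        exact Nat.Coprime.pow_right _ ((Nat.coprime_primes Nat.prime_two Pa.hp).2 (Ne.symm h2))
      exact_mod_cast (ZMod.isUnit_iff_coprime 2 q).2 h4
    · right
      intro u hu
      obtain ⟨U, hUd⟩ : ∃ U : Finset (Px c), U = u.toFinset := ⟨_, rfl⟩
      have hUc : 2 * U.card ≤ n + 1 + 1 := by
        have := List.toFinset_card_le u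
        rw [hUd]
        omega
      have hmU : ∀ a, a ∈ U ↔ a ∈ u := fun a => by rw [hUd, List.mem_toFinset]
      obtain ⟨ρ, r1, r2, r3, r4⟩ := rtr Pa U
      -- the images of the terms of the series
      have hmp : ∀ j, (gm (Sp Pa (Px c)) (j + 1)).map ρ =
          (Subgroup.closure (sy Pa '' U)).lowerCentralSeries j := by
        intro j
        unfold gm
        rw [Nat.add_sub_cancel, Subgroup.map_lowerCentralSeries, r4]
      have hpc : (Subgroup.closure (sy Pa '' U)).map G.pi =
          Subgroup.closure ((fun x : Px c => x.1) '' U) := by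
        rw [MonoidHom.map_closure, ← Set.image_comp]
        congr 1
        refine Set.image_congr fun x _ => ?_
        show G.pi (sy Pa x) = x.1
        rw [← hG, G.pi_y]
      have hbot := lcs_all (fun x : Px c => x.1) h2 U hm hUc
      have hpi : ∀ z ∈ (Subgroup.closure (sy Pa '' U)).lowerCentralSeries (n + 1), G.pi z = 1 := by
        intro z hz
        have h4 := Subgroup.mem_map_of_mem G.pi hz
        rw [Subgroup.map_lowerCentralSeries, hpc, hbot, Subgroup.mem_bot] at h4
        exact h4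
      obtain ⟨lam, hlam⟩ := loc_ex (sy Pa) (sy_gen Pa) U ρ r1 r2 r3 q (n + 1) hm s
        (fun a _ => hs a) χ (fun L z hL hLz hprod => by
          refine hrel L z hL (fun v hv => ?_) ?_
          · obtain ⟨hvU, x, hx, hzx⟩ := hLz v hv
            rw [hzx]
            refine ⟨gm_map ρ hx, hpi _ ?_⟩
            have h4 : ρ x ∈ (Subgroup.closure (sy Pa '' U)).lowerCentralSeries n := by
              rw [← hmp n]
              exact Subgroup.mem_map_of_mem ρ hx
            rw [Subgroup.lowerCentralSeries_succ, Subgroup.commutator_comm, hG]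
            exact Subgroup.commutator_mem_commutator (Subgroup.subset_closure ⟨s v, hvU, rfl⟩) h4
          · have h4 := hmp (n + 2)
            rw [show n + 2 + 1 = n + 1 + 2 by omega] at h4
            rw [h4, Subgroup.lowerCentralSeries_succ] at hprod
            simp only [hG]
            refine Subgroup.commutator_mono (le_inf (fun z hz => hpi z hz) ?_) le_top hprod
            rw [← hmp (n + 1), Subgroup.map_le_iff_le_comap]
            exact fun z hz => gm_map ρ hz)
      refine ⟨AddMonoidHom.toZModLinearMap q (lam.ap.comp (lq Pa (n := n + 1) (by omega) (hqd (n + 1) (by omega)))),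
        fun v hv w hw hwu => ?_⟩
      have hw0 : w ≠ [] := fun h => by rw [h, List.length_nil] at hw; omega
      have hwm0 : w.map (sy Pa) ≠ [] := by simpa using hw0
      have h4 : ρ (H62.BL.rn (w.map (sy Pa))) = H62.BL.rn (w.map (sy Pa)) := by
        rw [rn_map ρ _ hwm0, List.map_map]
        congr 1
        refine List.map_congr_left fun a ha => ?_
        exact r1 a ((hmU a).2 (hwu a ha))
      have h5 : H62.BL.rn (w.map (sy Pa)) ∈ gm (Sp Pa (Px c)) (n + 1) := by
        have := rn_gm (w.map (sy Pa)) hwm0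
        rwa [List.length_map, hw] at this
      have h6 := hlam v ((hmU _).2 hv) _ h5
      rw [h4, br_gk _ h5] at h6
      have h7 : lq Pa (n := n + 1) (by omega) (hqd (n + 1) (by omega))
          ⟨H62.BL.br (s v :: w), ll_mem (by rw [List.length_cons, hw])⟩ =
          gk (n + 1 + 1) (H62.BL.rn ((s v :: w).map (sy Pa))) :=
        lq_br Pa _ _ _ (by rw [List.length_cons, hw])
      rw [hchi, lq_br Pa _ _ _ hw, h6]
      show _ = -lam.ap (lq Pa (n := n + 1) (by omega) (hqd (n + 1) (by omega))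
          ⟨H62.BL.br (s v :: w), ll_mem (by rw [List.length_cons, hw])⟩)
      rw [h7, List.map_cons, rn_com _ hwm0]
  obtain ⟨la, l1, l2⟩ := unq (G := Q) (n := n + 1) (by omega) hocc hH h3
  have h0 : ∀ v a, (χ v).ap (Pa.q (n + 1) • a) = 0 := by
    intro v a
    obtain ⟨u, hu, rfl⟩ := gk_surj (n + 1) a
    rw [← gk_pow hu]
    have hcen : ∀ g, u ^ Pa.q (n + 1) * g = g * u ^ Pa.q (n + 1) := fun g => pow_cen Pa hu g
    have hcm : ⁅G.y (s v), u ^ Pa.q (n + 1)⁆ = 1 := by
      rw [commutatorElement_eq_one_iff_mul_comm]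
      exact (hcen _).symm
    have h4 := hrel [v] (fun _ => u ^ Pa.q (n + 1)) (List.nodup_singleton v) (fun v' hv' => by
      rw [List.mem_singleton] at hv'
      subst hv'
      refine ⟨pow_mem hu _, ?_⟩
      rw [hcm, map_one]) (by
      rw [List.map_singleton, List.prod_singleton, hcm]
      exact one_mem _)
    rw [List.map_singleton, List.sum_singleton] at h4
    exact h4
  obtain ⟨lam, r1, r2⟩ := dus Pa (Q := Q) (n := n) (by omega) (hqd n (by omega)) (hqd (n + 1) (by omega)) s hs χ
    (fun u => (u : H1.S3.Sd P (Du (Sp Pa (Px c)) q (n + 1 + 1))).n) h0 la (fun v y => (hchi v y).symm.trans (l1 v y.1 y.2))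
    (fun u x => (hkap u x).symm.trans (l2 u x.1 x.2))
  refine ⟨lam, fun v z => ?_, fun u hu => ?_⟩
  · rw [r1, hG]
  · exact r2 ⟨u, hu⟩

end fre

end H88.S3
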