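import Pool.Agent.H88.S3.Uns
import Pool.Agent.H93.BY.Df
import Pool.Agent.H42.BX.Lam

/-!
# [H88 S3 UNX] MP_b39724_nt, stage 3 and UBX: not linked (`LGx.Lk` of H93/BY/Df) gives the functional `lam` (`Q1`, `Q2` of Fal.lean)
-/

set_option autoImplicit false

open scoped Classical

noncomputable section

namespace H88.S3

open H62.BL H93.BY

variable {q n : ℕ} {P Qg Lm : Type} [Group P] [Group Qg] [MulAction Qg Lm]

/-- the twisted characters of H42/BX/Lam -/
def twx (Dx : LGx q n P Qg Lm) : H42.BX.Tw Dx.D where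
  ka := Dx.ka
  ka_add := Dx.ka_add
  ka_mul z z' x hx u hu := by
    rw [← hx]
    exact Dx.ka_mul x z' u hu
  ch := Dx.ch
  ch_add := Dx.ch_add
  ch_zero := Dx.ch_bot
  ch_act := Dx.ch_act

theorem lamF_twx (Dx : LGx q n P Qg Lm) (w : List (Lr (Fin (n + 2)) Lm)) :
    LamF (n + 1) Dx.D.s Dx.ch w = (twx Dx).Lam w := by
  cases w with
  | nil => rfl
  | cons a w => rfl

theorem kwF_twx (Dx : LGx q n P Qg Lm) (l₀ : Lm) (w : List (Lr (Fin (n + 2)) Lm)) :
    KwF (n + 1) Dx.D.s Dx.ch l₀ w = Dx.kw l₀ w := by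
  cases w with
  | nil => rfl
  | cons a w =>
    rw [KwF, LGx.kw]
    have h : (((a :: w).map Lr.i).Nodup ∧ w.length + 1 = n + 1 ∧ (∀ b ∈ a :: w, b.i ≠ 0)) ↔
        (((a :: w).map Lr.i).Nodup ∧ w.length = n ∧ (∀ b ∈ a :: w, b.i ≠ 0)) := by
      rw [Nat.add_right_cancel_iff]
    by_cases hc : ((a :: w).map Lr.i).Nodup ∧ w.length = n ∧ (∀ b ∈ a :: w, b.i ≠ 0)
    · rw [if_pos (h.2 hc), if_pos hc]; rfl
    · rw [if_neg fun h' => hc (h.1 h'), if_neg hc]

/-- THEOREM: a tuple which is not linked gives the functional `lam`. -/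
theorem unx [Fintype Lm] [Finite Qg] (Dx : LGx q n P Qg Lm) (lam : Fin (n + 2) → Lm) (h : ¬ Dx.Lk lam) :
    ∃ la : (List (Fin (n + 2) × Qg) → ZMod q) →ₗ[ZMod q] ZMod q,
      Q1 lam (fun k w => Dx.ch (lam k) (rn (w.map Dx.D.s))) la ∧ Q2 lam (fun u w => Dx.ka u (rn (w.map Dx.D.s))) la := by
  have : Fintype Qg := Fintype.ofFinite Qg
  refine uns (n := n + 1) (f := Dx.D.f) Dx.D.fl Dx.D.s_mem (fun a => ⟨Dx.ch_add a, Dx.ch_bot a⟩)
    (fun z => ⟨Dx.ka_add z, fun u hu => ((twx Dx).ad_ka z).zero u hu⟩) (by omega) lam (fun V hV hlen h0 => ?_) (fun z w => ?_)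
  · by_contra hne
    refine h ?_
    have hget : ∀ i : Fin (n + 1), (V.get (i.cast hlen.symm)).1 ≠ 0 := fun i => h0 _ (List.get_mem _ _)
    let τ0 : Fin (n + 1) → Fin (n + 1) := fun i => (V.get (i.cast hlen.symm)).1.pred (hget i)
    have hinj : Function.Injective τ0 := by
      intro i j hij
      have h1 : (V.get (i.cast hlen.symm)).1 = (V.get (j.cast hlen.symm)).1 := Fin.pred_inj.1 hij
      have h2 : (i.cast hlen.symm : Fin V.length).val = (j.cast hlen.symm : Fin V.length).val := by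
        have h3 := List.nodup_iff_injective_get.1 hV
        have h4 : (V.map Prod.fst).get (i.cast (by rw [List.length_map, hlen])) =
            (V.map Prod.fst).get (j.cast (by rw [List.length_map, hlen])) := by
          simpa using h1
        have h5 := congrArg Fin.val (h3 h4)
        simpa using h5
      exact Fin.ext (by simpa using h2)
    let τ : Equiv.Perm (Fin (n + 1)) := Equiv.ofBijective τ0 (Finite.injective_iff_bijective.1 hinj)
    refine ⟨τ, fun i => (V.get (i.cast hlen.symm)).2, fun hk => hne ?_⟩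
    have hV2 : V.map (El lam) = List.ofFn fun i : Fin (n + 1) =>
        (⟨(τ i).succ, (V.get (i.cast hlen.symm)).2 • lam (τ i).succ⟩ : Lr (Fin (n + 2)) Lm) := by
      refine List.ext_getElem (by rw [List.length_map, List.length_ofFn, hlen]) fun i h1 h2 => ?_
      rw [List.getElem_map, List.getElem_ofFn]
      have h3 : ((τ ⟨i, by rwa [List.length_ofFn] at h2⟩).succ : Fin (n + 2)) = (V[i]'(by simpa using h1)).1 :=
        Fin.succ_pred _ (hget ⟨i, by rwa [List.length_ofFn] at h2⟩)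
      rw [h3]
      rfl
    rw [hV2]
    refine Eq.trans ?_ hk
    refine Finset.sum_congr rfl fun t _ => ?_
    show br _ (List.ofFn t) * KwF (n + 1) Dx.D.s Dx.ch (lam 0) (List.ofFn t) = _
    rw [kwF_twx]
  · rw [lamF_twx, lamF_twx, (twx Dx).lam_act]
    rfl

/-- not linked: `ka z` vanishes on the brackets of the labels for `z` acting trivially on the labels -/
theorem falx [Fintype Lm] [Finite Qg] (Dx : LGx q n P Qg Lm) (lam : Fin (n + 2) → Lm) (h : ¬ Dx.Lk lam) {z : Qg}
    (hz : ∀ a : Lm, z • a = a) (w : List (Fin (n + 2) × Qg)) (hw : (w.map Prod.fst).Perm (List.finRange (n + 2))) :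
    Dx.ka z (rn (w.map fun x => Dx.D.s (x.2 • lam x.1))) = 0 := by
  obtain ⟨la, h1, h2⟩ := unx Dx lam h
  have h3 := fal (n := n + 1) (by omega) h1 h2 hz w hw
  rw [List.map_map] at h3
  exact h3

end H88.S3
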