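import Pool.Agent.H88.S3.Tbd

/-!
# [H88 S3 UNL] MP_b39724_nt, stage 3, (8.4) of think 1707: all tuples unlinked gives a survivor

`G` a group acting on the labels `Om`, `s v` the label of the variable `v : ι`, every label occurs often (`hocc`). `chi v` a functional
of the Lie elements of degree `n`, `kap u` (`u : G`) a functional of the Lie elements of degree `n + 1`. Letters `(k, u)`, `k ≤ n`,
`u : G`; for `D : Fin (n + 1) → ι` the letter `(k, u)` is evaluated at `u • s (D k)` (`ew s D`).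
HYPOTHESIS: for every injective `D` there is a functional `lam` with, for the words `w` which contain every index once,
  `chi (D k) (ev w) = - lam [(k, 1), w]`,   `lam (u⁻¹ w) - lam w = kap u (ev w)`.
CONCLUSION (`unl`): there is `la : LL (n + 1) → B` with `chi v y = - la [s v, y]`, `kap u x = la (u⁻¹ x) - la x`.
-/

set_option autoImplicit false

open scoped Classical

noncomputable section

namespace H88.S3

open H62.BL

section exp

variable {R α L : Type*} [CommRing R] [LieRing L] [LieAlgebra R L]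

/-- iterated bracket -/
def aw (f : α → L) (w : List α) (z : L) : L := w.foldr (fun a y => ⁅f a, y⁆) z

theorem rb_snoc (f : α → L) (w : List α) (x : α) : rb f (w ++ [x]) = aw f w (f x) := by
  induction w with
  | nil => rfl
  | cons a w ih =>
    rw [List.cons_append, rb_cons f a (by simp), ih]
    rfl

/-- expansion of a bracket of brackets -/
theorem exp1 (f : α → L) (y : List α) (hy : y ≠ []) : ∃ c : List α →₀ R, (∀ w ∈ c.support, w.Perm y) ∧
    ∀ z : L, ⁅rb f y, z⁆ = Finsupp.linearCombination R (fun w => aw f w z) c := by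
  induction y with
  | nil => exact absurd rfl hy
  | cons a y ih =>
    by_cases h : y = []
    · subst h
      refine ⟨Finsupp.single [a] 1, fun w hw => ?_, fun z => ?_⟩
      · rw [Finset.mem_singleton.1 (Finsupp.support_single_subset hw)]
      · rw [Finsupp.linearCombination_single, one_smul]; rfl
    · obtain ⟨c, hc, hz⟩ := ih h
      refine ⟨c.mapDomain (List.cons a) - c.mapDomain (fun w => w ++ [a]), fun w hw => ?_, fun z => ?_⟩
      · rcases Finset.mem_union.1 (Finsupp.support_sub hw) with h1 | h1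
        · obtain ⟨v, hv, rfl⟩ := Finset.mem_image.1 (Finsupp.mapDomain_support h1)
          exact (hc v hv).cons a
        · obtain ⟨v, hv, rfl⟩ := Finset.mem_image.1 (Finsupp.mapDomain_support h1)
          exact (List.perm_append_singleton a v).trans ((hc v hv).cons a)
      · rw [rb_cons f a h, lie_lie, map_sub, Finsupp.linearCombination_mapDomain, Finsupp.linearCombination_mapDomain, hz, hz]
        congr 1
        · rw [Finsupp.linearCombination_apply, Finsupp.linearCombination_apply, Finsupp.sum, Finsupp.sum, lie_sum]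
          exact Finset.sum_congr rfl fun w _ => by rw [lie_smul]; rfl
        · rw [Finsupp.linearCombination_apply, Finsupp.linearCombination_apply, Finsupp.sum, Finsupp.sum]
          refine Finset.sum_congr rfl fun w _ => ?_
          show c w • aw f w ⁅f a, z⁆ = c w • aw f (w ++ [a]) z
          congr 1
          rw [aw, aw, List.foldr_append]
          rfl

end exp

section unl

variable {R : Type} [CommRing R]

/-- the expansion of `[x, y]` in brackets which end in `x` -/
theorem br_exp {α : Type} (y : List α) (hy : y ≠ []) : ∃ c : List α →₀ R, (∀ w ∈ c.support, w.Perm y) ∧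
    ∀ x : α, (br (x :: y) : List α → R) = Finsupp.linearCombination R (fun w => (br (w ++ [x]) : List α → R)) c := by
  obtain ⟨c, hc, hz⟩ := exp1 (R := R) (FreeLieAlgebra.of R : α → FreeLieAlgebra R α) y hy
  refine ⟨-c, fun w hw => hc w (by rwa [Finsupp.support_neg] at hw), fun x => ?_⟩
  have h1 := congrArg ev (hz (FreeLieAlgebra.of R x))
  have h2 : ⁅rb (FreeLieAlgebra.of R) y, FreeLieAlgebra.of R x⁆ = - rb (FreeLieAlgebra.of R) (x :: y) := by
    rw [rb_cons _ x hy, lie_skew]
  rw [h2, map_neg, ev_rb] at h1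
  rw [map_neg, eq_neg_iff_add_eq_zero, ← neg_eq_iff_add_eq_zero, h1, Finsupp.linearCombination_apply, Finsupp.linearCombination_apply,
    Finsupp.sum, Finsupp.sum, map_sum]
  exact Finset.sum_congr rfl fun w _ => by rw [map_smul, ← rb_snoc, ev_rb]

variable {G Om : Type} [Group G] [MulAction G Om]

theorem qa_br (u : G) (w : List Om) : qa u (br w : List Om → R) = br (w.map fun a => u • a) := by
  induction w with
  | nil => rfl
  | cons a w ih =>
    have he : qa u (el a : List Om → R) = el (u • a) := by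
      funext v
      rw [qa, el, el]
      have : v.map (fun b => u⁻¹ • b) = [a] ↔ v = [u • a] := by
        constructor
        · intro h
          have h2 := congrArg (List.map fun b => u • b) h
          rw [List.map_map] at h2
          simpa using h2
        · rintro rfl
          simp
      by_cases hv : v = [u • a]
      · rw [if_pos hv, if_pos (this.2 hv)]
      · rw [if_neg hv, if_neg fun h => hv (this.1 h)]
    by_cases h : w = []
    · subst h; exact he
    · have hs : ∀ y z : List Om → R, qa u (y - z) = qa u y - qa u z := fun y z => rfl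
      rw [br_cons a h, hs, qa_cv, qa_cv, ih, he, List.map_cons, br_cons _ (by simpa using h)]

theorem qa_ll (u : G) {d : ℕ} {y : List Om → R} (h : y ∈ LL R Om d) : qa u y ∈ LL R Om d := by
  induction h using Submodule.span_induction with
  | mem x hx =>
    obtain ⟨w, hw, rfl⟩ := hx
    rw [qa_br]
    exact ll_mem (by rw [List.length_map, hw])
  | zero => exact Submodule.zero_mem _
  | add a b _ _ ha hb => exact Submodule.add_mem _ ha hb
  | smul r a _ ha => exact Submodule.smul_mem _ r ha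

variable {ι : Type}

/-- choice of different variables with given labels -/
theorem pick (s : ι → Om) (N : ℕ) (hocc : ∀ (a : Om) (F : Finset ι), F.card ≤ N → ∃ v, v ∉ F ∧ s v = a) (k : ℕ) :
    ∀ (t : Fin k → Om) (F : Finset ι), F.card + k ≤ N + 1 →
      ∃ D : Fin k → ι, Function.Injective D ∧ (∀ i, D i ∉ F) ∧ ∀ i, s (D i) = t i := by
  induction k with
  | zero => exact fun t F _ => ⟨Fin.elim0, fun i => i.elim0, fun i => i.elim0, fun i => i.elim0⟩
  | succ k ih =>
    intro t F hF
    obtain ⟨v, hv, hs⟩ := hocc (t 0) F (by omega)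
    obtain ⟨D, hD, h1, h2⟩ := ih (fun i => t i.succ) (insert v F) (by rw [Finset.card_insert_of_notMem hv]; omega)
    refine ⟨Fin.cons v D, ?_, ?_, ?_⟩
    · refine Fin.cons_injective_iff.2 ⟨?_, hD⟩
      rintro ⟨i, hi⟩
      exact h1 i (by rw [hi]; exact Finset.mem_insert_self v F)
    · intro i
      refine Fin.cases ?_ (fun j => ?_) i
      · exact hv
      · exact fun h => h1 j (Finset.mem_insert_of_mem h)
    · intro i
      refine Fin.cases ?_ (fun j => ?_) i
      · exact hs
      · exact h2 j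

/-- evaluation of the letters -/
def ew (s : ι → Om) {n : ℕ} (D : Fin (n + 1) → ι) : Fin (n + 1) × G → Om := fun x => x.2 • s (D x.1)

variable {B : Type} [AddCommGroup B] [Module R B]

/-- the values of a functional on brackets, as a function of words -/
def wv {d : ℕ} (f : LL R Om d →ₗ[R] B) (w : List Om) : B := if h : w.length = d then f ⟨br w, ll_mem h⟩ else 0

theorem wv_eq {d : ℕ} (f : LL R Om d →ₗ[R] B) {w : List Om} (h : w.length = d) : wv f w = f ⟨br w, ll_mem h⟩ := dif_pos h

theorem wv_ext {d : ℕ} {f g : LL R Om d →ₗ[R] B} (h : ∀ w : List Om, w.length = d → wv f w = wv g w) : f = g :=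
  ll_ext fun w hw => by rw [← wv_eq f hw, ← wv_eq g hw, h w hw]

/-- the word of the letters `(k, 1)`, `k ≠ 0` -/
def yw (G : Type) [Group G] (n : ℕ) : List (Fin (n + 1) × G) := (List.finRange n).map fun i => (i.succ, 1)

theorem yw_len (n : ℕ) : (yw G n).length = n := by rw [yw, List.length_map, List.length_finRange]

theorem yw_ne {n : ℕ} (hn : 1 ≤ n) : yw G n ≠ [] := fun h => by
  have := yw_len (G := G) n
  rw [h, List.length_nil] at this
  omega

theorem yw_fst (n : ℕ) : ((0 : Fin (n + 1)) :: (yw G n).map Prod.fst) = List.finRange (n + 1) := by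
  rw [yw, List.map_map, List.finRange_succ]
  rfl

theorem yw_mem {n : ℕ} {x : Fin (n + 1) × G} (h : x ∈ yw G n) : ∃ i : Fin n, x = (i.succ, 1) := by
  rw [yw] at h
  obtain ⟨i, _, rfl⟩ := List.mem_map.1 h
  exact ⟨i, rfl⟩

/-- first property of the functional -/
def P1 (s : ι → Om) {n : ℕ} (chi : ι → LL R Om n →ₗ[R] B) (D : Fin (n + 1) → ι) (lam : (List (Fin (n + 1) × G) → R) →ₗ[R] B) : Prop :=
  ∀ (k : Fin (n + 1)) (w : List (Fin (n + 1) × G)), (k :: w.map Prod.fst).Perm (List.finRange (n + 1)) →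
    wv (chi (D k)) (w.map (ew s D)) = - lam (br ((k, 1) :: w))

/-- second property of the functional -/
def P2 (s : ι → Om) {n : ℕ} (kap : G → LL R Om (n + 1) →ₗ[R] B) (D : Fin (n + 1) → ι)
    (lam : (List (Fin (n + 1) × G) → R) →ₗ[R] B) : Prop :=
  ∀ (u : G) (w : List (Fin (n + 1) × G)), (w.map Prod.fst).Perm (List.finRange (n + 1)) →
    lam (br (w.map fun x => (x.1, u⁻¹ * x.2))) - lam (br w) = wv (kap u) (w.map (ew s D))

theorem claimC {s : ι → Om} {n : ℕ} (hn : 1 ≤ n) {chi : ι → LL R Om n →ₗ[R] B} {D D' : Fin (n + 1) → ι}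
    {lam lam' : (List (Fin (n + 1) × G) → R) →ₗ[R] B} (h1 : P1 s chi D lam) (h1' : P1 s chi D' lam')
    (hD : ∀ i : Fin n, D i.succ = D' i.succ) {u u' : G} (hu : u • s (D 0) = u' • s (D' 0)) :
    lam (br ((0, u) :: yw G n)) = lam' (br ((0, u') :: yw G n)) := by
  obtain ⟨c, hc, hz⟩ := br_exp (R := R) (yw G n) (yw_ne hn)
  rw [hz, hz, Finsupp.linearCombination_apply, Finsupp.linearCombination_apply, Finsupp.sum, Finsupp.sum, map_sum, map_sum]
  refine Finset.sum_congr rfl fun w hw => ?_
  rw [map_smul, map_smul]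
  congr 1
  have hp := hc w hw
  have hmem : ∀ x ∈ w, ∃ i : Fin n, x = (i.succ, 1) := fun x hx => yw_mem (hp.mem_iff.1 hx)
  rcases w with _ | ⟨x, w⟩
  · exact absurd hp.symm.eq_nil (yw_ne hn)
  obtain ⟨j, rfl⟩ := hmem x (by simp)
  have hperm : ∀ g : G, (j.succ :: ((w ++ [((0 : Fin (n + 1)), g)]).map Prod.fst)).Perm (List.finRange (n + 1)) := by
    intro g
    have e1 : j.succ :: ((w ++ [((0 : Fin (n + 1)), g)]).map Prod.fst) = (((j.succ, (1 : G)) :: w).map Prod.fst) ++ [0] := by
      rw [List.map_append]; rfl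
    rw [e1, ← yw_fst (G := G)]
    exact (List.perm_append_singleton _ _).trans ((hp.map Prod.fst).cons 0)
  have r1 := h1 j.succ (w ++ [(0, u)]) (hperm u)
  have r2 := h1' j.succ (w ++ [(0, u')]) (hperm u')
  have e2 : (w ++ [((0 : Fin (n + 1)), u)]).map (ew s D) = (w ++ [((0 : Fin (n + 1)), u')]).map (ew s D') := by
    rw [List.map_append, List.map_append]
    congr 1
    · refine List.map_congr_left fun x hx => ?_
      obtain ⟨i, rfl⟩ := hmem x (List.mem_cons_of_mem _ hx)
      rw [ew, ew, hD]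
    · show [u • s (D 0)] = [u' • s (D' 0)]
      rw [hu]
  rw [e2, hD j, r2] at r1
  exact (neg_inj.1 r1).symm

variable {s : ι → Om} {n : ℕ} {chi : ι → LL R Om n →ₗ[R] B} {kap : G → LL R Om (n + 1) →ₗ[R] B}

theorem yw_ew {D : Fin (n + 1) → ι} {w0 : List Om} (h0 : w0.length = n) (hD : ∀ i : Fin n, s (D i.succ) = w0.get (i.cast h0.symm)) :
    (yw G n).map (ew s D) = w0 := by
  rw [yw, List.map_map]
  refine List.ext_getElem (by rw [List.length_map, List.length_finRange, h0]) fun i h1 h2 => ?_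
  have h3 : i < (List.finRange n).length := by simpa using h1
  rw [List.getElem_map]
  show (1 : G) • s (D ((List.finRange n)[i]).succ) = _
  rw [one_smul, hD]
  simp

theorem claimA (hn : 1 ≤ n) (hocc : ∀ (a : Om) (F : Finset ι), F.card ≤ n + 1 → ∃ v, v ∉ F ∧ s v = a)
    (H : ∀ D : Fin (n + 1) → ι, Function.Injective D → ∃ lam, P1 (G := G) s chi D lam ∧ P2 s kap D lam) {v v' : ι} {u : G}
    (hu : u • s v = s v') (w0 : List Om) (h0 : w0.length = n) :
    - wv (chi v) (w0.map fun a => u⁻¹ • a) + wv (kap u⁻¹) (s v :: w0.map fun a => u⁻¹ • a) = - wv (chi v') w0 := by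
  obtain ⟨D0, hD0, h1, h2⟩ := pick s (n + 1) hocc n (fun i => w0.get (i.cast h0.symm)) {v, v'} (by
    have := Finset.card_le_two (a := v) (b := v')
    omega)
  have hv : v ∉ Set.range D0 := by
    rintro ⟨i, hi⟩
    exact h1 i (by rw [hi]; simp)
  have hv' : v' ∉ Set.range D0 := by
    rintro ⟨i, hi⟩
    exact h1 i (by rw [hi]; simp)
  have hD : Function.Injective (Fin.cons v D0 : Fin (n + 1) → ι) := Fin.cons_injective_iff.2 ⟨hv, hD0⟩
  have hD' : Function.Injective (Fin.cons v' D0 : Fin (n + 1) → ι) := Fin.cons_injective_iff.2 ⟨hv', hD0⟩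
  obtain ⟨lam, a1, a2⟩ := H _ hD
  obtain ⟨lam', b1, b2⟩ := H _ hD'
  have r0 := claimC hn a1 b1 (fun i => rfl) (u := u) (u' := 1) (by
    show u • s v = (1 : G) • s v'
    rw [one_smul, hu])
  have e1 : (yw G n).map (ew s (Fin.cons v D0 : Fin (n + 1) → ι)) = w0 := yw_ew h0 fun i => h2 i
  have e1' : (yw G n).map (ew s (Fin.cons v' D0 : Fin (n + 1) → ι)) = w0 := yw_ew h0 fun i => h2 i
  have r1 := b1 0 (yw G n) (by rw [yw_fst])
  rw [e1'] at r1
  set y' := (yw G n).map (fun x => (x.1, u⁻¹ * x.2)) with hy'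
  have hf : y'.map Prod.fst = (yw G n).map Prod.fst := by
    rw [hy', List.map_map]; rfl
  have e2 : y'.map (ew s (Fin.cons v D0 : Fin (n + 1) → ι)) = w0.map fun a => u⁻¹ • a := by
    rw [hy', ← e1, List.map_map, List.map_map]
    refine List.map_congr_left fun x _ => ?_
    show (u⁻¹ * x.2) • _ = u⁻¹ • (x.2 • _)
    rw [mul_smul]
  have r2 := a1 0 y' (by rw [hf, yw_fst])
  rw [e2] at r2
  have r3 := a2 u⁻¹ ((0, 1) :: y') (by rw [List.map_cons, hf, yw_fst])
  have e3 : (((0 : Fin (n + 1)), (1 : G)) :: y').map (fun x => (x.1, (u⁻¹)⁻¹ * x.2)) = (0, u) :: yw G n := by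
    rw [List.map_cons, hy', List.map_map]
    congr 1
    · simp
    · refine (List.map_congr_left fun x _ => ?_).trans (List.map_id _)
      show (x.1, (u⁻¹)⁻¹ * (u⁻¹ * x.2)) = x
      rw [inv_inv, mul_inv_cancel_left]
  have e4 : (((0 : Fin (n + 1)), (1 : G)) :: y').map (ew s (Fin.cons v D0 : Fin (n + 1) → ι)) = s v :: w0.map fun a => u⁻¹ • a := by
    rw [List.map_cons, e2]
    congr 1
    show (1 : G) • s v = s v
    rw [one_smul]
  rw [e3, e4] at r3
  have r1' : wv (chi v') w0 = - lam' (br ((0, 1) :: yw G n)) := r1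
  have r2' : wv (chi v) (w0.map fun a => u⁻¹ • a) = - lam (br ((0, 1) :: y')) := r2
  rw [← r3, r1', r2', r0]
  abel

theorem claimB (hn : 1 ≤ n) (hocc : ∀ (a : Om) (F : Finset ι), F.card ≤ n + 1 → ∃ v, v ∉ F ∧ s v = a)
    (H : ∀ D : Fin (n + 1) → ι, Function.Injective D → ∃ lam, P1 (G := G) s chi D lam ∧ P2 s kap D lam) {v v' : ι}
    (hu : s v = s v') : chi v = chi v' := by
  refine wv_ext fun w0 h0 => ?_
  obtain ⟨D0, hD0, h1, h2⟩ := pick s (n + 1) hocc n (fun i => w0.get (i.cast h0.symm)) {v, v'} (by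
    have := Finset.card_le_two (a := v) (b := v')
    omega)
  have hv : v ∉ Set.range D0 := by
    rintro ⟨i, hi⟩
    exact h1 i (by rw [hi]; simp)
  have hv' : v' ∉ Set.range D0 := by
    rintro ⟨i, hi⟩
    exact h1 i (by rw [hi]; simp)
  have hD : Function.Injective (Fin.cons v D0 : Fin (n + 1) → ι) := Fin.cons_injective_iff.2 ⟨hv, hD0⟩
  have hD' : Function.Injective (Fin.cons v' D0 : Fin (n + 1) → ι) := Fin.cons_injective_iff.2 ⟨hv', hD0⟩
  obtain ⟨lam, a1, a2⟩ := H _ hD
  obtain ⟨lam', b1, b2⟩ := H _ hD'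
  have r0 := claimC hn a1 b1 (fun i => rfl) (u := 1) (u' := 1) (by
    show (1 : G) • s v = (1 : G) • s v'
    rw [hu])
  have e1 : (yw G n).map (ew s (Fin.cons v D0 : Fin (n + 1) → ι)) = w0 := yw_ew h0 fun i => h2 i
  have e1' : (yw G n).map (ew s (Fin.cons v' D0 : Fin (n + 1) → ι)) = w0 := yw_ew h0 fun i => h2 i
  have r1 := b1 0 (yw G n) (by rw [yw_fst])
  have r2 := a1 0 (yw G n) (by rw [yw_fst])
  rw [e1'] at r1
  rw [e1] at r2
  have r1' : wv (chi v') w0 = - lam' (br ((0, 1) :: yw G n)) := r1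
  have r2' : wv (chi v) w0 = - lam (br ((0, 1) :: yw G n)) := r2
  rw [r1', r2', r0]

/-- THEOREM ((8.4) of think 1707): all tuples unlinked gives a survivor. -/
theorem unl (h2 : IsUnit (2 : R)) (hn : 1 ≤ n) (hocc : ∀ (a : Om) (F : Finset ι), F.card ≤ n + 1 → ∃ v, v ∉ F ∧ s v = a)
    (H : ∀ D : Fin (n + 1) → ι, Function.Injective D → ∃ lam, P1 (G := G) s chi D lam ∧ P2 s kap D lam) :
    ∃ la : LL R Om (n + 1) →ₗ[R] B, (∀ (v : ι) (y : List Om → R) (hy : y ∈ LL R Om n), chi v ⟨y, hy⟩ = - la ⟨AD (s v) y, ad_ll _ hy⟩) ∧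
      ∀ (u : G) (x : List Om → R) (hx : x ∈ LL R Om (n + 1)), kap u ⟨x, hx⟩ = la ⟨qa u⁻¹ x, qa_ll _ hx⟩ - la ⟨x, hx⟩ := by
  have hex : ∀ a : Om, ∃ v, s v = a := fun a => by
    obtain ⟨v, _, hv⟩ := hocc a ∅ (by simp)
    exact ⟨v, hv⟩
  choose sg hsg using hex
  have hB : ∀ {v v' : ι}, s v = s v' → chi v = chi v' := fun h => claimB hn hocc H h
  have hchi : ∀ v, chi v = chi (sg (s v)) := fun v => hB (hsg (s v)).symm
  obtain ⟨la, hla⟩ := tbF h2 n hn (fun a => chi (sg a)) (fun D0 => by
    obtain ⟨D, hD, _, hs⟩ := pick s (n + 1) hocc (n + 1) D0 ∅ (by rw [Finset.card_empty]; omega)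
    obtain ⟨lam, a1, _⟩ := H D hD
    let Le : FreeLieAlgebra R (Fin (n + 1)) →ₗ⁅R⁆ FreeLieAlgebra R (Fin (n + 1) × G) :=
      FreeLieAlgebra.lift R fun k => FreeLieAlgebra.of R (k, 1)
    have hLe : ∀ w : List (Fin (n + 1)), Le (rb (FreeLieAlgebra.of R) w) = rb (FreeLieAlgebra.of R) (w.map fun k => (k, (1 : G))) := by
      intro w
      have e : (fun k => Le (FreeLieAlgebra.of R k)) = fun k : Fin (n + 1) => FreeLieAlgebra.of R (k, (1 : G)) :=
        funext fun k => FreeLieAlgebra.lift_of_apply _ _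
      rw [rb_map, e]
      induction w with
      | nil => rfl
      | cons a w ih =>
        by_cases hw : w = []
        · subst hw; rfl
        · rw [rb_cons _ a hw, ih, List.map_cons, rb_cons _ _ (by simpa using hw)]
    refine ⟨(lam.comp (ev.comp (Le : FreeLieAlgebra R (Fin (n + 1)) →ₗ[R] FreeLieAlgebra R (Fin (n + 1) × G)))).domRestrict _,
      fun k w h hw => ?_⟩
    have hm : (w.map fun k => (k, (1 : G))).map (ew s D) = w.map D0 := by
      rw [List.map_map]
      refine List.map_congr_left fun j _ => ?_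
      show (1 : G) • s (D j) = D0 j
      rw [one_smul, hs]
    have r1 := a1 k (w.map fun k => (k, 1)) (by
      rw [List.map_map]
      have : (Prod.fst ∘ fun k : Fin (n + 1) => (k, (1 : G))) = id := rfl
      rw [this, List.map_id]
      exact h)
    rw [hm, wv_eq (chi (D k)) (by rw [List.length_map, hw])] at r1
    have e1 : chi (sg (D0 k)) = chi (D k) := hB (by rw [hsg, hs])
    rw [e1, r1]
    congr 1
    show lam (br ((k, 1) :: w.map fun k => (k, 1))) = lam (ev (Le (rb (FreeLieAlgebra.of R) (k :: w))))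
    rw [hLe, ev_rb]
    rfl)
  have c1 : ∀ (v : ι) (y : List Om → R) (hy : y ∈ LL R Om n), chi v ⟨y, hy⟩ = - la ⟨AD (s v) y, ad_ll _ hy⟩ := by
    intro v y hy
    rw [hchi v, hla]
  refine ⟨la, c1, fun u x hx => ?_⟩
  let T : LL R Om (n + 1) →ₗ[R] B :=
    { toFun := fun x => la ⟨qa u⁻¹ x.1, qa_ll _ x.2⟩ - la x
      map_add' := fun x y => by
        have : (⟨qa u⁻¹ (x + y).1, qa_ll _ (x + y).2⟩ : LL R Om (n + 1)) = ⟨qa u⁻¹ x.1, qa_ll _ x.2⟩ + ⟨qa u⁻¹ y.1, qa_ll _ y.2⟩ := rfl
        rw [this, map_add, map_add]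
        abel
      map_smul' := fun r x => by
        have : (⟨qa u⁻¹ (r • x).1, qa_ll _ (r • x).2⟩ : LL R Om (n + 1)) = r • ⟨qa u⁻¹ x.1, qa_ll _ x.2⟩ := rfl
        rw [this, map_smul, map_smul, RingHom.id_apply, smul_sub] }
  have hT : kap u = T := by
    refine ll_ext fun w hw => ?_
    rcases w with _ | ⟨a, w⟩
    · simp at hw
    have hw' : w.length = n := by simpa using hw
    have hw0 : w ≠ [] := fun h => by rw [h, List.length_nil] at hw'; omega
    have r := claimA hn hocc H (v := sg a) (v' := sg (u⁻¹ • a)) (u := u⁻¹) (by rw [hsg, hsg]) (w.map fun b => u⁻¹ • b)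
      (by rw [List.length_map, hw'])
    have em : (w.map fun b => u⁻¹ • b).map (fun b => (u⁻¹)⁻¹ • b) = w := by
      rw [List.map_map]
      refine (List.map_congr_left fun x _ => ?_).trans (List.map_id _)
      show (u⁻¹)⁻¹ • u⁻¹ • x = x
      rw [inv_inv, smul_inv_smul]
    rw [em, inv_inv, hsg, wv_eq (chi (sg a)) hw', wv_eq (chi (sg (u⁻¹ • a))) (by rw [List.length_map, hw']),
      wv_eq (kap u) (w := a :: w) hw, c1, c1, neg_neg, neg_neg] at r
    have e1 : (⟨AD (s (sg a)) (br w), ad_ll _ (ll_mem hw')⟩ : LL R Om (n + 1)) = ⟨br (a :: w), ll_mem hw⟩ := Subtype.ext (by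
      show AD (s (sg a)) (br w) = br (a :: w)
      rw [hsg, AD_br a hw0])
    have e2 : (⟨AD (s (sg (u⁻¹ • a))) (br (w.map fun b => u⁻¹ • b)), ad_ll _ (ll_mem (by rw [List.length_map, hw']))⟩ :
        LL R Om (n + 1)) = ⟨qa u⁻¹ (br (a :: w)), qa_ll _ (ll_mem hw)⟩ := Subtype.ext (by
      show AD (s (sg (u⁻¹ • a))) (br (w.map fun b => u⁻¹ • b)) = qa u⁻¹ (br (a :: w))
      rw [hsg, AD_br _ (by simpa using hw0), qa_br]
      rfl)
    rw [e1, e2] at r
    show kap u ⟨br (a :: w), ll_mem hw⟩ = la ⟨qa u⁻¹ (br (a :: w)), qa_ll _ (ll_mem hw)⟩ - la ⟨br (a :: w), ll_mem hw⟩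
    rw [← r]
    abel
  rw [hT]
  rfl

end unl

end H88.S3
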