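import Pool.Agent.H88.S3.Unl

/-!
# [H88 S3 FAL] MP_b39724_nt, UBX, (6d) of think 1733: one unlinked tuple kills the crossed homomorphism on the kernel

`G` a group acting on the set `Om` of label values, letters `(k, u)`, `k ≤ n`, `u : G`, evaluated at `u • e0 k` (`ex e0`). `chi k`, `kap u`:
functions of words over `Om` (values of functionals at brackets). `lam`: a linear functional of functions on words with, for the words `w`
which contain every index once, `chi k (ev w) = - lam [(k, 1), w]` (`Q1`), `lam (u⁻¹ w) - lam w = kap u (ev w)` (`Q2`).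
CONCLUSION (`fal`): `kap z (ev w) = 0` for `z` acting trivially on `Om`. (`n ≥ 1`.)
-/

set_option autoImplicit false

open scoped Classical

noncomputable section

namespace H88.S3

open H62.BL

variable {R : Type} [CommRing R] {B : Type} [AddCommGroup B] [Module R B] {G Om : Type} [Group G] [MulAction G Om] {n : ℕ}

/-- evaluation of letters -/
def ex (e0 : Fin (n + 1) → Om) : Fin (n + 1) × G → Om := fun x => x.2 • e0 x.1

/-- first property -/
def Q1 (e0 : Fin (n + 1) → Om) (chi : Fin (n + 1) → List Om → B) (lam : (List (Fin (n + 1) × G) → R) →ₗ[R] B) : Prop :=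
  ∀ (k : Fin (n + 1)) (w : List (Fin (n + 1) × G)), (k :: w.map Prod.fst).Perm (List.finRange (n + 1)) →
    chi k (w.map (ex e0)) = - lam (br ((k, 1) :: w))

/-- second property -/
def Q2 (e0 : Fin (n + 1) → Om) (kap : G → List Om → B) (lam : (List (Fin (n + 1) × G) → R) →ₗ[R] B) : Prop :=
  ∀ (u : G) (w : List (Fin (n + 1) × G)), (w.map Prod.fst).Perm (List.finRange (n + 1)) →
    lam (br (w.map fun x => (x.1, u⁻¹ * x.2))) - lam (br w) = kap u (w.map (ex e0))

theorem map_ex (e0 : Fin (n + 1) → Om) (u : G) (w : List (Fin (n + 1) × G)) :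
    (w.map fun x => (x.1, u * x.2)).map (ex e0) = (w.map (ex e0)).map fun a => u • a := by
  rw [List.map_map, List.map_map]
  refine List.map_congr_left fun x _ => ?_
  show (u * x.2) • _ = u • (x.2 • _)
  rw [mul_smul]

variable {e0 : Fin (n + 1) → Om} {chi : Fin (n + 1) → List Om → B} {kap : G → List Om → B}
  {lam : (List (Fin (n + 1) × G) → R) →ₗ[R] B}

/-- the value at a bracket with a given first letter depends on the evaluation of the other letters -/
theorem first (h1 : Q1 e0 chi lam) (h2 : Q2 e0 kap lam) {k : Fin (n + 1)} {w w' : List (Fin (n + 1) × G)}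
    (hw : (k :: w.map Prod.fst).Perm (List.finRange (n + 1))) (hw' : (k :: w'.map Prod.fst).Perm (List.finRange (n + 1)))
    (he : w.map (ex e0) = w'.map (ex e0)) (u : G) : lam (br ((k, u) :: w)) = lam (br ((k, u) :: w')) := by
  have key : ∀ v : List (Fin (n + 1) × G), (k :: v.map Prod.fst).Perm (List.finRange (n + 1)) →
      lam (br ((k, u) :: v)) = - chi k ((v.map (ex e0)).map fun a => u⁻¹ • a) +
        kap u⁻¹ (e0 k :: (v.map (ex e0)).map fun a => u⁻¹ • a) := by
    intro v hv
    set v' := v.map (fun x => (x.1, u⁻¹ * x.2)) with hv'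
    have hf : v'.map Prod.fst = v.map Prod.fst := by
      rw [hv', List.map_map]; rfl
    have r2 := h1 k v' (by rw [hf]; exact hv)
    have r3 := h2 u⁻¹ ((k, 1) :: v') (by rw [List.map_cons, hf]; exact hv)
    have e3 : ((k, (1 : G)) :: v').map (fun x => (x.1, (u⁻¹)⁻¹ * x.2)) = (k, u) :: v := by
      rw [List.map_cons, hv', List.map_map]
      congr 1
      · simp
      · refine (List.map_congr_left fun x _ => ?_).trans (List.map_id _)
        show (x.1, (u⁻¹)⁻¹ * (u⁻¹ * x.2)) = x
        rw [inv_inv, mul_inv_cancel_left]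
    have e4 : ((k, (1 : G)) :: v').map (ex e0) = e0 k :: (v.map (ex e0)).map fun a => u⁻¹ • a := by
      rw [List.map_cons, hv', map_ex]
      congr 1
      show (1 : G) • e0 k = e0 k
      rw [one_smul]
    rw [e3, e4] at r3
    rw [hv', map_ex, ← hv'] at r2
    rw [← r3, r2]
    abel
  rw [key w hw, key w' hw', he]

/-- the first letter matters only through its evaluation -/
theorem first' (hn : 1 ≤ n) (h1 : Q1 e0 chi lam) (h2 : Q2 e0 kap lam) {k : Fin (n + 1)} {y : List (Fin (n + 1) × G)}
    (hy : (k :: y.map Prod.fst).Perm (List.finRange (n + 1))) {g g' : G} (hg : g • e0 k = g' • e0 k) :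
    lam (br ((k, g) :: y)) = lam (br ((k, g') :: y)) := by
  have hy0 : y ≠ [] := fun h => by
    have := hy.length_eq
    rw [h, List.map_nil, List.length_singleton, List.length_finRange] at this
    omega
  obtain ⟨c, hc, hz⟩ := br_exp (R := R) y hy0
  rw [hz, hz, Finsupp.linearCombination_apply, Finsupp.linearCombination_apply, Finsupp.sum, Finsupp.sum, map_sum, map_sum]
  refine Finset.sum_congr rfl fun w hw => ?_
  rw [map_smul, map_smul]
  congr 1
  have hp := hc w hw
  rcases w with _ | ⟨x, w⟩
  · exact absurd hp.symm.eq_nil hy0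
  have hperm : ∀ a : G, (x.1 :: ((w ++ [(k, a)]).map Prod.fst)).Perm (List.finRange (n + 1)) := by
    intro a
    have e1 : x.1 :: ((w ++ [(k, a)]).map Prod.fst) = ((x :: w).map Prod.fst) ++ [k] := by
      rw [List.map_append]; rfl
    rw [e1]
    exact (List.perm_append_singleton _ _).trans (((hp.map Prod.fst).cons k).trans hy)
  refine first h1 h2 (hperm g) (hperm g') ?_ x.2
  rw [List.map_append, List.map_append]
  congr 1
  show [g • e0 k] = [g' • e0 k]
  rw [hg]

/-- THEOREM ((6d) of think 1733) -/
theorem fal (hn : 1 ≤ n) (h1 : Q1 e0 chi lam) (h2 : Q2 e0 kap lam) {z : G} (hz : ∀ a : Om, z • a = a)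
    (w : List (Fin (n + 1) × G)) (hw : (w.map Prod.fst).Perm (List.finRange (n + 1))) : kap z (w.map (ex e0)) = 0 := by
  have hz' : ∀ a : Om, z⁻¹ • a = a := fun a => by rw [inv_smul_eq_iff, hz]
  rcases w with _ | ⟨⟨k, g⟩, y⟩
  · have := hw.length_eq
    rw [List.map_nil, List.length_nil, List.length_finRange] at this
    omega
  rw [← h2 z _ hw, sub_eq_zero, List.map_cons]
  have hf : (y.map fun x => (x.1, z⁻¹ * x.2)).map Prod.fst = y.map Prod.fst := by
    rw [List.map_map]; rfl
  have hev : (y.map fun x => (x.1, z⁻¹ * x.2)).map (ex e0) = y.map (ex e0) := by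
    rw [map_ex]
    exact (List.map_congr_left fun a _ => hz' a).trans (List.map_id _)
  have hw' : (k :: y.map Prod.fst).Perm (List.finRange (n + 1)) := hw
  have r1 := first h1 h2 (k := k) (by rw [hf]; exact hw') hw' hev (z⁻¹ * g)
  have r2 := first' hn h1 h2 (k := k) hw' (g := z⁻¹ * g) (g' := g) (by rw [mul_smul, hz'])
  exact r1.trans r2

end H88.S3
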