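import Pool.Agent.H88.S3.Unx
import Pool.Agent.H88.S3.Fal
import Pool.Agent.H62.BL.Lgp

/-!
# [H88 S3 FAV] MP_b39724_nt, UBX, (6d) of think 1733, part (B) of think 1756: `ka` vanishes on the elements which act trivially on the values

As `fal` of Fal.lean, but only the values `E a` of the labels are fixed by `z`: `E : Om → C` is a function with `E a = E b → E (u • a) = E (u • b)`, and `chi k w`, `kap u w` depend only on `w.map E`.
* `falE`: the abstract statement.
* `falv`: not linked: `ka (pi x₀)` vanishes on the brackets of the labels if `x₀` acts trivially on `f 1 / f 2`.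
-/

set_option autoImplicit false

open scoped Classical

noncomputable section

namespace H88.S3

open H62.BL H93.BY

section abs

variable {R : Type} [CommRing R] {B : Type} [AddCommGroup B] [Module R B] {G Om C : Type} [Group G] [MulAction G Om] {n : ℕ}
  {e0 : Fin (n + 1) → Om} {chi : Fin (n + 1) → List Om → B} {kap : G → List Om → B}
  {lam : (List (Fin (n + 1) × G) → R) →ₗ[R] B} {E : Om → C}

/-- functions on words which depend only on the values -/
def Dep (E : Om → C) (d : ℕ) (F : List Om → B) : Prop := ∀ w w' : List Om, w.length = d → w.map E = w'.map E → F w = F w'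

theorem map_E (hE : ∀ (u : G) (a b : Om), E a = E b → E (u • a) = E (u • b)) (u : G) {w w' : List Om} (h : w.map E = w'.map E) :
    (w.map fun a => u • a).map E = (w'.map fun a => u • a).map E := by
  induction w generalizing w' with
  | nil =>
    cases w' with
    | nil => rfl
    | cons b w' => simp at h
  | cons a w ih =>
    cases w' with
    | nil => simp at h
    | cons b w' =>
      rw [List.map_cons, List.map_cons, List.cons.injEq] at h
      simp only [List.map_cons, List.cons.injEq]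
      exact ⟨hE u a b h.1, ih h.2⟩

/-- the value at a bracket with a given first letter depends on the values of the other letters -/
theorem firstE (hE : ∀ (u : G) (a b : Om), E a = E b → E (u • a) = E (u • b)) (hc : ∀ k, Dep E n (chi k))
    (hk : ∀ u, Dep E (n + 1) (kap u)) (h1 : Q1 e0 chi lam) (h2 : Q2 e0 kap lam) {k : Fin (n + 1)} {w w' : List (Fin (n + 1) × G)}
    (hw : (k :: w.map Prod.fst).Perm (List.finRange (n + 1))) (hw' : (k :: w'.map Prod.fst).Perm (List.finRange (n + 1)))
    (he : (w.map (ex e0)).map E = (w'.map (ex e0)).map E) (u : G) : lam (br ((k, u) :: w)) = lam (br ((k, u) :: w')) := by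
  have key : ∀ v : List (Fin (n + 1) × G), (k :: v.map Prod.fst).Perm (List.finRange (n + 1)) →
      lam (br ((k, u) :: v)) = - chi k ((v.map (ex e0)).map fun a => u⁻¹ • a) +
        kap u⁻¹ (e0 k :: (v.map (ex e0)).map fun a => u⁻¹ • a) := by
    intro v hv
    set v' := v.map (fun x => (x.1, u⁻¹ * x.2)) with hv'
    have hf : v'.map Prod.fst = v.map Prod.fst := by
      rw [hv', List.map_map]; rfl
    have r2 := h1 k v' (by rw [hf]; exact hv)
    have r3 := h2 u⁻¹ ((k, 1) :: v') (by rw [List.map_cons, hf]; exact hv)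
    have e3 : ((k, (1 : G)) :: v').map (fun x => (x.1, (u⁻¹)⁻¹ * x.2)) = (k, u) :: v := by
      rw [List.map_cons, hv', List.map_map]
      congr 1
      · simp
      · refine (List.map_congr_left fun x _ => ?_).trans (List.map_id _)
        show (x.1, (u⁻¹)⁻¹ * (u⁻¹ * x.2)) = x
        rw [inv_inv, mul_inv_cancel_left]
    have e4 : ((k, (1 : G)) :: v').map (ex e0) = e0 k :: (v.map (ex e0)).map fun a => u⁻¹ • a := by
      rw [List.map_cons, hv', map_ex]
      congr 1
      show (1 : G) • e0 k = e0 k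
      rw [one_smul]
    rw [e3, e4] at r3
    rw [hv', map_ex, ← hv'] at r2
    rw [← r3, r2]
    abel
  have hl : ∀ v : List (Fin (n + 1) × G), (k :: v.map Prod.fst).Perm (List.finRange (n + 1)) → v.length = n := by
    intro v hv
    have := hv.length_eq
    rw [List.length_cons, List.length_map, List.length_finRange] at this
    omega
  have he' := map_E hE u⁻¹ he
  rw [key w hw, key w' hw', hc k _ _ (by rw [List.length_map, List.length_map, hl w hw]) he',
    hk u⁻¹ (e0 k :: (w.map (ex e0)).map fun a => u⁻¹ • a) (e0 k :: (w'.map (ex e0)).map fun a => u⁻¹ • a)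
      (by rw [List.length_cons, List.length_map, List.length_map, hl w hw]) (by rw [List.map_cons, List.map_cons, he'])]

/-- the first letter matters only through its value -/
theorem firstE' (hn : 1 ≤ n) (hE : ∀ (u : G) (a b : Om), E a = E b → E (u • a) = E (u • b)) (hc : ∀ k, Dep E n (chi k))
    (hk : ∀ u, Dep E (n + 1) (kap u)) (h1 : Q1 e0 chi lam) (h2 : Q2 e0 kap lam) {k : Fin (n + 1)} {y : List (Fin (n + 1) × G)}
    (hy : (k :: y.map Prod.fst).Perm (List.finRange (n + 1))) {g g' : G} (hg : E (g • e0 k) = E (g' • e0 k)) :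
    lam (br ((k, g) :: y)) = lam (br ((k, g') :: y)) := by
  have hy0 : y ≠ [] := fun h => by
    have := hy.length_eq
    rw [h, List.map_nil, List.length_singleton, List.length_finRange] at this
    omega
  obtain ⟨c, hc', hz⟩ := br_exp (R := R) y hy0
  rw [hz, hz, Finsupp.linearCombination_apply, Finsupp.linearCombination_apply, Finsupp.sum, Finsupp.sum, map_sum, map_sum]
  refine Finset.sum_congr rfl fun w hw => ?_
  rw [map_smul, map_smul]
  congr 1
  have hp := hc' w hw
  rcases w with _ | ⟨x, w⟩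
  · exact absurd hp.symm.eq_nil hy0
  have hperm : ∀ a : G, (x.1 :: ((w ++ [(k, a)]).map Prod.fst)).Perm (List.finRange (n + 1)) := by
    intro a
    have e1 : x.1 :: ((w ++ [(k, a)]).map Prod.fst) = ((x :: w).map Prod.fst) ++ [k] := by
      rw [List.map_append]; rfl
    rw [e1]
    exact (List.perm_append_singleton _ _).trans (((hp.map Prod.fst).cons k).trans hy)
  refine firstE hE hc hk h1 h2 (hperm g) (hperm g') ?_ x.2
  rw [List.map_append, List.map_append, List.map_append, List.map_append]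
  congr 1
  show [E (g • e0 k)] = [E (g' • e0 k)]
  rw [hg]

/-- THEOREM ((6d) of think 1733, values) -/
theorem falE (hn : 1 ≤ n) (hE : ∀ (u : G) (a b : Om), E a = E b → E (u • a) = E (u • b)) (hc : ∀ k, Dep E n (chi k))
    (hk : ∀ u, Dep E (n + 1) (kap u)) (h1 : Q1 e0 chi lam) (h2 : Q2 e0 kap lam) {z : G} (hz : ∀ a : Om, E (z • a) = E a)
    (w : List (Fin (n + 1) × G)) (hw : (w.map Prod.fst).Perm (List.finRange (n + 1))) : kap z (w.map (ex e0)) = 0 := by
  have hz' : ∀ a : Om, E (z⁻¹ • a) = E a := fun a => by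
    have h := hE z⁻¹ _ _ (hz a)
    rw [inv_smul_smul] at h
    exact h.symm
  rcases w with _ | ⟨⟨k, g⟩, y⟩
  · have := hw.length_eq
    rw [List.map_nil, List.length_nil, List.length_finRange] at this
    omega
  rw [← h2 z _ hw, sub_eq_zero, List.map_cons]
  have hf : (y.map fun x => (x.1, z⁻¹ * x.2)).map Prod.fst = y.map Prod.fst := by
    rw [List.map_map]; rfl
  have hev : ((y.map fun x => (x.1, z⁻¹ * x.2)).map (ex e0)).map E = (y.map (ex e0)).map E := by
    rw [map_ex, List.map_map]
    exact List.map_congr_left fun a _ => hz' a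
  have hw' : (k :: y.map Prod.fst).Perm (List.finRange (n + 1)) := hw
  have r1 := firstE hE hc hk h1 h2 (k := k) (by rw [hf]; exact hw') hw' hev (z⁻¹ * g)
  have r2 := firstE' hn hE hc hk h1 h2 (k := k) hw' (g := z⁻¹ * g) (g' := g) (by rw [mul_smul, hz'])
  exact r1.trans r2

end abs

section lgx

variable {q n : ℕ} {P Qg Lm : Type} [Group P] [Group Qg] [MulAction Qg Lm]

/-- words with the same values modulo `f 2` have brackets equal modulo `f (d + 1)` -/
theorem rn_val {f : ℕ → Subgroup P} (hF : Fl f) {s : Lm → P} (hs : ∀ a, s a ∈ f 1) {w w' : List Lm} (h0 : w ≠ [])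
    (h : w.map (fun a => (QuotientGroup.mk (s a) : P ⧸ f 2)) = w'.map fun a => (QuotientGroup.mk (s a) : P ⧸ f 2)) :
    rn (w'.map s) * (rn (w.map s))⁻¹ ∈ f (w.length + 1) := by
  have h1 := rn_cg hF (w.map s) (w'.map s) (by
    clear h0
    induction w generalizing w' with
    | nil =>
      cases w' with
      | nil => exact List.Forall₂.nil
      | cons b w' => simp at h
    | cons a w ih =>
      cases w' with
      | nil => simp at h
      | cons b w' =>
        rw [List.map_cons, List.map_cons, List.cons.injEq] at h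
        refine List.Forall₂.cons ⟨hs a, ?_⟩ (ih h.2)
        have h2 := QuotientGroup.eq.1 h.1
        have h3 := fl_conj hF (s a) h2
        rwa [mul_inv_cancel_left] at h3) (by simpa using h0)
  rwa [List.length_map] at h1

/-- THEOREM: not linked: `ka z`, `z = pi x₀`, vanishes on the brackets of the labels if `x₀` acts trivially on `f 1 / f 2` -/
theorem falv [Fintype Lm] [Finite Qg] (Dx : LGx q n P Qg Lm) (lam : Fin (n + 2) → Lm) (h : ¬ Dx.Lk lam) {x₀ : P}
    (hx : ∀ s ∈ Dx.D.f 1, x₀ * s * x₀⁻¹ * s⁻¹ ∈ Dx.D.f 2) (w : List (Fin (n + 2) × Qg))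
    (hw : (w.map Prod.fst).Perm (List.finRange (n + 2))) :
    Dx.ka (Dx.D.pi x₀) (rn (w.map fun x => Dx.D.s (x.2 • lam x.1))) = 0 := by
  obtain ⟨la, h1, h2⟩ := unx Dx lam h
  have hF := Dx.D.fl
  set E : Lm → P ⧸ Dx.D.f 2 := fun a => QuotientGroup.mk (Dx.D.s a) with hEd
  -- the value of the translate
  have hval : ∀ (x : P) (a : Lm), E (Dx.D.pi x • a) = QuotientGroup.mk (x * Dx.D.s a * x⁻¹) := by
    intro x a
    rw [hEd]
    refine QuotientGroup.eq.2 ?_
    have h3 := fl_conj hF (Dx.D.s (Dx.D.pi x • a))⁻¹ (inv_mem (Dx.D.s_act x a))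
    have e : (Dx.D.s (Dx.D.pi x • a))⁻¹ * (Dx.D.s (Dx.D.pi x • a) * (x * Dx.D.s a * x⁻¹)⁻¹)⁻¹ *
        (Dx.D.s (Dx.D.pi x • a))⁻¹⁻¹ = (Dx.D.s (Dx.D.pi x • a))⁻¹ * (x * Dx.D.s a * x⁻¹) := by group
    rwa [e] at h3
  have hE : ∀ (u : Qg) (a b : Lm), E a = E b → E (u • a) = E (u • b) := by
    intro u a b hab
    obtain ⟨x, rfl⟩ := Dx.D.sur u
    rw [hval, hval]
    refine QuotientGroup.eq.2 ?_
    have h3 := fl_conj hF x (QuotientGroup.eq.1 hab)
    have e : (x * Dx.D.s a * x⁻¹)⁻¹ * (x * Dx.D.s b * x⁻¹) = x * ((Dx.D.s a)⁻¹ * Dx.D.s b) * x⁻¹ := by group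
    rwa [e]
  have hz : ∀ a : Lm, E (Dx.D.pi x₀ • a) = E a := by
    intro a
    rw [hval]
    refine QuotientGroup.eq.2 ?_
    have h3 := inv_mem (hx (Dx.D.s a) (Dx.D.s_mem a))
    have h4 := fl_conj hF (x₀ * Dx.D.s a * x₀⁻¹)⁻¹ h3
    have e : (x₀ * Dx.D.s a * x₀⁻¹)⁻¹ * (x₀ * Dx.D.s a * x₀⁻¹ * (Dx.D.s a)⁻¹)⁻¹ * (x₀ * Dx.D.s a * x₀⁻¹)⁻¹⁻¹ =
        (x₀ * Dx.D.s a * x₀⁻¹)⁻¹ * Dx.D.s a := by group
    rwa [e] at h4
  have hmem : ∀ v : List Lm, v ≠ [] → rn (v.map Dx.D.s) ∈ Dx.D.f v.length := fun v hv => rn_mem hF Dx.D.s_mem hv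
  have h3 := falE (n := n + 1) (E := E) (e0 := lam) (chi := fun k w => Dx.ch (lam k) (rn (w.map Dx.D.s)))
    (kap := fun u w => Dx.ka u (rn (w.map Dx.D.s))) (by omega) hE (fun k v v' hl hv => by
      have hv0 : v ≠ [] := fun h => by rw [h, List.length_nil] at hl; omega
      have h4 := rn_val hF Dx.D.s_mem hv0 hv
      have h5 := hmem v hv0
      rw [hl] at h4 h5
      have h6 := Dx.ch_add (lam k) _ (fl_le hF (by omega) h4) _ h5
      rw [inv_mul_cancel_right, Dx.ch_bot (lam k) _ h4, zero_add] at h6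
      exact h6.symm) (fun u v v' hl hv => by
      have hv0 : v ≠ [] := fun h => by rw [h, List.length_nil] at hl; omega
      have h4 := rn_val hF Dx.D.s_mem hv0 hv
      rw [hl] at h4
      have h5 : rn (v'.map Dx.D.s) * (rn (v.map Dx.D.s))⁻¹ = 1 := by
        have h6 : Dx.D.f (n + 1 + 2) = ⊥ := Dx.D.bot
        have h7 : rn (v'.map Dx.D.s) * (rn (v.map Dx.D.s))⁻¹ ∈ Dx.D.f (n + 1 + 2) := h4
        rw [h6, Subgroup.mem_bot] at h7
        exact h7
      show Dx.ka u _ = Dx.ka u _
      rw [mul_inv_eq_one.1 h5]) h1 h2 hz w hw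
  rw [List.map_map] at h3
  exact h3

end lgx

end H88.S3
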