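import Pool.Agent.H88.S3.Laz
import Pool.Agent.H42.WM.WrdB

/-!
# [H88 S3 COF] MP_b39724_nt, stage 3: brackets as functions on words (`br`, `cv` of H62/BL/Alg)

`PS f l`: span of the right normed brackets of the permutations of the word `l`; closed under the bracket (`ps_lie`). `cf`: the
coefficients of an element of the free associative algebra. `LL R α d`: span of `br w`, `w` of length `d`. `ll_map`: a linear functional of
the brackets in any Lie algebra comes from a functional on `LL R α d`.
-/

set_option autoImplicit false

open scoped Classical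

noncomputable section

namespace H88.S3

open H62.BL

section perm

variable {R α L : Type*} [CommRing R] [LieRing L] [LieAlgebra R L]

variable (R) in
/-- span of the brackets of the permutations of `l` -/
def PS (f : α → L) (l : List α) : Submodule R L := Submodule.span R {x | ∃ w : List α, w.Perm l ∧ x = rb f w}

theorem ps_mem (f : α → L) {l w : List α} (h : w.Perm l) : rb f w ∈ PS R f l := Submodule.subset_span ⟨w, h, rfl⟩

theorem ps_perm (f : α → L) {l l' : List α} (h : l.Perm l') : PS R f l ≤ PS R f l' :=
  Submodule.span_mono fun _ ⟨w, hw, hx⟩ => ⟨w, hw.trans h, hx⟩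

theorem ps_ad (f : α → L) (x : α) {l : List α} {z : L} (hz : z ∈ PS R f l) : ⁅f x, z⁆ ∈ PS R f (x :: l) := by
  induction hz using Submodule.span_induction with
  | mem z hz =>
    obtain ⟨w, hw, rfl⟩ := hz
    by_cases h : w = []
    · subst h
      have : ⁅f x, rb f ([] : List α)⁆ = 0 := lie_zero _
      rw [this]
      exact Submodule.zero_mem _
    · rw [← rb_cons f x h]
      exact ps_mem f (hw.cons x)
  | zero => rw [lie_zero]; exact Submodule.zero_mem _
  | add a b _ _ ha hb => rw [lie_add]; exact Submodule.add_mem _ ha hb
  | smul r a _ ha => rw [lie_smul]; exact Submodule.smul_mem _ _ ha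

theorem ps_lie1 (f : α → L) (u : List α) : ∀ {l : List α} {z : L}, z ∈ PS R f l → ⁅rb f u, z⁆ ∈ PS R f (u ++ l) := by
  induction u with
  | nil =>
    intro l z _
    have : ⁅rb f ([] : List α), z⁆ = 0 := zero_lie _
    rw [this]
    exact Submodule.zero_mem _
  | cons x u ih =>
    intro l z hz
    by_cases h : u = []
    · subst h
      exact ps_ad f x hz
    · rw [rb_cons f x h, lie_lie]
      exact Submodule.sub_mem _ (ps_ad f x (ih hz)) (ps_perm f List.perm_middle (ih (ps_ad f x hz)))

theorem ps_lie (f : α → L) {l l' : List α} {y z : L} (hy : y ∈ PS R f l) (hz : z ∈ PS R f l') : ⁅y, z⁆ ∈ PS R f (l ++ l') := by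
  induction hy using Submodule.span_induction with
  | mem y hy =>
    obtain ⟨w, hw, rfl⟩ := hy
    exact ps_perm f (hw.append_right l') (ps_lie1 f w hz)
  | zero => rw [zero_lie]; exact Submodule.zero_mem _
  | add a b _ _ ha hb => rw [add_lie]; exact Submodule.add_mem _ ha hb
  | smul r a _ ha => rw [smul_lie]; exact Submodule.smul_mem _ _ ha

end perm

section coeff

attribute [local instance 100] LieRing.ofAssociativeRing

variable {R α : Type} [CommRing R]

/-- the function of the word `u` with coefficient `r` -/
def sg (u : List α) (r : R) : List α → R := fun w => if w = u then r else 0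

theorem cv_sg_nil (r : R) (g : List α → R) (w : List α) : cv (sg [] r) g w = r * g w := by
  cases w with
  | nil => rw [cv_nil, sg, if_pos rfl]
  | cons a w =>
    rw [cv_cons, sg, if_pos rfl]
    have : (fun v : List α => (sg [] r : List α → R) (a :: v)) = fun _ => 0 := funext fun v => if_neg (by simp)
    rw [this, cv_zero_left, add_zero]

theorem cv_sg (u v : List α) (r s : R) : cv (sg u r) (sg v s) = sg (u ++ v) (r * s) := by
  induction u with
  | nil =>
    funext w
    rw [cv_sg_nil, List.nil_append, sg, sg]
    split_ifs <;> simp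
  | cons a u ih =>
    funext w
    cases w with
    | nil => rw [cv_nil, sg, if_neg (by simp), zero_mul, sg, if_neg (by simp)]
    | cons b w =>
      rw [cv_cons, sg, if_neg (by simp), zero_mul, zero_add]
      by_cases h : b = a
      · subst h
        have : (fun x : List α => (sg (b :: u) r : List α → R) (b :: x)) = sg u r := funext fun x => by
          rw [sg, sg]; simp
        rw [this, ih, sg, sg]; simp
      · have : (fun x : List α => (sg (a :: u) r : List α → R) (b :: x)) = fun _ => 0 := funext fun x => if_neg (by
          simp [h])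
        rw [this, cv_zero_left, sg, if_neg (by simp [h])]

/-- coefficients of an element of the monoid algebra -/
def cm : MonoidAlgebra R (FreeMonoid α) →ₗ[R] (List α → R) where
  toFun x := fun w => x.coeff (FreeMonoid.ofList w)
  map_add' _ _ := rfl
  map_smul' _ _ := rfl

theorem cm_single (u : FreeMonoid α) (r : R) : cm (MonoidAlgebra.single u r) = sg (FreeMonoid.toList u) r := by
  funext w
  show (MonoidAlgebra.single u r).coeff (FreeMonoid.ofList w) = _
  rw [MonoidAlgebra.coeff_single, Finsupp.single_apply, sg]
  by_cases h : w = FreeMonoid.toList u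
  · rw [if_pos h, if_pos (by rw [h]; rfl)]
  · rw [if_neg h, if_neg fun h' => h (by rw [h']; rfl)]

theorem cm_mul (x y : MonoidAlgebra R (FreeMonoid α)) : cm (x * y) = cv (cm x) (cm y) := by
  induction x using MonoidAlgebra.induction_linear with
  | zero =>
    rw [zero_mul, map_zero]
    exact funext fun w => (cv_zero_left _ w).symm
  | add a b ha hb =>
    rw [add_mul, map_add, ha, hb, map_add]
    exact funext fun w => (cv_add_left _ _ _ w).symm
  | single u r =>
    induction y using MonoidAlgebra.induction_linear with
    | zero =>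
      rw [mul_zero, map_zero]
      exact funext fun w => (cv_zero_right _ w).symm
    | add a b ha hb =>
      rw [mul_add, map_add, ha, hb, map_add]
      exact funext fun w => (cv_add_right _ _ _ w).symm
    | single v s =>
      rw [MonoidAlgebra.single_mul_single, cm_single, cm_single, cm_single, cv_sg]
      rfl

theorem cm_inj : Function.Injective (cm : MonoidAlgebra R (FreeMonoid α) →ₗ[R] (List α → R)) := by
  intro x y h
  refine MonoidAlgebra.ext (Finsupp.ext fun w => ?_)
  exact congrFun h (FreeMonoid.toList w)

/-- coefficients of an element of the free algebra -/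
def cf : FreeAlgebra R α →ₗ[R] (List α → R) := cm.comp (FreeAlgebra.equivMonoidAlgebraFreeMonoid (R := R) (X := α)).toLinearMap

theorem cf_mul (x y : FreeAlgebra R α) : cf (x * y) = cv (cf x) (cf y) := by
  show cm (FreeAlgebra.equivMonoidAlgebraFreeMonoid (x * y)) = _
  rw [map_mul, cm_mul]
  rfl

theorem cf_inj : Function.Injective (cf : FreeAlgebra R α →ₗ[R] (List α → R)) :=
  cm_inj.comp (FreeAlgebra.equivMonoidAlgebraFreeMonoid (R := R) (X := α)).injective

theorem cf_iota (a : α) : cf (FreeAlgebra.ι R a) = (el a : List α → R) := by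
  show cm (FreeAlgebra.equivMonoidAlgebraFreeMonoid (FreeAlgebra.ι R a)) = _
  have : FreeAlgebra.equivMonoidAlgebraFreeMonoid (FreeAlgebra.ι R a) = MonoidAlgebra.single (FreeMonoid.of a) (1 : R) := by
    show FreeAlgebra.lift R _ (FreeAlgebra.ι R a) = _
    rw [FreeAlgebra.lift_ι_apply]
    rfl
  rw [this, cm_single]
  rfl

theorem br_cons (a : α) {w : List α} (h : w ≠ []) :
    (br (a :: w) : List α → R) = cv (el a) (br w) - cv (br w) (el a) := by
  cases w with
  | nil => exact absurd rfl h
  | cons b w => rfl

theorem cf_rb (w : List α) : cf (rb (FreeAlgebra.ι R) w) = br w := by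
  induction w with
  | nil => exact map_zero _
  | cons a w ih =>
    by_cases h : w = []
    · subst h; exact cf_iota a
    · rw [rb_cons _ _ h, Ring.lie_def, map_sub, cf_mul, cf_mul, ih, cf_iota, br_cons a h]

/-- a relation between the functions `br w` holds in every Lie algebra -/
theorem laz_br (c : List α →₀ R) (h : Finsupp.linearCombination R (br : List α → List α → R) c = 0)
    {L : Type} [LieRing L] [LieAlgebra R L] (f : α → L) : RB R f c = 0 := by
  refine laz (c.support.sup List.length) c (fun w hw => Finset.le_sup (f := List.length) hw) ?_ f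
  refine cf_inj ?_
  rw [map_zero, ← h, RB, Finsupp.linearCombination_apply, Finsupp.linearCombination_apply, Finsupp.sum, Finsupp.sum, map_sum]
  exact Finset.sum_congr rfl fun w _ => by rw [map_smul, cf_rb]

variable (R α) in
/-- the Lie elements of degree `d` -/
def LL (d : ℕ) : Submodule R (List α → R) := Submodule.span R {x | ∃ w : List α, w.length = d ∧ x = br w}

theorem ll_mem {d : ℕ} {w : List α} (h : w.length = d) : (br w : List α → R) ∈ LL R α d := Submodule.subset_span ⟨w, h, rfl⟩

/-- a linear map factors through a linear map with a smaller kernel -/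
theorem fac {M N B : Type*} [AddCommGroup M] [Module R M] [AddCommGroup N] [Module R N] [AddCommGroup B] [Module R B]
    (T : M →ₗ[R] N) (K : M →ₗ[R] B) (h : ∀ c, T c = 0 → K c = 0) (S : Submodule R N) (hS : ∀ x ∈ S, ∃ c, T c = x) :
    ∃ g : S →ₗ[R] B, ∀ c (hc : T c ∈ S), g ⟨T c, hc⟩ = K c := by
  choose F hF using hS
  have h2 : ∀ c c', T c = T c' → K c = K c' := fun c c' e => by
    rw [← sub_eq_zero, ← map_sub]
    exact h _ (by rw [map_sub, e, sub_self])
  refine ⟨⟨⟨fun x => K (F x.1 x.2), fun x y => ?_⟩, fun r x => ?_⟩, fun c hc => h2 _ _ (hF _ hc)⟩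
  · rw [← map_add]
    exact h2 _ _ (by rw [hF, map_add, hF, hF]; rfl)
  · rw [RingHom.id_apply, ← map_smul]
    exact h2 _ _ (by rw [hF, map_smul, hF]; rfl)

/-- functionals on the Lie elements from functionals on brackets in a Lie algebra -/
theorem ll_map {L B : Type} [LieRing L] [LieAlgebra R L] [AddCommGroup B] [Module R B] (f : α → L) (k : L →ₗ[R] B) (d : ℕ) :
    ∃ lam : LL R α d →ₗ[R] B, ∀ (w : List α) (h : w.length = d), lam ⟨br w, ll_mem h⟩ = k (rb f w) := by
  obtain ⟨g, hg⟩ := fac (Finsupp.linearCombination R (br : List α → List α → R)) (k.comp (RB R f))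
    (fun c hc => by rw [LinearMap.comp_apply, laz_br c hc f, map_zero]) (LL R α d) (fun x hx => by
      induction hx using Submodule.span_induction with
      | mem x hx =>
        obtain ⟨w, _, rfl⟩ := hx
        exact ⟨Finsupp.single w 1, by rw [Finsupp.linearCombination_single, one_smul]⟩
      | zero => exact ⟨0, map_zero _⟩
      | add a b _ _ ha hb =>
        obtain ⟨c, rfl⟩ := ha
        obtain ⟨d, rfl⟩ := hb
        exact ⟨c + d, map_add _ _ _⟩
      | smul r a _ ha =>
        obtain ⟨c, rfl⟩ := ha
        exact ⟨r • c, map_smul _ _ _⟩)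
  refine ⟨g, fun w h => ?_⟩
  have e : Finsupp.linearCombination R (br : List α → List α → R) (Finsupp.single w 1) = br w := by
    rw [Finsupp.linearCombination_single, one_smul]
  have h1 := hg (Finsupp.single w 1) (by rw [e]; exact ll_mem h)
  rw [LinearMap.comp_apply, RB_single, one_smul] at h1
  rw [← h1]
  exact congrArg g (Subtype.ext e.symm)

end coeff

end H88.S3
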