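import Pool.Agent.H88.S3.Prj

/-!
# [H88 S3 DER] MP_b39724_nt, stage 3: derivations and cocycles of the free Lie algebra

`der_exists`: `F` the free Lie algebra, `chi s : F → B` linear. There is `δ : F → Hom(F, B)` with `δ s = chi s`,
`δ [a,b] c = δ a [b,c] - δ b [a,c]`. `ce_exists`: an alternating cocycle `β : F × F → B` is `Ψ [a,b]`.
`fr`: if `δ a b + δ b a = 0` and `2` is invertible there is `Ψ : F → B` with `Ψ [s,u] = chi s u`.
-/

set_option autoImplicit false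

open scoped Classical

noncomputable section

namespace H88.S3

section der

variable {R Om B : Type} [CommRing R] [AddCommGroup B] [Module R B]

/-- bracket of the extension of `F` by its dual -/
def sdb {F : Type} [LieRing F] [LieAlgebra R F] (x y : F × (F →ₗ[R] B)) : F × (F →ₗ[R] B) :=
  (⁅x.1, y.1⁆, x.2.comp (LieAlgebra.ad R F y.1 : F →ₗ[R] F) - y.2.comp (LieAlgebra.ad R F x.1 : F →ₗ[R] F))

theorem sdb_apply {F : Type} [LieRing F] [LieAlgebra R F] (x y : F × (F →ₗ[R] B)) (c : F) :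
    (sdb x y).2 c = x.2 ⁅y.1, c⁆ - y.2 ⁅x.1, c⁆ := rfl

variable (R B) in
/-- Lie ring structure on the extension of `F` by its dual -/
@[reducible] def sdr (F : Type) [LieRing F] [LieAlgebra R F] : LieRing (F × (F →ₗ[R] B)) where
  bracket := sdb
  add_lie x y z := Prod.ext (add_lie x.1 y.1 z.1) (LinearMap.ext fun c => by
    show (sdb (x + y) z).2 c = (sdb x z).2 c + (sdb y z).2 c
    rw [sdb_apply, sdb_apply, sdb_apply, Prod.fst_add, Prod.snd_add, LinearMap.add_apply, add_lie, map_add]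
    abel)
  lie_add x y z := Prod.ext (lie_add x.1 y.1 z.1) (LinearMap.ext fun c => by
    show (sdb x (y + z)).2 c = (sdb x y).2 c + (sdb x z).2 c
    rw [sdb_apply, sdb_apply, sdb_apply, Prod.fst_add, Prod.snd_add, LinearMap.add_apply, add_lie, map_add]
    abel)
  lie_self x := Prod.ext (lie_self x.1) (LinearMap.ext fun c => by
    show (sdb x x).2 c = 0
    rw [sdb_apply, sub_self])
  leibniz_lie x y z := Prod.ext (leibniz_lie x.1 y.1 z.1) (LinearMap.ext fun c => by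
    show (sdb x (sdb y z)).2 c = (sdb (sdb x y) z).2 c + (sdb y (sdb x z)).2 c
    rw [sdb_apply, sdb_apply, sdb_apply, sdb_apply, sdb_apply, sdb_apply]
    show x.2 ⁅⁅y.1, z.1⁆, c⁆ - (y.2 ⁅z.1, ⁅x.1, c⁆⁆ - z.2 ⁅y.1, ⁅x.1, c⁆⁆) =
      x.2 ⁅y.1, ⁅z.1, c⁆⁆ - y.2 ⁅x.1, ⁅z.1, c⁆⁆ - z.2 ⁅⁅x.1, y.1⁆, c⁆ +
      (y.2 ⁅⁅x.1, z.1⁆, c⁆ - (x.2 ⁅z.1, ⁅y.1, c⁆⁆ - z.2 ⁅x.1, ⁅y.1, c⁆⁆))
    rw [lie_lie y.1 z.1 c, lie_lie x.1 y.1 c, lie_lie x.1 z.1 c, map_sub, map_sub, map_sub]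
    abel)

theorem der_exists (chi : Om → FreeLieAlgebra R Om →ₗ[R] B) :
    ∃ de : FreeLieAlgebra R Om →ₗ[R] FreeLieAlgebra R Om →ₗ[R] B, (∀ s, de (FreeLieAlgebra.of R s) = chi s) ∧
      ∀ a b c, de ⁅a, b⁆ c = de a ⁅b, c⁆ - de b ⁅a, c⁆ := by
  let i1 : LieRing (FreeLieAlgebra R Om × (FreeLieAlgebra R Om →ₗ[R] B)) := sdr R B (FreeLieAlgebra R Om)
  let i2 : LieAlgebra R (FreeLieAlgebra R Om × (FreeLieAlgebra R Om →ₗ[R] B)) := {
    lie_smul := fun t x y => Prod.ext (lie_smul t x.1 y.1) (LinearMap.ext fun c => by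
      show (sdb x (t • y)).2 c = (t • (sdb x y).2) c
      rw [sdb_apply, LinearMap.smul_apply, sdb_apply, Prod.smul_fst, Prod.smul_snd, LinearMap.smul_apply, smul_lie, map_smul,
        smul_sub]) }
  let g : FreeLieAlgebra R Om →ₗ⁅R⁆ (FreeLieAlgebra R Om × (FreeLieAlgebra R Om →ₗ[R] B)) :=
    FreeLieAlgebra.lift R fun s => (FreeLieAlgebra.of R s, chi s)
  let p1 : (FreeLieAlgebra R Om × (FreeLieAlgebra R Om →ₗ[R] B)) →ₗ⁅R⁆ FreeLieAlgebra R Om :=
    { LinearMap.fst R _ _ with map_lie' := rfl }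
  have h1 : p1.comp g = LieHom.id := FreeLieAlgebra.hom_ext fun s => by
    show (g (FreeLieAlgebra.of R s)).1 = FreeLieAlgebra.of R s
    rw [FreeLieAlgebra.lift_of_apply]
  have h2 : ∀ z, (g z).1 = z := fun z =>
    congrArg (fun k : FreeLieAlgebra R Om →ₗ⁅R⁆ FreeLieAlgebra R Om => k z) h1
  refine ⟨{ toFun := fun z => (g z).2, map_add' := fun x y => by rw [map_add]; rfl, map_smul' := fun r x => by rw [map_smul]; rfl },
    fun s => ?_, fun a b c => ?_⟩
  · show (g (FreeLieAlgebra.of R s)).2 = chi s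
    rw [FreeLieAlgebra.lift_of_apply]
  · show (g ⁅a, b⁆).2 c = (g a).2 ⁅b, c⁆ - (g b).2 ⁅a, c⁆
    rw [LieHom.map_lie]
    show (sdb (g a) (g b)).2 c = _
    rw [sdb_apply, h2, h2]

/-- Lie ring structure of the extension given by a cocycle -/
@[reducible] def cer {F : Type} [LieRing F] [LieAlgebra R F] (be : F →ₗ[R] F →ₗ[R] B) (h0 : ∀ a, be a a = 0)
    (h1 : ∀ a b c, be ⁅a, b⁆ c = be a ⁅b, c⁆ - be b ⁅a, c⁆) : LieRing (F × B) where
  bracket x y := (⁅x.1, y.1⁆, be x.1 y.1)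
  add_lie x y z := Prod.ext (add_lie x.1 y.1 z.1) (by
    show be (x.1 + y.1) z.1 = be x.1 z.1 + be y.1 z.1
    rw [map_add, LinearMap.add_apply])
  lie_add x y z := Prod.ext (lie_add x.1 y.1 z.1) (by
    show be x.1 (y.1 + z.1) = be x.1 y.1 + be x.1 z.1
    rw [map_add])
  lie_self x := Prod.ext (lie_self x.1) (h0 x.1)
  leibniz_lie x y z := Prod.ext (leibniz_lie x.1 y.1 z.1) (by
    show be x.1 ⁅y.1, z.1⁆ = be ⁅x.1, y.1⁆ z.1 + be y.1 ⁅x.1, z.1⁆
    rw [h1]; abel)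

theorem ce_exists (be : FreeLieAlgebra R Om →ₗ[R] FreeLieAlgebra R Om →ₗ[R] B) (h0 : ∀ a, be a a = 0)
    (h1 : ∀ a b c, be ⁅a, b⁆ c = be a ⁅b, c⁆ - be b ⁅a, c⁆) : ∃ Ps : FreeLieAlgebra R Om →ₗ[R] B, ∀ a b, Ps ⁅a, b⁆ = be a b := by
  let i1 : LieRing (FreeLieAlgebra R Om × B) := cer be h0 h1
  let i2 : LieAlgebra R (FreeLieAlgebra R Om × B) := {
    lie_smul := fun t x y => Prod.ext (lie_smul t x.1 y.1) (by
      show be x.1 (t • y.1) = t • be x.1 y.1
      rw [map_smul]) }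
  let g : FreeLieAlgebra R Om →ₗ⁅R⁆ (FreeLieAlgebra R Om × B) := FreeLieAlgebra.lift R fun s => (FreeLieAlgebra.of R s, 0)
  let p1 : (FreeLieAlgebra R Om × B) →ₗ⁅R⁆ FreeLieAlgebra R Om := { LinearMap.fst R _ _ with map_lie' := rfl }
  have e1 : p1.comp g = LieHom.id := FreeLieAlgebra.hom_ext fun s => by
    show (g (FreeLieAlgebra.of R s)).1 = FreeLieAlgebra.of R s
    rw [FreeLieAlgebra.lift_of_apply]
  have e2 : ∀ z, (g z).1 = z := fun z =>
    congrArg (fun k : FreeLieAlgebra R Om →ₗ⁅R⁆ FreeLieAlgebra R Om => k z) e1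
  refine ⟨{ toFun := fun z => (g z).2, map_add' := fun x y => by rw [map_add]; rfl, map_smul' := fun r x => by rw [map_smul]; rfl },
    fun a b => ?_⟩
  show (g ⁅a, b⁆).2 = be a b
  rw [LieHom.map_lie]
  show be (g a).1 (g b).1 = be a b
  rw [e2, e2]

theorem fr (h2 : IsUnit (2 : R)) (de : FreeLieAlgebra R Om →ₗ[R] FreeLieAlgebra R Om →ₗ[R] B)
    (h1 : ∀ a b c, de ⁅a, b⁆ c = de a ⁅b, c⁆ - de b ⁅a, c⁆)
    (ha : ∀ u v : List Om, de (rb (FreeLieAlgebra.of R) u) (rb (FreeLieAlgebra.of R) v) +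
      de (rb (FreeLieAlgebra.of R) v) (rb (FreeLieAlgebra.of R) u) = 0) :
    ∃ Ps : FreeLieAlgebra R Om →ₗ[R] B, ∀ a b, Ps ⁅a, b⁆ = de a b := by
  have hs : ∀ a b, de a b + de b a = 0 := by
    intro a b
    have hA := fl_span a
    have hB := fl_span b
    induction hA using Submodule.span_induction with
    | mem a ha' =>
      obtain ⟨u, rfl⟩ := ha'
      induction hB using Submodule.span_induction with
      | mem b hb' =>
        obtain ⟨v, rfl⟩ := hb'
        exact ha u v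
      | zero => rw [map_zero, map_zero, LinearMap.zero_apply, add_zero]
      | add x y _ _ hx hy =>
        rw [map_add, map_add, LinearMap.add_apply, add_add_add_comm, hx, hy, add_zero]
      | smul r x _ hx => rw [map_smul, map_smul, LinearMap.smul_apply, ← smul_add, hx, smul_zero]
    | zero => rw [map_zero, map_zero, LinearMap.zero_apply, add_zero]
    | add x y _ _ hx hy =>
      rw [map_add, map_add, LinearMap.add_apply, add_add_add_comm, hx, hy, add_zero]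
    | smul r x _ hx => rw [map_smul, map_smul, LinearMap.smul_apply, ← smul_add, hx, smul_zero]
  refine ce_exists de (fun a => ?_) h1
  have h3 := hs a a
  rw [← two_smul R] at h3
  obtain ⟨t, ht⟩ := h2.exists_left_inv
  rw [← one_smul R (de a a), ← ht, mul_smul, h3, smul_zero]

end der

end H88.S3
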