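import Pool.Agent.H88.S3.Unl

/-!
# [H88 S3 GEV] MP_b39724_nt, stage 3 and UBX: brackets of words and commutators in a filtered group

`P` a group with a filtration `f` (`H62.BL.Fl`), `LF f d φ`: `φ : P → R` is additive on `f d` and `0` on `f (d + 1)`. Letters `α` with values
`g a ∈ f 1`, `rn` the right normed commutator, `rz w z = [w_1, [w_2, .. [w_d, z]]]`.
`hw`: `φ [[a,r],z] = φ [a,[r,z]] - φ [r,[a,z]]`. `adj`: `φ [rn W, z] = ∑_t (br W)(t) φ (rz t z)`.
`ml`: `W` without repeated index and with the index `i0`: `φ (rn W) = ∑ (br W)(t) φ (rn t)` over the words `t` whose last index is `i0`.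
-/

set_option autoImplicit false

open scoped Classical

noncomputable section

namespace H88.S3

open H62.BL

section lf

variable {P R : Type} [Group P] [CommRing R] {f : ℕ → Subgroup P}

/-- functionals of a layer -/
def LF (f : ℕ → Subgroup P) (d : ℕ) (φ : P → R) : Prop :=
  (∀ x ∈ f d, ∀ y ∈ f d, φ (x * y) = φ x + φ y) ∧ ∀ x ∈ f (d + 1), φ x = 0

theorem fl_le (hF : Fl f) {i j : ℕ} (h : i ≤ j) : f j ≤ f i := by
  induction h with
  | refl => exact le_rfl
  | step _ ih => exact (hF.anti _).trans ih

theorem fl_conj (hF : Fl f) {i : ℕ} (g : P) {x : P} (hx : x ∈ f i) : g * x * g⁻¹ ∈ f i := by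
  have h1 := hF.com 0 i g (by rw [hF.top]; trivial) x hx
  rw [zero_add] at h1
  have := mul_mem h1 hx
  rwa [inv_mul_cancel_right] at this

variable {d : ℕ} {φ : P → R}

theorem lf_one (h : LF f d φ) : φ 1 = 0 := h.2 1 (one_mem _)

theorem lf_inv (h : LF f d φ) {x : P} (hx : x ∈ f d) : φ x⁻¹ = - φ x := by
  have := h.1 x hx x⁻¹ (inv_mem hx)
  rw [mul_inv_cancel, lf_one h] at this
  exact (neg_eq_of_add_eq_zero_right this.symm).symm

theorem lf_conj (hF : Fl f) (h : LF f d φ) {g x : P} (hg : g ∈ f 1) (hx : x ∈ f d) : φ (g * x * g⁻¹) = φ x := by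
  have h1 : g * x * g⁻¹ = g * x * g⁻¹ * x⁻¹ * x := by group
  have h2 : g * x * g⁻¹ * x⁻¹ ∈ f (d + 1) := by
    rw [add_comm]
    exact hF.com 1 d g hg x hx
  rw [h1, h.1 _ (hF.anti d h2) x hx, h.2 _ h2, zero_add]

theorem lf_com (hF : Fl f) {i j : ℕ} (hj : 1 ≤ j) {a : P} (ha : a ∈ f i) (h : LF f (i + j) φ) :
    LF f j (fun y => φ (a * y * a⁻¹ * y⁻¹)) := by
  refine ⟨fun x hx y hy => ?_, fun x hx => h.2 _ (hF.com i (j + 1) a ha x hx)⟩
  have e : a * (x * y) * a⁻¹ * (x * y)⁻¹ = (a * x * a⁻¹ * x⁻¹) * (x * (a * y * a⁻¹ * y⁻¹) * x⁻¹) := by group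
  have h1 := hF.com i j a ha x hx
  have h2 := hF.com i j a ha y hy
  show φ (a * (x * y) * a⁻¹ * (x * y)⁻¹) = _
  rw [e, h.1 _ h1 _ (fl_conj hF x h2), lf_conj hF h (fl_le hF hj hx) h2]

/-- Jacobi identity -/
theorem hw (hF : Fl f) {i j k : ℕ} (hi : 1 ≤ i) (hj : 1 ≤ j) (hk : 1 ≤ k) {a r z : P} (ha : a ∈ f i) (hr : r ∈ f j) (hz : z ∈ f k)
    (h : LF f (i + j + k) φ) :
    φ ((a * r * a⁻¹ * r⁻¹) * z * (a * r * a⁻¹ * r⁻¹)⁻¹ * z⁻¹) =
      φ (a * (r * z * r⁻¹ * z⁻¹) * a⁻¹ * (r * z * r⁻¹ * z⁻¹)⁻¹) - φ (r * (a * z * a⁻¹ * z⁻¹) * r⁻¹ * (a * z * a⁻¹ * z⁻¹)⁻¹) := by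
  set c := a * r * a⁻¹ * r⁻¹ with hc
  set u := r * z * r⁻¹ * z⁻¹ with hu
  set v := a * z * a⁻¹ * z⁻¹ with hv
  set U := a * u * a⁻¹ * u⁻¹ with hU
  set V := r * v * r⁻¹ * v⁻¹ with hV
  set W := c * z * c⁻¹ * z⁻¹ with hW
  have mc : c ∈ f (i + j) := hF.com i j a ha r hr
  have mu : u ∈ f (j + k) := hF.com j k r hr z hz
  have mv : v ∈ f (i + k) := hF.com i k a ha z hz
  have mU : U ∈ f (i + j + k) := by
    have := hF.com i (j + k) a ha u mu
    rwa [← add_assoc] at this
  have mV : V ∈ f (i + j + k) := by
    have := hF.com j (i + k) r hr v mv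
    rwa [show j + (i + k) = i + j + k by omega] at this
  have mW : W ∈ f (i + j + k) := hF.com (i + j) k c mc z hz
  have mvu1 : v * u ∈ f 1 := mul_mem (fl_le hF (by omega) mv) (fl_le hF (by omega) mu)
  have mvu : v * u ∈ f (k + 1) := mul_mem (fl_le hF (by omega) mv) (fl_le hF (by omega) mu)
  -- the exact identity
  have key : U * (u * v * u⁻¹ * v⁻¹) = (c * V * c⁻¹) * (c * (v * u) * c⁻¹ * (v * u)⁻¹) * ((v * u) * W * (v * u)⁻¹) := by
    rw [hU, hV, hW, hu, hv, hc]
    group
  have m1 : u * v * u⁻¹ * v⁻¹ ∈ f (i + j + k + 1) := fl_le hF (by omega) (hF.com (j + k) (i + k) u mu v mv)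
  have m2 : c * (v * u) * c⁻¹ * (v * u)⁻¹ ∈ f (i + j + k + 1) := by
    have := hF.com (i + j) (k + 1) c mc (v * u) mvu
    rwa [← add_assoc] at this
  have e1 := congrArg φ key
  rw [h.1 _ mU _ (hF.anti _ m1), h.2 _ m1, add_zero,
    h.1 _ (mul_mem (fl_conj hF c mV) (hF.anti _ m2)) _ (fl_conj hF _ mW), h.1 _ (fl_conj hF c mV) _ (hF.anti _ m2), h.2 _ m2, add_zero,
    lf_conj hF h (fl_le hF (by omega) mc) mV, lf_conj hF h mvu1 mW] at e1
  rw [e1]
  ring

end lf

section words

variable {P R α : Type} [Group P] [CommRing R] [Fintype α] {f : ℕ → Subgroup P}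

/-- sum over the words of length `d` -/
def sw (d : ℕ) (F : List α → R) : R := ∑ t : Fin d → α, F (List.ofFn t)

theorem sw_cons (d : ℕ) (F : List α → R) : sw (d + 1) F = ∑ a : α, sw d (fun w => F (a :: w)) := by
  rw [sw, ← (Fin.consEquiv fun _ : Fin (d + 1) => α).sum_comp, Fintype.sum_prod_type]
  refine Finset.sum_congr rfl fun a _ => Finset.sum_congr rfl fun t _ => ?_
  congr 1
  exact List.ofFn_cons a t

omit [Fintype α] in
theorem ofFn_snoc (d : ℕ) (t : Fin d → α) (a : α) :
    List.ofFn (Fin.snoc (α := fun _ => α) t a : Fin (d + 1) → α) = List.ofFn t ++ [a] := by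
  rw [List.ofFn_succ', List.concat_eq_append]
  congr 1
  · congr 1
    exact funext fun i => Fin.snoc_castSucc _ _ _
  · rw [Fin.snoc_last]

theorem sw_snoc (d : ℕ) (F : List α → R) : sw (d + 1) F = ∑ a : α, sw d (fun w => F (w ++ [a])) := by
  rw [sw, ← (Fin.snocEquiv fun _ : Fin (d + 1) => α).sum_comp, Fintype.sum_prod_type]
  refine Finset.sum_congr rfl fun a _ => Finset.sum_congr rfl fun t _ => ?_
  congr 1
  exact ofFn_snoc d t a

theorem sw_sub (d : ℕ) (F G : List α → R) : sw d (fun w => F w - G w) = sw d F - sw d G := Finset.sum_sub_distrib _ _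

/-- words which begin with `x` -/
theorem sw_left (d : ℕ) (x : α) (y F : List α → R) :
    sw (d + 1) (fun w => cv (el x) y w * F w) = sw d (fun w => y w * F (x :: w)) := by
  rw [sw_cons, Finset.sum_eq_single x]
  · refine Finset.sum_congr rfl fun t _ => ?_
    show cv (el x) y (x :: List.ofFn t) * _ = _
    rw [cv_el_left]
    simp
  · intro b _ hb
    refine Finset.sum_eq_zero fun t _ => ?_
    show cv (el x) y (b :: List.ofFn t) * _ = 0
    rw [cv_el_left]
    simp [hb]
  · intro h
    exact absurd (Finset.mem_univ x) h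

/-- words which end in `x` -/
theorem sw_right (d : ℕ) (x : α) (y F : List α → R) :
    sw (d + 1) (fun w => cv y (el x) w * F w) = sw d (fun w => y w * F (w ++ [x])) := by
  rw [sw_snoc, Finset.sum_eq_single x]
  · refine Finset.sum_congr rfl fun t _ => ?_
    show cv y (el x) (List.ofFn t ++ [x]) * _ = _
    rw [cv_el_right x y _ _ rfl]
  · intro b _ hb
    refine Finset.sum_eq_zero fun t _ => ?_
    show cv y (el x) (List.ofFn t ++ [b]) * _ = 0
    rw [cv_el_right' x y _ fun v hv => hb ?_, zero_mul]
    have := congrArg List.getLast? hv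
    simpa using this
  · intro h
    exact absurd (Finset.mem_univ x) h

theorem sw_br (d : ℕ) (x : α) {W : List α} (hW : W ≠ []) (F : List α → R) :
    sw (d + 1) (fun w => br (x :: W) w * F w) = sw d (fun w => br W w * F (x :: w)) - sw d (fun w => br W w * F (w ++ [x])) := by
  rw [← sw_left, ← sw_right, ← sw_sub]
  refine Finset.sum_congr rfl fun t _ => ?_
  show br (x :: W) (List.ofFn t) * _ = _
  rw [br_cons x hW, Pi.sub_apply]
  ring

/-- iterated commutator -/
def rz (g : α → P) (w : List α) (z : P) : P := w.foldr (fun a y => g a * y * (g a)⁻¹ * y⁻¹) z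

omit [Fintype α] in
theorem rn_cons (g : α → P) (a : α) {w : List α} (h : w ≠ []) :
    rn ((a :: w).map g) = g a * rn (w.map g) * (g a)⁻¹ * (rn (w.map g))⁻¹ := by
  cases w with
  | nil => exact absurd rfl h
  | cons b w => rfl

omit [Fintype α] in
theorem rn_snoc (g : α → P) (w : List α) (a : α) : rn ((w ++ [a]).map g) = rz g w (g a) := by
  induction w with
  | nil => rfl
  | cons b w ih =>
    rw [List.cons_append, rn_cons g b (by simp), ih]
    rfl

omit [Fintype α] in
theorem rn_mem (hF : Fl f) {g : α → P} (hg : ∀ a, g a ∈ f 1) {w : List α} (h : w ≠ []) : rn (w.map g) ∈ f w.length := by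
  induction w with
  | nil => exact absurd rfl h
  | cons a w ih =>
    by_cases hw' : w = []
    · subst hw'; exact hg a
    · rw [rn_cons g a hw', List.length_cons, add_comm]
      exact hF.com 1 w.length _ (hg a) _ (ih hw')

omit [Fintype α] in
theorem cv_perm {l l' : List α} {y z : List α → R} (hy : ∀ w, y w ≠ 0 → w.Perm l) (hz : ∀ w, z w ≠ 0 → w.Perm l') (w : List α)
    (h : cv y z w ≠ 0) : w.Perm (l ++ l') := by
  rw [cv_eq] at h
  obtain ⟨i, _, hi⟩ := Finset.exists_ne_zero_of_sum_ne_zero h
  have h1 := hy _ (left_ne_zero_of_mul hi)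
  have h2 := hz _ (right_ne_zero_of_mul hi)
  rw [← List.take_append_drop i w]
  exact h1.append h2

omit [Fintype α] in
theorem br_perm (W v : List α) (h : (br W : List α → R) v ≠ 0) : v.Perm W := by
  induction W generalizing v with
  | nil => exact absurd rfl h
  | cons a W ih =>
    have he : ∀ u : List α, (el a : List α → R) u ≠ 0 → u.Perm [a] := fun u hu => by
      rw [el] at hu
      split_ifs at hu with h2
      · rw [h2]
      · exact absurd rfl hu
    by_cases h' : W = []
    · subst h'
      exact he v h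
    · rw [br_cons a h', Pi.sub_apply] at h
      by_cases h1 : cv (el a : List α → R) (br W) v = 0
      · rw [h1, zero_sub, neg_ne_zero] at h
        exact (cv_perm ih he v h).trans (List.perm_append_singleton a W)
      · exact cv_perm he ih v h1

/-- the adjoint expansion -/
theorem adj (hF : Fl f) {g : α → P} (hg : ∀ a, g a ∈ f 1) (W : List α) : W ≠ [] → ∀ (j : ℕ), 1 ≤ j → ∀ z ∈ f j, ∀ φ : P → R,
    LF f (W.length + j) φ →
    φ (rn (W.map g) * z * (rn (W.map g))⁻¹ * z⁻¹) = sw W.length (fun w => br W w * φ (rz g w z)) := by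
  induction W with
  | nil => intro h; exact absurd rfl h
  | cons a W ih =>
    intro _ j hj z hz φ hφ
    by_cases hW : W = []
    · subst hW
      rw [sw, List.length_singleton]
      rw [Fintype.sum_eq_single (fun _ => a)]
      · have : (List.ofFn fun _ : Fin 1 => a) = [a] := rfl
        rw [this]
        show _ = el a [a] * φ (rz g [a] z)
        rw [el, if_pos rfl, one_mul]
        rfl
      · intro t ht
        have : List.ofFn t ≠ [a] := fun h => ht (by
          funext i
          have h2 : i = 0 := Subsingleton.elim _ _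
          subst h2
          simpa using h)
        show el a (List.ofFn t) * _ = 0
        rw [el, if_neg this, zero_mul]
    · have hWl : 1 ≤ W.length := List.length_pos_iff.2 hW
      have hr := rn_mem hF hg hW
      rw [List.length_cons] at hφ ⊢
      have h1 : LF f (1 + W.length + j) φ := by rwa [add_comm 1]
      have h2 : LF f (W.length + (1 + j)) φ := by rwa [← add_assoc]
      have h3 : LF f (1 + (W.length + j)) φ := by rwa [← add_assoc]
      have ha : g a * z * (g a)⁻¹ * z⁻¹ ∈ f (1 + j) := hF.com 1 j _ (hg a) _ hz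
      rw [rn_cons g a hW, hw hF le_rfl hWl hj (hg a) hr hz h1, sw_br _ a hW]
      congr 1
      · exact ih hW j hj z hz _ (lf_com hF (by omega) (hg a) h3)
      · rw [ih hW (1 + j) (by omega) _ ha φ h2]
        refine Finset.sum_congr rfl fun t _ => ?_
        show _ * φ (rz g _ _) = _ * φ (rz g (_ ++ [a]) z)
        rw [rz, rz, List.foldr_append]
        rfl

/-- the multilinear expansion with a fixed last index -/
theorem ml {I : Type} [DecidableEq I] (ix : α → I) (i0 : I) (hF : Fl f) {g : α → P} (hg : ∀ a, g a ∈ f 1) (W : List α) (hnd : (W.map ix).Nodup)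
    (h0 : i0 ∈ W.map ix) : ∀ φ : P → R, LF f W.length φ →
    φ (rn (W.map g)) = sw W.length (fun w => br W w * if (w.map ix).getLast? = some i0 then φ (rn (w.map g)) else 0) := by
  induction W with
  | nil => simp at h0
  | cons a W ih =>
    intro φ hφ
    have hnd' : (W.map ix).Nodup := (List.nodup_cons.1 hnd).2
    have hna : ix a ∉ W.map ix := (List.nodup_cons.1 hnd).1
    by_cases hW : W = []
    · subst hW
      have h0' : i0 = ix a := by simpa using h0
      subst h0'
      rw [sw, List.length_singleton]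
      rw [Fintype.sum_eq_single (fun _ => a)]
      · have : (List.ofFn fun _ : Fin 1 => a) = [a] := rfl
        rw [this]
        show _ = el a [a] * if ([a].map ix).getLast? = some (ix a) then φ (rn ([a].map g)) else 0
        rw [el, if_pos rfl, one_mul, if_pos (by simp)]
      · intro t ht
        have : List.ofFn t ≠ [a] := fun h => ht (by
          funext i
          have h2 : i = 0 := Subsingleton.elim _ _
          subst h2
          simpa using h)
        show el a (List.ofFn t) * _ = 0
        rw [el, if_neg this, zero_mul]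
    · have hWl : 1 ≤ W.length := List.length_pos_iff.2 hW
      have hr := rn_mem hF hg hW
      rw [List.length_cons] at hφ ⊢
      rw [sw_br _ a hW, rn_cons g a hW]
      have h3 : LF f (1 + W.length) φ := by rwa [add_comm 1]
      by_cases hia : ix a = i0
      · -- the first letter has the index `i0`
        have e1 : sw W.length (fun w => br W w * if ((a :: w).map ix).getLast? = some i0 then φ (rn ((a :: w).map g)) else 0) = 0 := by
          refine Finset.sum_eq_zero fun t _ => ?_
          show br W (List.ofFn t) * (if ((a :: List.ofFn t).map ix).getLast? = some i0 then φ (rn ((a :: List.ofFn t).map g)) else 0) = 0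
          by_cases hb : (br W (List.ofFn t) : R) = 0
          · rw [hb, zero_mul]
          · have hp := br_perm W (List.ofFn t) hb
            have ht0 : List.ofFn t ≠ [] := fun h => by
              rw [h] at hp
              exact hW hp.symm.eq_nil
            rw [if_neg, mul_zero]
            intro hl
            rw [List.map_cons, List.getLast?_cons_of_ne_nil (by simpa using ht0), List.getLast?_eq_some_iff] at hl
            obtain ⟨ys, hys⟩ := hl
            have : i0 ∈ (List.ofFn t).map ix := by rw [hys]; simp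
            obtain ⟨b, hb1, hb2⟩ := List.mem_map.1 this
            exact hna (by rw [hia, ← hb2]; exact List.mem_map_of_mem (hp.mem_iff.1 hb1))
        rw [e1, zero_sub]
        have h2 : LF f (W.length + 1) φ := hφ
        have e2 := adj hF hg W hW 1 le_rfl (g a) (hg a) φ h2
        have e3 : φ (g a * rn (W.map g) * (g a)⁻¹ * (rn (W.map g))⁻¹) =
            - φ (rn (W.map g) * g a * (rn (W.map g))⁻¹ * (g a)⁻¹) := by
          rw [← lf_inv h3]
          · congr 1; group
          · rw [add_comm]; exact hF.com _ 1 _ hr _ (hg a)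
        rw [e3, e2]
        congr 1
        refine Finset.sum_congr rfl fun t _ => ?_
        show _ = _ * if ((List.ofFn t ++ [a]).map ix).getLast? = some i0 then φ (rn ((List.ofFn t ++ [a]).map g)) else 0
        rw [if_pos (by simp [hia]), rn_snoc]
      · -- the index `i0` is in `W`
        have h0' : i0 ∈ W.map ix := by
          rcases List.mem_cons.1 h0 with h | h
          · exact absurd h.symm hia
          · exact h
        have e1 : sw W.length (fun w => br W w * if ((w ++ [a]).map ix).getLast? = some i0 then φ (rn ((w ++ [a]).map g)) else 0) = 0 := by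
          refine Finset.sum_eq_zero fun t _ => ?_
          show _ * (if ((List.ofFn t ++ [a]).map ix).getLast? = some i0 then φ (rn ((List.ofFn t ++ [a]).map g)) else 0) = 0
          rw [if_neg (by simp [hia]), mul_zero]
        rw [e1, sub_zero, ih hnd' h0' (fun y => φ (g a * y * (g a)⁻¹ * y⁻¹)) (lf_com hF hWl (hg a) h3)]
        refine Finset.sum_congr rfl fun t _ => ?_
        show _ * (if ((List.ofFn t).map ix).getLast? = some i0 then _ else 0) =
          _ * (if ((a :: List.ofFn t).map ix).getLast? = some i0 then _ else 0)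
        by_cases ht0 : List.ofFn t = []
        · exfalso
          have := congrArg List.length ht0
          rw [List.length_ofFn, List.length_nil] at this
          omega
        · rw [List.map_cons, List.getLast?_cons_of_ne_nil (by simpa using ht0)]
          split_ifs
          · rw [List.map_cons, ← List.map_cons, rn_cons g a ht0]
          · rfl

end words

end H88.S3
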