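import Mathlib

/-!
# [H88 S3 LAZ] MP_b39724_nt, stage 3: the free Lie algebra inside the free associative algebra, any coefficients

`rb f w`: the right normed bracket of the letters `f x`, `x` in the word `w`. `laz`: `R` any commutative ring. A linear relation between
right normed brackets which holds in the free associative algebra `FreeAlgebra R α` holds in every Lie algebra over `R`.
Proof: Lazard elimination. Induction on the length of the words and on the number of letters: with `a` a letter, the words which contain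
`a` are combinations of brackets in the letters `ad(a)^n y`, `y ≠ a`, of smaller length (`Ew`), and `FreeAlgebra R α` acts on
`FreeAlgebra R (α × ℕ)`: `a` by the derivation `(y, n) → (y, n + 1)`, `y` by the left multiplication by `(y, 0)`.
-/

set_option autoImplicit false

open scoped Classical

noncomputable section

namespace H88.S3

/-- right normed bracket -/
def rb {α L : Type*} [LieRing L] (f : α → L) : List α → L
  | [] => 0
  | [x] => f x
  | x :: y :: w => ⁅f x, rb f (y :: w)⁆

section basic

variable {α L L' R : Type*} [LieRing L] [LieRing L'] [CommRing R] [LieAlgebra R L] [LieAlgebra R L']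

theorem rb_cons (f : α → L) (x : α) {w : List α} (h : w ≠ []) : rb f (x :: w) = ⁅f x, rb f w⁆ := by
  cases w with
  | nil => exact absurd rfl h
  | cons y w => rfl

theorem rb_map (g : L →ₗ⁅R⁆ L') (f : α → L) (w : List α) : g (rb f w) = rb (fun x => g (f x)) w := by
  induction w with
  | nil => exact map_zero g
  | cons x w ih =>
    by_cases h : w = []
    · subst h; rfl
    · rw [rb_cons f x h, rb_cons _ x h, LieHom.map_lie, ih]

theorem rb_zero {f : α → L} {w : List α} {a : α} (ha : a ∈ w) (hf : f a = 0) : rb f w = 0 := by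
  induction w with
  | nil => simp at ha
  | cons x w ih =>
    by_cases h : w = []
    · subst h
      rw [List.mem_singleton] at ha
      subst ha
      exact hf
    · rw [rb_cons f x h]
      rcases List.mem_cons.1 ha with rfl | h'
      · rw [hf, zero_lie]
      · rw [ih h', lie_zero]

theorem rb_congr {f g : α → L} {w : List α} (h : ∀ x ∈ w, f x = g x) : rb f w = rb g w := by
  induction w with
  | nil => rfl
  | cons x w ih =>
    by_cases h' : w = []
    · subst h'; exact h x (by simp)
    · rw [rb_cons f x h', rb_cons g x h', h x (by simp), ih fun y hy => h y (List.mem_cons_of_mem _ hy)]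

variable (R) in
/-- linear combinations of right normed brackets -/
def RB (f : α → L) : (List α →₀ R) →ₗ[R] L := Finsupp.linearCombination R (rb f)

theorem RB_single (f : α → L) (w : List α) (r : R) : RB R f (Finsupp.single w r) = r • rb f w :=
  Finsupp.linearCombination_single R r w

theorem RB_map (g : L →ₗ⁅R⁆ L') (f : α → L) (c : List α →₀ R) : g (RB R f c) = RB R (fun x => g (f x)) c := by
  induction c using Finsupp.induction_linear with
  | zero => rw [map_zero, map_zero, map_zero]
  | add c c' h h' => rw [map_add, map_add, map_add, h, h']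
  | single w r => rw [RB_single, RB_single, map_smul, rb_map]

theorem RB_congr {f : α → L} {g : α → L'} {k : L →ₗ[R] L'} {c : List α →₀ R} (h : ∀ w ∈ c.support, k (rb f w) = rb g w) :
    k (RB R f c) = RB R g c := by
  rw [RB, RB, Finsupp.linearCombination_apply, Finsupp.linearCombination_apply, Finsupp.sum, Finsupp.sum, map_sum]
  exact Finset.sum_congr rfl fun w hw => by rw [map_smul, h w hw]

end basic

section elim

variable {R : Type*} [CommRing R] {α : Type*}

/-- `x` in front of a nonempty word -/
def CN {β : Type*} (x : β) : (List β →₀ R) →ₗ[R] (List β →₀ R) :=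
  Finsupp.linearCombination R fun v => if v = [] then 0 else Finsupp.single (x :: v) 1

theorem RB_CN {β L : Type*} [LieRing L] [LieAlgebra R L] (f : β → L) (x : β) (c : List β →₀ R) :
    RB R f (CN x c) = ⁅f x, RB R f c⁆ := by
  induction c using Finsupp.induction_linear with
  | zero => rw [map_zero, map_zero, lie_zero]
  | add c c' h h' => rw [map_add, map_add, map_add, h, h', lie_add]
  | single w r =>
    rw [CN, Finsupp.linearCombination_single, RB_single, map_smul, lie_smul]
    congr 1
    split_ifs with h
    · subst h; rw [map_zero]; exact (lie_zero _).symm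
    · rw [RB_single, one_smul, rb_cons f x h]

/-- the derivation `(y, n) → (y, n + 1)` on words -/
def Dw : List (α × ℕ) → (List (α × ℕ) →₀ R)
  | [] => 0
  | x :: v => Finsupp.single ((x.1, x.2 + 1) :: v) 1 + CN x (Dw v)

/-- its linear extension -/
def DL : (List (α × ℕ) →₀ R) →ₗ[R] (List (α × ℕ) →₀ R) := Finsupp.linearCombination R Dw

/-- the letters `ad(f a)^n (f y)` -/
def fa {L : Type*} [LieRing L] (f : α → L) (a : α) : α × ℕ → L := fun x => (fun z => ⁅f a, z⁆)^[x.2] (f x.1)

theorem fa_zero {L : Type*} [LieRing L] (f : α → L) (a y : α) : fa f a (y, 0) = f y := rfl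

theorem fa_succ {L : Type*} [LieRing L] (f : α → L) (a y : α) (n : ℕ) : fa f a (y, n + 1) = ⁅f a, fa f a (y, n)⁆ := by
  rw [fa, fa]
  exact Function.iterate_succ_apply' _ _ _

theorem RB_Dw {L : Type*} [LieRing L] [LieAlgebra R L] (f : α → L) (a : α) (w : List (α × ℕ)) :
    RB R (fa f a) (Dw w) = ⁅f a, rb (fa f a) w⁆ := by
  induction w with
  | nil => rw [Dw, map_zero]; exact (lie_zero _).symm
  | cons x v ih =>
    rw [Dw, map_add, RB_single, one_smul, RB_CN, ih]
    by_cases h : v = []
    · subst h
      have h1 : rb (fa f a) ([] : List (α × ℕ)) = 0 := rfl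
      rw [h1, lie_zero, lie_zero, add_zero]
      exact fa_succ f a x.1 x.2
    · rw [rb_cons _ _ h, rb_cons _ _ h, fa_succ, leibniz_lie (f a)]

theorem RB_DL {L : Type*} [LieRing L] [LieAlgebra R L] (f : α → L) (a : α) (c : List (α × ℕ) →₀ R) :
    RB R (fa f a) (DL c) = ⁅f a, RB R (fa f a) c⁆ := by
  induction c using Finsupp.induction_linear with
  | zero => rw [map_zero, map_zero, lie_zero]
  | add c c' h h' => rw [map_add, map_add, map_add, h, h', lie_add]
  | single w r => rw [DL, Finsupp.linearCombination_single, RB_single, map_smul, lie_smul, RB_Dw]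

/-- elimination of the letter `a` from a word -/
def Ew (a : α) : List α → (List (α × ℕ) →₀ R)
  | [] => 0
  | x :: v => if v = [] then (if x = a then 0 else Finsupp.single [(x, 0)] 1) else
      if v = [a] then (if x = a then 0 else - Finsupp.single [(x, 1)] 1) else
      if x = a then DL (Ew a v) else CN (x, 0) (Ew a v)

theorem RB_Ew {L : Type*} [LieRing L] [LieAlgebra R L] (f : α → L) (a : α) (w : List α) (hw : w ≠ [a]) :
    RB R (fa f a) (Ew a w) = rb f w := by
  induction w with
  | nil => rw [Ew, map_zero]; rfl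
  | cons x v ih =>
    rw [Ew]
    split_ifs with h1 h2 h3 h4 h5
    · subst h1; subst h2; exact absurd rfl hw
    · subst h1; rw [RB_single, one_smul]; rfl
    · subst h3; subst h4; rw [map_zero]; exact (lie_self _).symm
    · subst h3
      rw [map_neg, RB_single, one_smul]
      show -(fa f a (x, 0 + 1)) = ⁅f x, f a⁆
      rw [fa_succ, fa_zero, lie_skew]
    · subst h5; rw [RB_DL, ih h3, rb_cons _ _ h1]
    · rw [RB_CN, ih h3, rb_cons _ _ h1]; rfl


/-- combinations of words of length `≤ k` without the letters `(a, n)` -/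
def SP (R : Type*) [CommRing R] {α : Type*} (a : α) (k : ℕ) : Submodule R (List (α × ℕ) →₀ R) :=
  Finsupp.supported R R {v | v.length ≤ k ∧ ∀ x ∈ v, x.1 ≠ a}

theorem sp_single {a : α} {k : ℕ} {v : List (α × ℕ)} (h1 : v.length ≤ k) (h2 : ∀ x ∈ v, x.1 ≠ a) (r : R) :
    Finsupp.single v r ∈ SP R a k := Finsupp.single_mem_supported R r ⟨h1, h2⟩

theorem sp_mono {a : α} {k l : ℕ} (h : k ≤ l) : SP R a k ≤ SP R a l :=
  Finsupp.supported_mono fun _ hv => ⟨hv.1.trans h, hv.2⟩

theorem sp_lc {a : α} {k l : ℕ} (F : List (α × ℕ) → (List (α × ℕ) →₀ R))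
    (hF : ∀ v : List (α × ℕ), v.length ≤ k → (∀ x ∈ v, x.1 ≠ a) → F v ∈ SP R a l) {c : List (α × ℕ) →₀ R} (hc : c ∈ SP R a k) :
    Finsupp.linearCombination R F c ∈ SP R a l := by
  rw [Finsupp.linearCombination_apply, Finsupp.sum]
  refine Submodule.sum_mem _ fun v hv => Submodule.smul_mem _ _ ?_
  have h := (Finsupp.mem_supported R c).1 hc hv
  exact hF v h.1 h.2

theorem sp_CN {a : α} {k : ℕ} {x : α × ℕ} (hx : x.1 ≠ a) {c : List (α × ℕ) →₀ R} (hc : c ∈ SP R a k) :
    CN x c ∈ SP R a (k + 1) := by
  refine sp_lc _ (fun v h1 h2 => ?_) hc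
  split_ifs
  · exact Submodule.zero_mem _
  · exact sp_single (by rw [List.length_cons]; omega) (fun y hy => by
      rcases List.mem_cons.1 hy with rfl | h
      · exact hx
      · exact h2 y h) 1

theorem sp_Dw {a : α} {v : List (α × ℕ)} (h2 : ∀ x ∈ v, x.1 ≠ a) : (Dw v : List (α × ℕ) →₀ R) ∈ SP R a v.length := by
  induction v with
  | nil => exact Submodule.zero_mem _
  | cons x v ih =>
    rw [Dw]
    refine Submodule.add_mem _ (sp_single le_rfl (fun y hy => ?_) 1) ?_
    · rcases List.mem_cons.1 hy with rfl | h
      · exact h2 x (by simp)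
      · exact h2 y (List.mem_cons_of_mem _ h)
    · exact sp_CN (h2 x (by simp)) (ih fun y hy => h2 y (List.mem_cons_of_mem _ hy))

theorem sp_DL {a : α} {k : ℕ} {c : List (α × ℕ) →₀ R} (hc : c ∈ SP R a k) : DL c ∈ SP R a k :=
  sp_lc _ (fun _ h1 h2 => sp_mono h1 (sp_Dw h2)) hc

theorem sp_Ew (a : α) (w : List α) : (Ew a w : List (α × ℕ) →₀ R) ∈ SP R a (w.length - w.count a) := by
  induction w with
  | nil => exact Submodule.zero_mem _
  | cons x v ih =>
    have hc := List.count_le_length (a := a) (l := v)
    rw [Ew]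
    split_ifs with h1 h2 h3 h4 h5
    · exact Submodule.zero_mem _
    · subst h1
      refine sp_single ?_ (by simpa using h2) 1
      rw [List.count_cons_of_ne h2]
      simp
    · exact Submodule.zero_mem _
    · subst h3
      refine Submodule.neg_mem _ (sp_single ?_ (by simpa using h4) 1)
      rw [List.count_cons_of_ne h4]
      simp
    · subst h5
      rw [List.count_cons_self, List.length_cons]
      have h := sp_DL ih
      rwa [show v.length + 1 - (v.count x + 1) = v.length - v.count x by omega]
    · rw [List.count_cons_of_ne h5, List.length_cons]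
      refine sp_mono (by omega) (sp_CN (x := (x, 0)) h5 ih)

end elim

section rep

attribute [local instance 100] LieRing.ofAssociativeRing

variable (R : Type*) [CommRing R] (α : Type*)

/-- the derivation `(y, n) → (y, n + 1)`, as a homomorphism to dual numbers -/
def dh : FreeAlgebra R (α × ℕ) →ₐ[R] TrivSqZeroExt (FreeAlgebra R (α × ℕ)) (FreeAlgebra R (α × ℕ)) :=
  FreeAlgebra.lift R fun x => TrivSqZeroExt.inl (FreeAlgebra.ι R x) + TrivSqZeroExt.inr (FreeAlgebra.ι R (x.1, x.2 + 1))

theorem dh_fst (z : FreeAlgebra R (α × ℕ)) : (dh R α z).fst = z := by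
  have h : (TrivSqZeroExt.fstHom R (FreeAlgebra R (α × ℕ)) (FreeAlgebra R (α × ℕ))).comp (dh R α) = AlgHom.id R _ := by
    ext x
    simp [dh]
  exact congrArg (fun f => f z) h

/-- the derivation -/
def DB : FreeAlgebra R (α × ℕ) →ₗ[R] FreeAlgebra R (α × ℕ) where
  toFun z := (dh R α z).snd
  map_add' x y := by rw [map_add, TrivSqZeroExt.snd_add]
  map_smul' r x := by rw [map_smul, TrivSqZeroExt.snd_smul, RingHom.id_apply]

variable {R α}

theorem DB_apply (z : FreeAlgebra R (α × ℕ)) : DB R α z = (dh R α z).snd := rfl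

theorem DB_iota (y : α) (n : ℕ) : DB R α (FreeAlgebra.ι R (y, n)) = FreeAlgebra.ι R (y, n + 1) := by
  rw [DB_apply, dh, FreeAlgebra.lift_ι_apply]
  simp

theorem DB_mul (x y : FreeAlgebra R (α × ℕ)) : DB R α (x * y) = x * DB R α y + DB R α x * y := by
  rw [DB_apply, map_mul, TrivSqZeroExt.snd_mul, dh_fst, dh_fst]
  rfl

theorem DB_one : DB R α 1 = 0 := by
  rw [DB_apply, map_one, TrivSqZeroExt.snd_one]

/-- the action of the free algebra on the free algebra of the eliminated letters -/
def rho (a : α) : FreeAlgebra R α →ₐ[R] Module.End R (FreeAlgebra R (α × ℕ)) :=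
  FreeAlgebra.lift R fun y => if y = a then DB R α else LinearMap.mulLeft R (FreeAlgebra.ι R (y, 0))

theorem rho_fa (a y : α) (h : y ≠ a) (n : ℕ) :
    rho a (fa (FreeAlgebra.ι R) a (y, n)) = LinearMap.mulLeft R (FreeAlgebra.ι R (y, n)) := by
  induction n with
  | zero => rw [fa_zero, rho, FreeAlgebra.lift_ι_apply, if_neg h]
  | succ n ih =>
    rw [fa_succ, Ring.lie_def, map_sub, map_mul, map_mul, ih, rho, FreeAlgebra.lift_ι_apply, if_pos rfl]
    refine LinearMap.ext fun z => ?_
    rw [LinearMap.sub_apply, Module.End.mul_apply, Module.End.mul_apply, LinearMap.mulLeft_apply, LinearMap.mulLeft_apply,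
      LinearMap.mulLeft_apply, DB_mul, DB_iota, add_sub_cancel_left]

theorem rho_rb (a : α) (w : List (α × ℕ)) (h : ∀ x ∈ w, x.1 ≠ a) :
    rho a (rb (fa (FreeAlgebra.ι R) a) w) = LinearMap.mulLeft R (rb (FreeAlgebra.ι R) w) := by
  induction w with
  | nil =>
    rw [rb, rb, map_zero]
    exact LinearMap.ext fun z => (zero_mul z).symm
  | cons x w ih =>
    by_cases h' : w = []
    · subst h'
      exact rho_fa a x.1 (h x (by simp)) x.2
    · rw [rb_cons _ _ h', rb_cons _ _ h', Ring.lie_def, Ring.lie_def, map_sub, map_mul, map_mul, ih fun y hy => h y (List.mem_cons_of_mem _ hy)]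
      have h2 : rho a (fa (FreeAlgebra.ι R) a x) = LinearMap.mulLeft R (FreeAlgebra.ι R x) := rho_fa a x.1 (h x (by simp)) x.2
      rw [h2]
      refine LinearMap.ext fun z => ?_
      rw [LinearMap.sub_apply, Module.End.mul_apply, Module.End.mul_apply, LinearMap.mulLeft_apply, LinearMap.mulLeft_apply,
        LinearMap.mulLeft_apply, LinearMap.mulLeft_apply, LinearMap.mulLeft_apply, sub_mul, mul_assoc, mul_assoc]

theorem rho_RB (a : α) {k : ℕ} {c : List (α × ℕ) →₀ R} (hc : c ∈ SP R a k) :
    rho a (RB R (fa (FreeAlgebra.ι R) a) c) (1 : FreeAlgebra R (α × ℕ)) = RB R (FreeAlgebra.ι R) c := by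
  have h := RB_congr (R := R) (f := fa (FreeAlgebra.ι R) a) (g := (FreeAlgebra.ι R : α × ℕ → FreeAlgebra R (α × ℕ)))
    (k := (LinearMap.applyₗ (1 : FreeAlgebra R (α × ℕ))).comp (rho a).toLinearMap) (c := c) (fun w hw => by
      have h2 := (Finsupp.mem_supported R c).1 hc hw
      show rho a (rb (fa (FreeAlgebra.ι R) a) w) 1 = _
      rw [rho_rb a w h2.2, LinearMap.mulLeft_apply, mul_one])
  exact h

end rep

section main

attribute [local instance 100] LieRing.ofAssociativeRing

variable {R : Type} [CommRing R]

theorem RB_ext {α L : Type*} [LieRing L] [LieAlgebra R L] {f g : α → L} {c : List α →₀ R}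
    (h : ∀ w ∈ c.support, rb f w = rb g w) : RB R f c = RB R g c :=
  RB_congr (k := LinearMap.id) h

theorem RB_eq_zero {α L : Type*} [LieRing L] [LieAlgebra R L] {f : α → L} {c : List α →₀ R}
    (h : ∀ w ∈ c.support, rb f w = 0) : RB R f c = 0 := by
  rw [RB, Finsupp.linearCombination_apply, Finsupp.sum]
  exact Finset.sum_eq_zero fun w hw => by rw [h w hw, smul_zero]

theorem rb_alg {α : Type*} {A : Type*} [Ring A] [Algebra R A] (g : FreeAlgebra R α →ₐ[R] A) (w : List α) :
    g (rb (FreeAlgebra.ι R) w) = rb (fun x => g (FreeAlgebra.ι R x)) w :=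
  rb_map (R := R) (g : FreeAlgebra R α →ₗ⁅R⁆ A) _ w

/-- the coefficients of words of one letter -/
theorem coef1 {α : Type*} (b : α) (c : List α →₀ R) (h : RB R (FreeAlgebra.ι R) c = (0 : FreeAlgebra R α)) : c [b] = 0 := by
  let g : FreeAlgebra R α →ₐ[R] TrivSqZeroExt R R := FreeAlgebra.lift R fun x => if x = b then TrivSqZeroExt.inr 1 else 0
  have h2 : ∀ w : List α, (g (rb (FreeAlgebra.ι R) w)).snd = if w = [b] then 1 else 0 := by
    intro w
    rcases w with _ | ⟨x, _ | ⟨y, v⟩⟩
    · rw [rb, map_zero, if_neg (by simp)]; rfl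
    · rw [rb, FreeAlgebra.lift_ι_apply]
      by_cases hx : x = b
      · subst hx; rw [if_pos rfl, if_pos rfl, TrivSqZeroExt.snd_inr]
      · rw [if_neg hx, if_neg (by simpa using hx)]; rfl
    · rw [rb, Ring.lie_def, map_sub, map_mul, map_mul, mul_comm, sub_self, if_neg (by simp)]; rfl
  have h3 := congrArg (fun z => (g z).snd) h
  simp only [map_zero, TrivSqZeroExt.snd_zero] at h3
  rw [RB, Finsupp.linearCombination_apply, Finsupp.sum, map_sum, TrivSqZeroExt.snd_sum] at h3
  simp only [map_smul, TrivSqZeroExt.snd_smul, h2, smul_eq_mul, mul_ite, mul_one, mul_zero] at h3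
  rw [Finset.sum_ite_eq' c.support [b] fun w => c w] at h3
  by_contra hb
  rw [if_pos (Finsupp.mem_support_iff.2 hb)] at h3
  exact hb h3

theorem RB_lc {α L : Type*} [LieRing L] [LieAlgebra R L] (f : α → L) (a : α) {c : List α →₀ R} (hc : c [a] = 0) :
    RB R (fa f a) (Finsupp.linearCombination R (Ew a) c) = RB R f c := by
  have e1 : Finsupp.linearCombination R (Ew a) c = ∑ w ∈ c.support, c w • (Ew a w : List (α × ℕ) →₀ R) :=
    Finsupp.linearCombination_apply R c
  have e2 : RB R f c = ∑ w ∈ c.support, c w • rb f w := Finsupp.linearCombination_apply R c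
  rw [e1, e2, map_sum]
  refine Finset.sum_congr rfl fun w hw => ?_
  rw [map_smul]
  congr 1
  refine RB_Ew f a w fun h => ?_
  subst h
  exact Finsupp.mem_support_iff.1 hw hc

/-- A relation between right normed brackets in the free associative algebra holds in every Lie algebra. -/
theorem laz (m : ℕ) : ∀ {α : Type} (c : List α →₀ R), (∀ w ∈ c.support, w.length ≤ m) →
    RB R (FreeAlgebra.ι R) c = (0 : FreeAlgebra R α) →
    ∀ {L : Type} [LieRing L] [LieAlgebra R L] (f : α → L), RB R f c = 0 := by
  induction m with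
  | zero =>
    intro α c hc _ L _ _ f
    exact RB_eq_zero fun w hw => by rw [List.length_eq_zero_iff.1 (Nat.le_zero.1 (hc w hw))]; rfl
  | succ m ih =>
    intro α c hc h0 L _ _ f
    have key : ∀ F : Finset α, ∀ c : List α →₀ R, (∀ w ∈ c.support, w.length ≤ m + 1) → (∀ w ∈ c.support, ∀ x ∈ w, x ∈ F) →
        RB R (FreeAlgebra.ι R) c = (0 : FreeAlgebra R α) → RB R f c = 0 := by
      intro F
      induction F using Finset.induction_on with
      | empty =>
        intro c _ hF _
        refine RB_eq_zero fun w hw => ?_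
        have : w = [] := List.eq_nil_iff_forall_not_mem.2 fun x hx => by simpa using hF w hw x hx
        rw [this]; rfl
      | insert a F haF ihF =>
        intro c hc hF h0
        set c0 : List α →₀ R := c.filter fun w => ¬ a ∈ w with hc0
        set c1 : List α →₀ R := c.filter fun w => a ∈ w with hc1
        have hcc : c1 + c0 = c := Finsupp.filter_add_filter_not c _
        have hs0 : ∀ w ∈ c0.support, w ∈ c.support ∧ ¬ a ∈ w := fun w hw => by
          rw [hc0, Finsupp.support_filter, Finset.mem_filter] at hw; exact hw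
        have hs1 : ∀ w ∈ c1.support, w ∈ c.support ∧ a ∈ w := fun w hw => by
          rw [hc1, Finsupp.support_filter, Finset.mem_filter] at hw; exact hw
        -- the part without `a`
        have h00 : RB R (FreeAlgebra.ι R) c0 = (0 : FreeAlgebra R α) := by
          let g : FreeAlgebra R α →ₐ[R] FreeAlgebra R α := FreeAlgebra.lift R fun y => if y = a then 0 else FreeAlgebra.ι R y
          have e1 : ∀ d : List α →₀ R, g (RB R (FreeAlgebra.ι R) d) =
              RB R (fun y => if y = a then 0 else FreeAlgebra.ι R y) d := fun d =>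
            RB_congr (k := g.toLinearMap) fun w _ => by
              show g (rb (FreeAlgebra.ι R) w) = _
              rw [rb_alg]
              refine rb_congr fun x _ => ?_
              exact FreeAlgebra.lift_ι_apply _ _
          have e2 := e1 c
          rw [h0, map_zero, ← hcc, map_add] at e2
          have e3 : RB R (fun y => if y = a then 0 else FreeAlgebra.ι R y) c1 = (0 : FreeAlgebra R α) :=
            RB_eq_zero fun w hw => rb_zero (hs1 w hw).2 (if_pos rfl)
          rw [e3, zero_add] at e2
          rw [e2]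
          refine RB_ext fun w hw => rb_congr fun x hx => ?_
          rw [if_neg fun h => (hs0 w hw).2 (by rw [← h]; exact hx)]
        have r0 : RB R f c0 = 0 := by
          refine ihF c0 (fun w hw => hc w (hs0 w hw).1) (fun w hw x hx => ?_) h00
          rcases Finset.mem_insert.1 (hF w (hs0 w hw).1 x hx) with rfl | h
          · exact absurd hx (hs0 w hw).2
          · exact h
        -- the part with `a`
        have h01 : RB R (FreeAlgebra.ι R) c1 = (0 : FreeAlgebra R α) := by
          rw [← hcc, map_add, h00, add_zero] at h0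
          exact h0
        have hca := coef1 a c1 h01
        set c' : List (α × ℕ) →₀ R := Finsupp.linearCombination R (Ew a) c1 with hc'
        have hsp : c' ∈ SP R a m := by
          rw [hc', Finsupp.linearCombination_apply, Finsupp.sum]
          refine Submodule.sum_mem _ fun w hw => Submodule.smul_mem _ _ (sp_mono ?_ (sp_Ew a w))
          have h1 := hc w (hs1 w hw).1
          have h2 := List.count_pos_iff.2 (hs1 w hw).2
          omega
        have e1 : RB R (FreeAlgebra.ι R) c' = (0 : FreeAlgebra R (α × ℕ)) := by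
          rw [← rho_RB a hsp, hc', RB_lc _ _ hca, h01, map_zero]
          rfl
        have e2 : RB R (fa f a) c' = 0 := ih c' (fun w hw => ((Finsupp.mem_supported R c').1 hsp hw).1) e1 _
        have r1 : RB R f c1 = 0 := (RB_lc f a hca).symm.trans e2
        rw [← hcc, map_add, r0, r1, add_zero]
    refine key (c.support.biUnion fun w => w.toFinset) c hc (fun w hw x hx => ?_) h0
    exact Finset.mem_biUnion.2 ⟨w, hw, List.mem_toFinset.2 hx⟩

end main

end H88.S3
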