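import Pool.Agent.H88.S3.Cof

/-!
# [H88 S3 PRJ] MP_b39724_nt, stage 3: the free Lie algebra, homogeneous parts

`fl_span`: the right normed brackets span the free Lie algebra. `ev`: the coefficients of an element of the free Lie algebra.
`pr d`: the part of degree `d` of a function on words. `pr_ev`: the parts of a Lie element are Lie elements.
`br_map`: change of coefficients.
-/

set_option autoImplicit false

open scoped Classical

noncomputable section

namespace H88.S3

open H62.BL

section span

variable {R α L : Type*} [CommRing R] [LieRing L] [LieAlgebra R L]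

/-- span of all right normed brackets -/
def PA (R : Type*) {α L : Type*} [CommRing R] [LieRing L] [LieAlgebra R L] (f : α → L) : Submodule R L :=
  Submodule.span R (Set.range (rb f))

theorem pa_rb (f : α → L) (w : List α) : rb f w ∈ PA R f := Submodule.subset_span ⟨w, rfl⟩

theorem pa_ps (f : α → L) (l : List α) : PS R f l ≤ PA R f := Submodule.span_mono fun _ ⟨w, _, hx⟩ => ⟨w, hx.symm⟩

theorem pa_lie (f : α → L) {y z : L} (hy : y ∈ PA R f) (hz : z ∈ PA R f) : ⁅y, z⁆ ∈ PA R f := by
  induction hy using Submodule.span_induction with
  | mem y hy =>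
    obtain ⟨u, rfl⟩ := hy
    induction hz using Submodule.span_induction with
    | mem z hz =>
      obtain ⟨v, rfl⟩ := hz
      exact pa_ps f (u ++ v) (ps_lie1 f u (ps_mem f (List.Perm.refl v)))
    | zero => rw [lie_zero]; exact Submodule.zero_mem _
    | add a b _ _ ha hb => rw [lie_add]; exact Submodule.add_mem _ ha hb
    | smul r a _ ha => rw [lie_smul]; exact Submodule.smul_mem _ _ ha
  | zero => rw [zero_lie]; exact Submodule.zero_mem _
  | add a b _ _ ha hb => rw [add_lie]; exact Submodule.add_mem _ ha hb
  | smul r a _ ha => rw [smul_lie]; exact Submodule.smul_mem _ _ ha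

/-- the right normed brackets span the free Lie algebra -/
theorem fl_span (z : FreeLieAlgebra R α) : z ∈ PA R (FreeLieAlgebra.of R : α → FreeLieAlgebra R α) := by
  let S : LieSubalgebra R (FreeLieAlgebra R α) := { PA R (FreeLieAlgebra.of R : α → FreeLieAlgebra R α) with
    lie_mem' := fun hy hz => pa_lie _ hy hz }
  let g : FreeLieAlgebra R α →ₗ⁅R⁆ S := FreeLieAlgebra.lift R fun a => ⟨FreeLieAlgebra.of R a, pa_rb _ [a]⟩
  have h : S.incl.comp g = LieHom.id := by
    refine FreeLieAlgebra.hom_ext fun a => ?_
    show ((g (FreeLieAlgebra.of R a) : S) : FreeLieAlgebra R α) = FreeLieAlgebra.of R a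
    rw [FreeLieAlgebra.lift_of_apply]
  have h2 := congrArg (fun k : FreeLieAlgebra R α →ₗ⁅R⁆ FreeLieAlgebra R α => k z) h
  rw [← show (S.incl.comp g) z = z from h2]
  exact (g z).2

end span

section pr

variable {R α : Type} [CommRing R]

/-- the part of degree `d` -/
def pr (d : ℕ) : (List α → R) →ₗ[R] (List α → R) where
  toFun g := fun w => if w.length = d then g w else 0
  map_add' f g := funext fun w => by
    rw [Pi.add_apply, Pi.add_apply]
    split_ifs
    · rfl
    · rw [add_zero]
  map_smul' r f := funext fun w => by
    rw [Pi.smul_apply, Pi.smul_apply, RingHom.id_apply]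
    split_ifs
    · rfl
    · rw [smul_zero]

theorem pr_apply (d : ℕ) (g : List α → R) (w : List α) : pr d g w = if w.length = d then g w else 0 := rfl

theorem cv_hom (d e : ℕ) (y f : List α → R) (hy : ∀ w, y w ≠ 0 → w.length = d) (hf : ∀ w, f w ≠ 0 → w.length = e)
    (w : List α) (h : cv y f w ≠ 0) : w.length = d + e := by
  induction w generalizing y d with
  | nil =>
    rw [cv_nil] at h
    have h1 := hy [] fun h' => h (by rw [h', zero_mul])
    have h2 := hf [] fun h' => h (by rw [h', mul_zero])
    rw [← h1, ← h2]; rfl
  | cons a w ih =>
    rw [cv_cons] at h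
    by_cases h1 : y [] * f (a :: w) = 0
    · rw [h1, zero_add] at h
      rcases Nat.eq_zero_or_pos d with rfl | hd
      · exfalso
        refine h ?_
        have : (fun v : List α => y (a :: v)) = fun _ => 0 := funext fun v => by
          by_contra h2
          have := hy _ h2
          simp at this
        rw [this, cv_zero_left]
      · have h2 := ih (d - 1) (fun v => y (a :: v)) (fun v hv => by
          have := hy _ hv
          rw [List.length_cons] at this
          omega) h
        rw [List.length_cons, h2]
        omega
    · have h2 := hy [] fun h' => h1 (by rw [h', zero_mul])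
      have h3 := hf (a :: w) fun h' => h1 (by rw [h', mul_zero])
      rw [h3, ← h2, List.length_nil, zero_add]

theorem br_len (w v : List α) (h : (br w : List α → R) v ≠ 0) : v.length = w.length := by
  induction w generalizing v with
  | nil => exact absurd rfl h
  | cons a w ih =>
    by_cases h' : w = []
    · subst h'
      have h1 : (el a : List α → R) v ≠ 0 := h
      rw [el] at h1
      split_ifs at h1 with h2
      · rw [h2]
      · exact absurd rfl h1
    · rw [br_cons a h', Pi.sub_apply] at h
      have he : ∀ u : List α, (el a : List α → R) u ≠ 0 → u.length = 1 := fun u hu => by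
        rw [el] at hu
        split_ifs at hu with h2
        · rw [h2]; rfl
        · exact absurd rfl hu
      by_cases h1 : cv (el a : List α → R) (br w) v = 0
      · rw [h1, zero_sub, neg_ne_zero] at h
        rw [cv_hom w.length 1 _ _ ih he v h, List.length_cons]
      · rw [cv_hom 1 w.length _ _ he ih v h1, List.length_cons, add_comm]

theorem pr_br (d : ℕ) (w : List α) : pr d (br w : List α → R) = if w.length = d then br w else 0 := by
  funext v
  rw [pr_apply]
  split_ifs with h1 h2 h2
  · rfl
  · by_contra h
    exact h2 ((br_len w v h).symm.trans h1)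
  · by_contra h
    exact h1 ((br_len w v (Ne.symm h)).trans h2)
  · rfl

theorem pr_ll {d : ℕ} {x : List α → R} (h : x ∈ LL R α d) : pr d x = x := by
  induction h using Submodule.span_induction with
  | mem x hx =>
    obtain ⟨w, hw, rfl⟩ := hx
    rw [pr_br, if_pos hw]
  | zero => rw [map_zero]
  | add a b _ _ ha hb => rw [map_add, ha, hb]
  | smul r a _ ha => rw [map_smul, ha]

attribute [local instance 100] LieRing.ofAssociativeRing

/-- coefficients of an element of the free Lie algebra -/
def ev : FreeLieAlgebra R α →ₗ[R] (List α → R) :=
  cf.comp (FreeLieAlgebra.lift R (FreeAlgebra.ι R : α → FreeAlgebra R α) : FreeLieAlgebra R α →ₗ⁅R⁆ FreeAlgebra R α).toLinearMap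

theorem ev_rb (w : List α) : ev (rb (FreeLieAlgebra.of R) w) = (br w : List α → R) := by
  show cf (FreeLieAlgebra.lift R (FreeAlgebra.ι R : α → FreeAlgebra R α) (rb (FreeLieAlgebra.of R) w)) = _
  rw [rb_map, ← cf_rb]
  congr 2
  exact funext fun a => FreeLieAlgebra.lift_of_apply _ _

/-- the homogeneous parts of a Lie element are Lie elements -/
theorem pr_ev (d : ℕ) (z : FreeLieAlgebra R α) : pr d (ev z) ∈ LL R α d := by
  have h := fl_span z
  induction h using Submodule.span_induction with
  | mem x hx =>
    obtain ⟨w, rfl⟩ := hx
    rw [ev_rb, pr_br]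
    split_ifs with h
    · exact ll_mem h
    · exact Submodule.zero_mem _
  | zero => rw [map_zero, map_zero]; exact Submodule.zero_mem _
  | add a b _ _ ha hb => rw [map_add, map_add]; exact Submodule.add_mem _ ha hb
  | smul r a _ ha => rw [map_smul, map_smul]; exact Submodule.smul_mem _ _ ha

theorem ll_comb {d : ℕ} {x : List α → R} (h : x ∈ LL R α d) :
    ∃ c : List α →₀ R, (∀ w ∈ c.support, w.length = d) ∧ Finsupp.linearCombination R (br : List α → List α → R) c = x := by
  induction h using Submodule.span_induction with
  | mem x hx =>
    obtain ⟨w, hw, rfl⟩ := hx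
    refine ⟨Finsupp.single w 1, fun v hv => ?_, by rw [Finsupp.linearCombination_single, one_smul]⟩
    rw [Finset.mem_singleton.1 (Finsupp.support_single_subset hv)]
    exact hw
  | zero => exact ⟨0, fun v hv => absurd hv (by simp), map_zero _⟩
  | add a b _ _ ha hb =>
    obtain ⟨c, hc, rfl⟩ := ha
    obtain ⟨c', hc', rfl⟩ := hb
    refine ⟨c + c', fun v hv => ?_, map_add _ _ _⟩
    rcases Finset.mem_union.1 (Finsupp.support_add hv) with h | h
    · exact hc v h
    · exact hc' v h
  | smul r a _ ha =>
    obtain ⟨c, hc, rfl⟩ := ha
    exact ⟨r • c, fun v hv => hc v (Finsupp.support_smul hv), map_smul _ _ _⟩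

end pr

section map

variable {R S α : Type} [CommRing R] [CommRing S]

theorem cv_map (φ : R →+* S) (y f : List α → R) (w : List α) : φ (cv y f w) = cv (fun v => φ (y v)) (fun v => φ (f v)) w := by
  induction w generalizing y with
  | nil => rw [cv_nil, cv_nil, map_mul]
  | cons a w ih => rw [cv_cons, cv_cons, map_add, map_mul, ih]

theorem br_map (φ : R →+* S) (w v : List α) : φ ((br w : List α → R) v) = (br w : List α → S) v := by
  induction w generalizing v with
  | nil => exact map_zero φ
  | cons a w ih =>
    by_cases h : w = []
    · subst h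
      show φ ((el a : List α → R) v) = (el a : List α → S) v
      rw [el, el]
      split_ifs
      · exact map_one φ
      · exact map_zero φ
    · have he : (fun v => φ ((el a : List α → R) v)) = (el a : List α → S) := funext fun v => by
        rw [el, el]
        split_ifs
        · exact map_one φ
        · exact map_zero φ
      have hb : (fun v => φ ((br w : List α → R) v)) = (br w : List α → S) := funext ih
      rw [br_cons a h, br_cons a h, Pi.sub_apply, Pi.sub_apply, map_sub, cv_map, cv_map, he, hb]

end map

end H88.S3
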