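import Pool.Agent.H88.S3.Prj

/-!
# [H88 S3 SAT] MP_b39724_nt, stage 3: the Lie elements over `ℤ` are saturated

`sat`: `x` in the span over `ℤ` of the right normed brackets of length `e`, all coefficients of `x` divisible by `q`: then `x = q y` with
`y` in this span. (`L / q L → A / q A` is injective, `L` the free Lie ring in the free associative ring `A`.)
-/

set_option autoImplicit false

open scoped Classical

noncomputable section

namespace H88.S3

open H62.BL

section quo

/-- the ideal `q L` -/
def qI (L : Type) [LieRing L] (q : ℕ) : LieIdeal ℤ L where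
  carrier := {x | ∃ y : L, q • y = x}
  zero_mem' := ⟨0, smul_zero _⟩
  add_mem' := by
    rintro _ _ ⟨a, rfl⟩ ⟨b, rfl⟩
    exact ⟨a + b, smul_add _ _ _⟩
  smul_mem' := by
    rintro r _ ⟨a, rfl⟩
    exact ⟨r • a, smul_comm _ _ _⟩
  lie_mem := by
    rintro x _ ⟨a, rfl⟩
    exact ⟨⁅x, a⁆, (lie_nsmul x a q).symm⟩

theorem qI_mem {L : Type} [LieRing L] {q : ℕ} {x : L} : x ∈ qI L q ↔ ∃ y : L, q • y = x := Iff.rfl

/-- a relation modulo `q` -/
theorem mod_rel {q : ℕ} {α L : Type} [LieRing L] (f : α → L) (c : List α →₀ ℤ)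
    (h : Finsupp.linearCombination (ZMod q) (br : List α → List α → ZMod q) (c.mapRange (Int.cast : ℤ → ZMod q) Int.cast_zero) = 0) :
    ∃ y : L, q • y = RB ℤ f c := by
  let Q := L ⧸ qI L q
  letI : Module (ZMod q) Q := AddCommGroup.zmodModule fun x => by
    obtain ⟨y, rfl⟩ := LieSubmodule.Quotient.surjective_mk' (qI L q) x
    rw [← map_nsmul]
    exact (LieSubmodule.Quotient.mk_eq_zero (N := qI L q)).2 ⟨y, rfl⟩
  have hls : ∀ (t : ZMod q) (x y : Q), ⁅x, t • y⁆ = t • ⁅x, y⁆ := by
    intro t x y
    obtain ⟨n, rfl⟩ := ZMod.intCast_surjective t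
    rw [Int.cast_smul_eq_zsmul, Int.cast_smul_eq_zsmul, lie_zsmul]
  letI : LieAlgebra (ZMod q) Q := { lie_smul := hls }
  have h1 := laz_br (R := ZMod q) _ h (fun a => (LieSubmodule.Quotient.mk (f a) : Q))
  have h2 : ∀ w : List α, rb (fun a => (LieSubmodule.Quotient.mk (f a) : Q)) w = LieSubmodule.Quotient.mk (rb f w) := by
    intro w
    induction w with
    | nil => rfl
    | cons a w ih =>
      by_cases hw : w = []
      · subst hw; rfl
      · rw [rb_cons _ a hw, rb_cons _ a hw, ih]; rfl
  have h3 : RB (ZMod q) (fun a => (LieSubmodule.Quotient.mk (f a) : Q)) (c.mapRange (Int.cast : ℤ → ZMod q) Int.cast_zero) =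
      LieSubmodule.Quotient.mk (RB ℤ f c) := by
    clear h h1
    induction c using Finsupp.induction_linear with
    | zero => rw [Finsupp.mapRange_zero, map_zero, map_zero]; rfl
    | add c c' h h' =>
      rw [Finsupp.mapRange_add (fun x y => Int.cast_add x y), map_add, map_add, h, h']; rfl
    | single w r =>
      rw [Finsupp.mapRange_single, RB_single, RB_single, h2, Int.cast_smul_eq_zsmul]
      rfl
  rw [h3] at h1
  exact (LieSubmodule.Quotient.mk_eq_zero (N := qI L q)).1 h1

end quo

/-- saturation of the free Lie ring in the free associative ring -/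
theorem sat (q : ℕ) {α : Type} (e : ℕ) (x : List α → ℤ) (hx : x ∈ LL ℤ α e) (hq : ∀ w, (q : ℤ) ∣ x w) :
    ∃ y ∈ LL ℤ α e, x = (q : ℤ) • y := by
  obtain ⟨c, hc, rfl⟩ := ll_comb hx
  have h1 : Finsupp.linearCombination (ZMod q) (br : List α → List α → ZMod q) (c.mapRange (Int.cast : ℤ → ZMod q) Int.cast_zero) = 0 := by
    have h2 : ∀ c : List α →₀ ℤ, Finsupp.linearCombination (ZMod q) (br : List α → List α → ZMod q)
        (c.mapRange (Int.cast : ℤ → ZMod q) Int.cast_zero) =
        fun w => ((Finsupp.linearCombination ℤ (br : List α → List α → ℤ) c w : ℤ) : ZMod q) := by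
      intro c
      induction c using Finsupp.induction_linear with
      | zero =>
        rw [Finsupp.mapRange_zero, map_zero, map_zero]
        exact funext fun w => Int.cast_zero.symm
      | add c c' h h' =>
        rw [Finsupp.mapRange_add (fun x y => Int.cast_add x y), map_add, map_add, h, h']
        exact funext fun w => (Int.cast_add _ _).symm
      | single w r =>
        rw [Finsupp.mapRange_single, Finsupp.linearCombination_single, Finsupp.linearCombination_single]
        refine funext fun v => ?_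
        rw [Pi.smul_apply, Pi.smul_apply, smul_eq_mul, smul_eq_mul, Int.cast_mul]
        congr 1
        exact (br_map (Int.castRingHom (ZMod q)) w v).symm
    rw [h2]
    exact funext fun w => (ZMod.intCast_zmod_eq_zero_iff_dvd _ _).2 (hq w)
  obtain ⟨z, hz⟩ := mod_rel (FreeLieAlgebra.of ℤ : α → FreeLieAlgebra ℤ α) c h1
  refine ⟨pr e (ev z), pr_ev e z, ?_⟩
  have h3 : Finsupp.linearCombination ℤ (br : List α → List α → ℤ) c = ev (RB ℤ (FreeLieAlgebra.of ℤ) c) := by
    rw [RB, Finsupp.linearCombination_apply, Finsupp.linearCombination_apply, Finsupp.sum, Finsupp.sum, map_sum]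
    exact Finset.sum_congr rfl fun w _ => by rw [map_smul, ev_rb]
  have h4 := pr_ll hx
  rw [← h4, h3, ← hz, map_nsmul, map_nsmul, natCast_zsmul]

end H88.S3
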