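import Pool.Agent.H88.S3.Der

/-!
# [H88 S3 TBD] MP_b39724_nt, stage 3: theorem (3B)

`LL R Om d`: Lie elements of degree `d` as functions on words, `AD s y = [s, y]`. `LP R l`: span of `br w`, `w` a permutation of `l`.
THEOREM `tb` ((3B)). `2` invertible in `R`, `B` an `R`-module, `n ≥ 1`, `chi s : LL n → B`. If for every `D : Fin (n + 1) → Om` there is a
functional `lam'` of the multilinear Lie elements in the letters `0, .., n` with `chi (D k) (ev_D y) = - lam' [k, y]` (`y` multilinear in
the letters different from `k`; enough: `y = br w`), then there is `lam : LL (n + 1) → B` with `chi s y = - lam [s, y]` for all `s`, `y`.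
-/

set_option autoImplicit false

open scoped Classical

noncomputable section

namespace H88.S3

open H62.BL

section adj

variable {R α : Type} [CommRing R]

variable (R) in
/-- span of the brackets (functions on words) of the permutations of `l` -/
def LP (l : List α) : Submodule R (List α → R) := Submodule.span R {x | ∃ w : List α, w.Perm l ∧ x = br w}

theorem lp_mem {l w : List α} (h : w.Perm l) : (br w : List α → R) ∈ LP R l := Submodule.subset_span ⟨w, h, rfl⟩

theorem ev_ps {l : List α} {z : FreeLieAlgebra R α} (hz : z ∈ PS R (FreeLieAlgebra.of R) l) : ev z ∈ LP R l := by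
  induction hz using Submodule.span_induction with
  | mem x hx =>
    obtain ⟨w, hw, rfl⟩ := hx
    rw [ev_rb]
    exact lp_mem hw
  | zero => rw [map_zero]; exact Submodule.zero_mem _
  | add a b _ _ ha hb => rw [map_add]; exact Submodule.add_mem _ ha hb
  | smul r a _ ha => rw [map_smul]; exact Submodule.smul_mem _ _ ha

/-- the bracket with the letter `a` -/
def AD (a : α) : (List α → R) →ₗ[R] (List α → R) where
  toFun y := cv (el a) y - cv y (el a)
  map_add' y z := funext fun w => by
    have h1 := cv_add_right (el a) y z w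
    have h2 := cv_add_left y z (el a) w
    show cv (el a) (fun v => y v + z v) w - cv (fun v => y v + z v) (el a) w =
      cv (el a) y w - cv y (el a) w + (cv (el a) z w - cv z (el a) w)
    rw [h1, h2]; ring
  map_smul' r y := funext fun w => by
    have h1 := cv_smul_right r (el a) y w
    have h2 := cv_smul_left r y (el a) w
    show cv (el a) (fun v => r * y v) w - cv (fun v => r * y v) (el a) w = r * (cv (el a) y w - cv y (el a) w)
    rw [h1, h2]; ring

theorem AD_apply (a : α) (y : List α → R) : AD a y = cv (el a) y - cv y (el a) := rfl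

theorem AD_br (a : α) {w : List α} (h : w ≠ []) : AD a (br w : List α → R) = br (a :: w) := (br_cons a h).symm

theorem ad_ll (a : α) {d : ℕ} {y : List α → R} (h : y ∈ LL R α d) : AD a y ∈ LL R α (d + 1) := by
  induction h using Submodule.span_induction with
  | mem x hx =>
    obtain ⟨w, hw, rfl⟩ := hx
    by_cases h : w = []
    · subst h
      have : (br ([] : List α) : List α → R) = 0 := rfl
      rw [this, map_zero]
      exact Submodule.zero_mem _
    · rw [AD_br a h]
      exact ll_mem (by rw [List.length_cons, hw])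
  | zero => rw [map_zero]; exact Submodule.zero_mem _
  | add a b _ _ ha hb => rw [map_add]; exact Submodule.add_mem _ ha hb
  | smul r a _ ha => rw [map_smul]; exact Submodule.smul_mem _ _ ha

/-- linear maps which agree on brackets agree on Lie elements -/
theorem ll_ext {B : Type*} [AddCommGroup B] [Module R B] {d : ℕ} {f g : LL R α d →ₗ[R] B}
    (h : ∀ (w : List α) (hw : w.length = d), f ⟨br w, ll_mem hw⟩ = g ⟨br w, ll_mem hw⟩) : f = g := by
  refine LinearMap.ext fun ⟨x, hx⟩ => ?_
  have hx' := hx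
  induction hx' using Submodule.span_induction with
  | mem x hx' =>
    obtain ⟨w, hw, rfl⟩ := hx'
    exact h w hw
  | zero =>
    have : (⟨0, hx⟩ : LL R α d) = 0 := rfl
    rw [this, map_zero, map_zero]
  | add a b ha hb h1 h2 =>
    have : (⟨a + b, hx⟩ : LL R α d) = ⟨a, ha⟩ + ⟨b, hb⟩ := rfl
    rw [this, map_add, map_add, h1 ha, h2 hb]
  | smul r a ha h1 =>
    have : (⟨r • a, hx⟩ : LL R α d) = r • ⟨a, ha⟩ := rfl
    rw [this, map_smul, map_smul, h1 ha]

end adj

section tb

variable {R Om B : Type} [CommRing R] [AddCommGroup B] [Module R B]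

/-- extension of a functional of degree `n` to the free Lie algebra -/
def xc (n : ℕ) (chi : LL R Om n →ₗ[R] B) : FreeLieAlgebra R Om →ₗ[R] B :=
  chi.comp (((pr n).comp ev).codRestrict (LL R Om n) (pr_ev n))

theorem xc_rb (n : ℕ) (chi : LL R Om n →ₗ[R] B) (w : List Om) (h : w.length = n) :
    xc n chi (rb (FreeLieAlgebra.of R) w) = chi ⟨br w, ll_mem h⟩ := by
  refine congrArg chi (Subtype.ext ?_)
  show pr n (ev (rb (FreeLieAlgebra.of R) w)) = br w
  rw [ev_rb, pr_br, if_pos h]

theorem xc_zero (n : ℕ) (chi : LL R Om n →ₗ[R] B) {l : List Om} (h : l.length ≠ n) {z : FreeLieAlgebra R Om}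
    (hz : z ∈ PS R (FreeLieAlgebra.of R) l) : xc n chi z = 0 := by
  induction hz using Submodule.span_induction with
  | mem x hx =>
    obtain ⟨w, hw, rfl⟩ := hx
    have : (⟨pr n (ev (rb (FreeLieAlgebra.of R) w)), pr_ev n _⟩ : LL R Om n) = 0 := Subtype.ext (by
      show pr n (ev (rb (FreeLieAlgebra.of R) w)) = 0
      rw [ev_rb, pr_br, if_neg (by rw [hw.length_eq]; exact h)])
    show chi ⟨pr n (ev (rb (FreeLieAlgebra.of R) w)), pr_ev n _⟩ = 0
    rw [this, map_zero]
  | zero => rw [map_zero]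
  | add a b _ _ ha hb => rw [map_add, ha, hb, add_zero]
  | smul r a _ ha => rw [map_smul, ha, smul_zero]

variable {n : ℕ} {de : FreeLieAlgebra R Om →ₗ[R] FreeLieAlgebra R Om →ₗ[R] B} {chi : Om → LL R Om n →ₗ[R] B}

/-- degrees -/
theorem de_zero (hd : ∀ s, de (FreeLieAlgebra.of R s) = xc n (chi s)) (h1 : ∀ a b c, de ⁅a, b⁆ c = de a ⁅b, c⁆ - de b ⁅a, c⁆)
    (u : List Om) : ∀ (l : List Om), u.length + l.length ≠ n + 1 → ∀ z ∈ PS R (FreeLieAlgebra.of R) l,
      de (rb (FreeLieAlgebra.of R) u) z = 0 := by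
  induction u with
  | nil =>
    intro l _ z _
    have : rb (FreeLieAlgebra.of R : Om → FreeLieAlgebra R Om) [] = 0 := rfl
    rw [this, map_zero, LinearMap.zero_apply]
  | cons s u ih =>
    intro l hl z hz
    rw [List.length_cons] at hl
    by_cases hu : u = []
    · subst hu
      show de (FreeLieAlgebra.of R s) z = 0
      rw [hd]
      exact xc_zero n (chi s) (fun h => hl (by rw [h]; simp [add_comm])) hz
    · rw [rb_cons _ s hu, h1, ih (s :: l) (by rw [List.length_cons]; omega) _ (ps_ad _ s hz), sub_zero, hd]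
      exact xc_zero n (chi s) (by rw [List.length_append]; omega) (ps_lie1 _ u hz)

/-- the functional `lam'` gives `de` on multilinear brackets -/
theorem de_mul (hn : 1 ≤ n) (hd : ∀ s, de (FreeLieAlgebra.of R s) = xc n (chi s))
    (h1 : ∀ a b c, de ⁅a, b⁆ c = de a ⁅b, c⁆ - de b ⁅a, c⁆) (D : Fin (n + 1) → Om)
    (lam : PS R (FreeLieAlgebra.of R : Fin (n + 1) → FreeLieAlgebra R (Fin (n + 1))) (List.finRange (n + 1)) →ₗ[R] B)
    (H : ∀ (k : Fin (n + 1)) (w : List (Fin (n + 1))) (h : (k :: w).Perm (List.finRange (n + 1))) (hw : w.length = n),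
      chi (D k) ⟨br (w.map D), ll_mem (by rw [List.length_map, hw])⟩ = - lam ⟨rb (FreeLieAlgebra.of R) (k :: w), ps_mem _ h⟩)
    (P : FreeLieAlgebra R (Fin (n + 1)) →ₗ⁅R⁆ FreeLieAlgebra R Om) (hP : ∀ k, P (FreeLieAlgebra.of R k) = FreeLieAlgebra.of R (D k))
    (u : List (Fin (n + 1))) : u ≠ [] → ∀ l : List (Fin (n + 1)), (u ++ l).Perm (List.finRange (n + 1)) →
      ∀ y ∈ PS R (FreeLieAlgebra.of R) l, ∀ h : ⁅rb (FreeLieAlgebra.of R) u, y⁆ ∈
        PS R (FreeLieAlgebra.of R : Fin (n + 1) → FreeLieAlgebra R (Fin (n + 1))) (List.finRange (n + 1)),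
      de (P (rb (FreeLieAlgebra.of R) u)) (P y) = - lam ⟨⁅rb (FreeLieAlgebra.of R) u, y⁆, h⟩ := by
  have hPw : ∀ w : List (Fin (n + 1)), P (rb (FreeLieAlgebra.of R) w) = rb (FreeLieAlgebra.of R) (w.map D) := by
    intro w
    rw [rb_map, funext hP]
    induction w with
    | nil => rfl
    | cons a w ih =>
      by_cases hw : w = []
      · subst hw; rfl
      · rw [rb_cons _ a hw, ih, List.map_cons, rb_cons _ _ (by simpa using hw)]
  have one : ∀ (k : Fin (n + 1)) (l : List (Fin (n + 1))), (k :: l).Perm (List.finRange (n + 1)) →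
      ∀ y ∈ PS R (FreeLieAlgebra.of R) l, ∀ h : ⁅FreeLieAlgebra.of R k, y⁆ ∈
        PS R (FreeLieAlgebra.of R : Fin (n + 1) → FreeLieAlgebra R (Fin (n + 1))) (List.finRange (n + 1)),
      de (FreeLieAlgebra.of R (D k)) (P y) = - lam ⟨⁅FreeLieAlgebra.of R k, y⁆, h⟩ := by
    intro k l hl y hy
    have hll : l.length = n := by
      have := hl.length_eq
      rw [List.length_cons, List.length_finRange] at this
      omega
    induction hy using Submodule.span_induction with
    | mem y hy =>
      obtain ⟨w, hw, rfl⟩ := hy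
      intro h
      have hwl : w.length = n := hw.length_eq.trans hll
      have hw0 : w ≠ [] := fun h => by rw [h, List.length_nil] at hwl; omega
      have hp : (k :: w).Perm (List.finRange (n + 1)) := (hw.cons k).trans hl
      rw [hd, hPw, xc_rb n _ _ (by rw [List.length_map, hwl]), H k w hp hwl]
      congr 2
      exact Subtype.ext (rb_cons _ k hw0)
    | zero =>
      intro h
      have : (⟨⁅FreeLieAlgebra.of R k, (0 : FreeLieAlgebra R (Fin (n + 1)))⁆, h⟩ :
        PS R (FreeLieAlgebra.of R : Fin (n + 1) → FreeLieAlgebra R (Fin (n + 1))) (List.finRange (n + 1))) = 0 :=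
        Subtype.ext (lie_zero _)
      rw [this, map_zero, map_zero, map_zero, neg_zero]
    | add a b ha hb h1 h2 =>
      intro h
      have ea := ps_perm _ hl (ps_ad _ k ha)
      have eb := ps_perm _ hl (ps_ad _ k hb)
      have : (⟨⁅FreeLieAlgebra.of R k, a + b⁆, h⟩ :
        PS R (FreeLieAlgebra.of R : Fin (n + 1) → FreeLieAlgebra R (Fin (n + 1))) (List.finRange (n + 1))) =
          ⟨⁅FreeLieAlgebra.of R k, a⁆, ea⟩ + ⟨⁅FreeLieAlgebra.of R k, b⁆, eb⟩ := Subtype.ext (lie_add _ _ _)
      rw [this, map_add, map_add, map_add, h1 ea, h2 eb, neg_add]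
    | smul r a ha h1 =>
      intro h
      have ea := ps_perm _ hl (ps_ad _ k ha)
      have : (⟨⁅FreeLieAlgebra.of R k, r • a⁆, h⟩ :
        PS R (FreeLieAlgebra.of R : Fin (n + 1) → FreeLieAlgebra R (Fin (n + 1))) (List.finRange (n + 1))) =
          r • ⟨⁅FreeLieAlgebra.of R k, a⁆, ea⟩ := Subtype.ext (lie_smul _ _ _)
      rw [this, map_smul, map_smul, map_smul, h1 ea, smul_neg]
  induction u with
  | nil => intro h; exact absurd rfl h
  | cons k u ih =>
    intro _ l hl y hy h
    by_cases hu : u = []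
    · subst hu
      show de (P (FreeLieAlgebra.of R k)) (P y) = _
      rw [hP]
      exact one k l hl y hy h
    · have e1 : ⁅FreeLieAlgebra.of R k, ⁅rb (FreeLieAlgebra.of R) u, y⁆⁆ ∈
          PS R (FreeLieAlgebra.of R : Fin (n + 1) → FreeLieAlgebra R (Fin (n + 1))) (List.finRange (n + 1)) :=
        ps_perm _ hl (ps_ad _ k (ps_lie1 _ u hy))
      have hl2 : (u ++ k :: l).Perm (List.finRange (n + 1)) := List.perm_middle.trans hl
      have e2 : ⁅rb (FreeLieAlgebra.of R) u, ⁅FreeLieAlgebra.of R k, y⁆⁆ ∈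
          PS R (FreeLieAlgebra.of R : Fin (n + 1) → FreeLieAlgebra R (Fin (n + 1))) (List.finRange (n + 1)) :=
        ps_perm _ hl2 (ps_lie1 _ u (ps_ad _ k hy))
      have r1 := one k (u ++ l) hl _ (ps_lie1 _ u hy) e1
      have r2 := ih hu (k :: l) hl2 _ (ps_ad _ k hy) e2
      have : (⟨⁅rb (FreeLieAlgebra.of R) (k :: u), y⁆, h⟩ :
        PS R (FreeLieAlgebra.of R : Fin (n + 1) → FreeLieAlgebra R (Fin (n + 1))) (List.finRange (n + 1))) =
          ⟨_, e1⟩ - ⟨_, e2⟩ := Subtype.ext (by
            show ⁅rb (FreeLieAlgebra.of R) (k :: u), y⁆ = ⁅FreeLieAlgebra.of R k, ⁅rb (FreeLieAlgebra.of R) u, y⁆⁆ -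
              ⁅rb (FreeLieAlgebra.of R) u, ⁅FreeLieAlgebra.of R k, y⁆⁆
            rw [rb_cons _ k hu]; exact lie_lie _ _ _)
      rw [this, map_sub, rb_cons _ k hu, LieHom.map_lie, h1, hP, ← LieHom.map_lie, r1, ← hP, ← LieHom.map_lie, r2]
      abel

/-- THEOREM (3B), the functionals `lam'` on the free Lie algebra -/
theorem tbF (h2 : IsUnit (2 : R)) (n : ℕ) (hn : 1 ≤ n) (chi : Om → LL R Om n →ₗ[R] B)
    (H : ∀ D : Fin (n + 1) → Om, ∃ lam : PS R (FreeLieAlgebra.of R : Fin (n + 1) → FreeLieAlgebra R (Fin (n + 1)))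
        (List.finRange (n + 1)) →ₗ[R] B,
      ∀ (k : Fin (n + 1)) (w : List (Fin (n + 1))) (h : (k :: w).Perm (List.finRange (n + 1))) (hw : w.length = n),
        chi (D k) ⟨br (w.map D), ll_mem (by rw [List.length_map, hw])⟩ =
          - lam ⟨rb (FreeLieAlgebra.of R) (k :: w), ps_mem _ h⟩) :
    ∃ lam : LL R Om (n + 1) →ₗ[R] B, ∀ (s : Om) (y : List Om → R) (hy : y ∈ LL R Om n),
      chi s ⟨y, hy⟩ = - lam ⟨AD s y, ad_ll s hy⟩ := by
  obtain ⟨de, hd, h1⟩ := der_exists fun s => xc n (chi s)
  have ha : ∀ u v : List Om, de (rb (FreeLieAlgebra.of R) u) (rb (FreeLieAlgebra.of R) v) +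
      de (rb (FreeLieAlgebra.of R) v) (rb (FreeLieAlgebra.of R) u) = 0 := by
    intro u v
    by_cases huv : u.length + v.length = n + 1
    · by_cases hu : u = []
      · subst hu
        have : rb (FreeLieAlgebra.of R : Om → FreeLieAlgebra R Om) [] = 0 := rfl
        rw [this, map_zero, map_zero, LinearMap.zero_apply, add_zero]
      by_cases hv : v = []
      · subst hv
        have : rb (FreeLieAlgebra.of R : Om → FreeLieAlgebra R Om) [] = 0 := rfl
        rw [this, map_zero, map_zero, LinearMap.zero_apply, add_zero]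
      have hlen : (u ++ v).length = n + 1 := by rw [List.length_append]; exact huv
      let D : Fin (n + 1) → Om := fun i => (u ++ v).get (i.cast hlen.symm)
      have hD : (List.finRange (n + 1)).map D = u ++ v := by
        refine List.ext_getElem (by simp [hlen]) fun i h1 h2 => ?_
        simp [D]
      set u0 := (List.finRange (n + 1)).take u.length with hu0
      set v0 := (List.finRange (n + 1)).drop u.length with hv0
      have e0 : u0 ++ v0 = List.finRange (n + 1) := List.take_append_drop _ _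
      have eu : u0.map D = u := by rw [hu0, List.map_take, hD, List.take_left']; rfl
      have ev' : v0.map D = v := by rw [hv0, List.map_drop, hD, List.drop_left']; rfl
      have hu0' : u0 ≠ [] := fun h => hu (by rw [← eu, h]; rfl)
      have hv0' : v0 ≠ [] := fun h => hv (by rw [← ev', h]; rfl)
      obtain ⟨lamF, H'⟩ := H D
      let P : FreeLieAlgebra R (Fin (n + 1)) →ₗ⁅R⁆ FreeLieAlgebra R Om := FreeLieAlgebra.lift R fun k => FreeLieAlgebra.of R (D k)
      have hP : ∀ k, P (FreeLieAlgebra.of R k) = FreeLieAlgebra.of R (D k) := fun k => FreeLieAlgebra.lift_of_apply _ _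
      have hPw : ∀ w : List (Fin (n + 1)), P (rb (FreeLieAlgebra.of R) w) = rb (FreeLieAlgebra.of R) (w.map D) := by
        intro w
        rw [rb_map, funext hP]
        induction w with
        | nil => rfl
        | cons a w ih =>
          by_cases hw : w = []
          · subst hw; rfl
          · rw [rb_cons _ a hw, ih, List.map_cons, rb_cons _ _ (by simpa using hw)]
      have m1 : ⁅rb (FreeLieAlgebra.of R) u0, rb (FreeLieAlgebra.of R) v0⁆ ∈
          PS R (FreeLieAlgebra.of R : Fin (n + 1) → FreeLieAlgebra R (Fin (n + 1))) (List.finRange (n + 1)) := by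
        have := ps_lie1 (R := R) (FreeLieAlgebra.of R) u0 (ps_mem (R := R) (FreeLieAlgebra.of R) (List.Perm.refl v0))
        rw [e0] at this
        exact this
      have m2 : ⁅rb (FreeLieAlgebra.of R) v0, rb (FreeLieAlgebra.of R) u0⁆ ∈
          PS R (FreeLieAlgebra.of R : Fin (n + 1) → FreeLieAlgebra R (Fin (n + 1))) (List.finRange (n + 1)) := by
        rw [← lie_skew]
        exact Submodule.neg_mem _ m1
      have r1 := de_mul hn hd h1 D lamF H' P hP u0 hu0' v0 (by rw [e0]) _ (ps_mem _ (List.Perm.refl v0)) m1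
      have r2 := de_mul hn hd h1 D lamF H' P hP v0 hv0' u0 (by rw [← e0]; exact List.perm_append_comm) _
        (ps_mem _ (List.Perm.refl u0)) m2
      rw [hPw, hPw, eu, ev'] at r1 r2
      rw [r1, r2]
      have : (⟨_, m2⟩ : PS R (FreeLieAlgebra.of R : Fin (n + 1) → FreeLieAlgebra R (Fin (n + 1))) (List.finRange (n + 1))) =
        - ⟨_, m1⟩ := Subtype.ext (lie_skew _ _).symm
      rw [this, map_neg]
      abel
    · rw [de_zero hd h1 u v huv _ (ps_mem _ (List.Perm.refl v)),
        de_zero hd h1 v u (by omega) _ (ps_mem _ (List.Perm.refl u)), add_zero]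
  obtain ⟨Ps, hPs⟩ := fr h2 de h1 ha
  obtain ⟨lam, hlam⟩ := ll_map (FreeLieAlgebra.of R : Om → FreeLieAlgebra R Om) Ps (n + 1)
  refine ⟨-lam, fun s y hy => ?_⟩
  rw [LinearMap.neg_apply, neg_neg]
  have e : chi s = lam.comp (((AD s).domRestrict (LL R Om n)).codRestrict (LL R Om (n + 1)) fun y => ad_ll s y.2) := by
    refine ll_ext fun w hw => ?_
    have hw0 : w ≠ [] := fun h => by rw [h, List.length_nil] at hw; omega
    have e2 : lam ⟨br (s :: w), ll_mem (by rw [List.length_cons, hw])⟩ = chi s ⟨br w, ll_mem hw⟩ := by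
      rw [hlam (s :: w) (by rw [List.length_cons, hw]), rb_cons _ s hw0, hPs, hd, xc_rb n _ _ hw]
    rw [← e2]
    exact congrArg lam (Subtype.ext (AD_br s hw0).symm)
  rw [e]
  rfl

/-- THEOREM (3B) -/
theorem tb (h2 : IsUnit (2 : R)) (n : ℕ) (hn : 1 ≤ n) (chi : Om → LL R Om n →ₗ[R] B)
    (H : ∀ D : Fin (n + 1) → Om, ∃ lam : LP R (List.finRange (n + 1)) →ₗ[R] B,
      ∀ (k : Fin (n + 1)) (w : List (Fin (n + 1))) (h : (k :: w).Perm (List.finRange (n + 1))) (hw : w.length = n),
        chi (D k) ⟨br (w.map D), ll_mem (by rw [List.length_map, hw])⟩ = - lam ⟨br (k :: w), lp_mem h⟩) :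
    ∃ lam : LL R Om (n + 1) →ₗ[R] B, ∀ (s : Om) (y : List Om → R) (hy : y ∈ LL R Om n),
      chi s ⟨y, hy⟩ = - lam ⟨AD s y, ad_ll s hy⟩ := by
  refine tbF h2 n hn chi fun D => ?_
  obtain ⟨lam, hlam⟩ := H D
  refine ⟨lam.comp ((ev.domRestrict (PS R (FreeLieAlgebra.of R : Fin (n + 1) → FreeLieAlgebra R (Fin (n + 1)))
    (List.finRange (n + 1)))).codRestrict (LP R (List.finRange (n + 1))) fun z => ev_ps z.2), fun k w h hw => ?_⟩
  rw [hlam k w h hw]
  congr 1
  refine congrArg lam (Subtype.ext ?_)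
  exact (ev_rb (k :: w)).symm

end tb

end H88.S3
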