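import Pool.Agent.H88.S3.Gev
import Pool.Agent.H88.S3.Fal

/-!
# [H88 S3 UNS] MP_b39724_nt, stage 3 and UBX: from an unlinked tuple to the functional `lam` (`Q1`, `Q2` of Fal.lean)

`P` a group with filtration `f`, labels `Om` with representatives `s a ∈ f 1`, `chk a` functionals of the layer `n`, `ka z` (`z : G`)
functionals of the layer `n + 1`. Letters `Lr (Fin (n + 1)) Om` as in H62/BL/Alg. `LamF`: the functional `Lam (a :: w) = chk a.l (rn w)` on
words with every index once and last index `0`; `KwF l₀`: as `LG.kw`. If `Lam` is twisted equivariant (`Tw`) and the tuple with the labels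
`lab k` is unlinked (`Un`: `KwF (lab 0)` vanishes on the brackets of letters `(k, u • lab k)`) then `lam y = - ∑ y(t) Lam(t)`, pulled back along `(k, u) → (k, u • lab k)`,
satisfies `Q1`, `Q2`.
-/

set_option autoImplicit false

open scoped Classical

noncomputable section

namespace H88.S3

open H62.BL

variable {P R G Om : Type} [Group P] [CommRing R] [Group G] [MulAction G Om] {f : ℕ → Subgroup P} {n : ℕ}

/-- the functional on words with every index once, last index `0` -/
def LamF (n : ℕ) (s : Om → P) (chk : Om → P → R) : List (Lr (Fin (n + 1)) Om) → R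
  | [] => 0
  | a :: w => if ((a :: w).map Lr.i).Nodup ∧ w.length = n ∧ (w.map Lr.i).getLast? = some 0 then
      chk a.l (rn (w.map fun b => s b.l)) else 0

/-- the functional on words with every index `≠ 0` once -/
def KwF (n : ℕ) (s : Om → P) (chk : Om → P → R) (l₀ : Om) : List (Lr (Fin (n + 1)) Om) → R
  | [] => 0
  | a :: w => if ((a :: w).map Lr.i).Nodup ∧ w.length + 1 = n ∧ (∀ b ∈ a :: w, b.i ≠ 0) then
      (if ((a :: w).map Lr.i).getLast? = some 1 then chk l₀ (rn ((a :: w).map fun b => s b.l)) else 0) +
        chk a.l (rn ((w ++ [(⟨0, l₀⟩ : Lr (Fin (n + 1)) Om)]).map fun b => s b.l)) else 0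

variable [Fintype Om] [Fintype G]

/-- letters with group elements to letters with labels -/
def El (lab : Fin (n + 1) → Om) : Fin (n + 1) × G → Lr (Fin (n + 1)) Om := fun x => ⟨x.1, x.2 • lab x.1⟩

/-- unlinked -/
def Un (G : Type) [Group G] [MulAction G Om] (n : ℕ) (s : Om → P) (chk : Om → P → R) (lab : Fin (n + 1) → Om) : Prop :=
  ∀ V : List (Fin (n + 1) × G), (V.map Prod.fst).Nodup → V.length = n → (∀ b ∈ V, b.1 ≠ 0) →
    sw n (fun w => br (V.map (El lab)) w * KwF n s chk (lab 0) w) = 0

/-- twisted equivariance -/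
def Tw (n : ℕ) (s : Om → P) (chk : Om → P → R) (ka : G → P → R) : Prop :=
  ∀ (z : G) (w : List (Lr (Fin (n + 1)) Om)), LamF n s chk (w.map fun a => z • a) = LamF n s chk w -
    if (w.map Lr.i).Nodup ∧ w.length = n + 1 ∧ (w.map Lr.i).getLast? = some 0 then ka z⁻¹ (rn (w.map fun b => s b.l)) else 0

/-- push forward of letters -/
theorem sw_push {α β : Type} [Fintype α] [Fintype β] (E : α → β) (W : List α) (F : List β → R) :
    sw W.length (fun w => br W w * F (w.map E)) = sw W.length (fun w => br (W.map E) w * F w) := by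
  induction W generalizing F with
  | nil =>
    refine (Finset.sum_eq_zero fun t _ => ?_).trans (Finset.sum_eq_zero fun t _ => ?_).symm
    · show (0 : R) * _ = 0
      rw [zero_mul]
    · show (0 : R) * _ = 0
      rw [zero_mul]
  | cons a W ih =>
    by_cases hW : W = []
    · subst hW
      have e1 : ∀ {γ : Type} [Fintype γ] (c : γ) (F : List γ → R), sw 1 (fun w => br [c] w * F w) = F [c] := by
        intro γ _ c F
        rw [sw, Fintype.sum_eq_single (fun _ => c)]
        · have : (List.ofFn fun _ : Fin 1 => c) = [c] := rfl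
          rw [this]
          show el c [c] * F [c] = F [c]
          rw [el, if_pos rfl, one_mul]
        · intro t ht
          have : List.ofFn t ≠ [c] := fun h => ht (by
            funext i
            have h2 : i = 0 := Subsingleton.elim _ _
            subst h2
            simpa using h)
          show el c (List.ofFn t) * _ = 0
          rw [el, if_neg this, zero_mul]
      show sw 1 _ = sw 1 (fun w => br [E a] w * F w)
      rw [e1 (E a) F]
      exact e1 a fun w => F (w.map E)
    · have hW' : W.map E ≠ [] := by simpa using hW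
      have h1 := ih (fun w => F (E a :: w))
      have h2 := ih (fun w => F (w ++ [E a]))
      have e2 : sw W.length (fun w => br W w * F ((w ++ [a]).map E)) = sw W.length (fun w => br W w * F (w.map E ++ [E a])) :=
        Finset.sum_congr rfl fun t _ => by
          show _ * F ((List.ofFn t ++ [a]).map E) = _
          rw [List.map_append]
          rfl
      rw [List.length_cons, List.map_cons, sw_br _ (E a) hW', sw_br _ a hW, ← h1, ← h2, e2]
      rfl

variable {s : Om → P} {chk : Om → P → R} {ka : G → P → R}

omit [MulAction G Om] [Fintype G] [Group G] in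
/-- first letter of index `≠ 0` -/
theorem lam_ne (hF : Fl f) (hs : ∀ a, s a ∈ f 1) (hchk : ∀ a, LF f n (chk a)) (hn : 1 ≤ n) {x : Lr (Fin (n + 1)) Om} (hx : x.i ≠ 0)
    {W : List (Lr (Fin (n + 1)) Om)} (hW : W.length = n) (hnd : ((x :: W).map Lr.i).Nodup) (h0 : (0 : Fin (n + 1)) ∈ W.map Lr.i) :
    sw (n + 1) (fun w => br (x :: W) w * LamF n s chk w) = chk x.l (rn (W.map fun b => s b.l)) := by
  have hW0 : W ≠ [] := fun h => by rw [h, List.length_nil] at hW; omega
  have e1 : sw n (fun w => br W w * LamF n s chk (w ++ [x])) = 0 := by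
    refine Finset.sum_eq_zero fun t _ => ?_
    show _ * LamF n s chk (List.ofFn t ++ [x]) = 0
    have ht : List.ofFn t ≠ [] := fun h => by
      have := congrArg List.length h
      rw [List.length_ofFn, List.length_nil] at this
      omega
    obtain ⟨a, w, haw⟩ := List.exists_cons_of_ne_nil ht
    rw [haw, List.cons_append, LamF, if_neg, mul_zero]
    rintro ⟨-, -, h⟩
    rw [List.map_append, List.map_singleton, List.getLast?_append] at h
    simp [hx] at h
  rw [sw_br _ x hW0, e1, sub_zero]
  have hm := ml (R := R) Lr.i (0 : Fin (n + 1)) hF (g := fun b : Lr (Fin (n + 1)) Om => s b.l) (fun b => hs b.l) W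
    (List.nodup_cons.1 hnd).2 h0 (chk x.l) (by rw [hW]; exact hchk x.l)
  rw [hm, hW]
  refine Finset.sum_congr rfl fun t _ => ?_
  show br W (List.ofFn t) * LamF n s chk (x :: List.ofFn t) = br W (List.ofFn t) * _
  by_cases hb : (br W (List.ofFn t) : R) = 0
  · rw [hb, zero_mul, zero_mul]
  · have hp := br_perm W (List.ofFn t) hb
    congr 1
    rw [LamF]
    by_cases hl : ((List.ofFn t).map Lr.i).getLast? = some (0 : Fin (n + 1))
    · rw [if_pos hl, if_pos]
      refine ⟨?_, by rw [List.length_ofFn], hl⟩
      exact (((hp.map Lr.i).cons x.i).nodup_iff).2 hnd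
    · rw [if_neg hl, if_neg fun h => hl h.2.2]

omit [MulAction G Om] [Fintype G] [Group G] in
/-- first letter of index `0` -/
theorem lam_zero (hF : Fl f) (hs : ∀ a, s a ∈ f 1) (hchk : ∀ a, LF f n (chk a)) (hn : 1 ≤ n) {l₀ : Om}
    {W : List (Lr (Fin (n + 1)) Om)} (h2 : sw n (fun w => br W w * KwF n s chk l₀ w) = 0) (hW : W.length = n)
    (hnd : (W.map Lr.i).Nodup) (h0 : ∀ b ∈ W, b.i ≠ 0) (h1 : (1 : Fin (n + 1)) ∈ W.map Lr.i) :
    sw (n + 1) (fun w => br (⟨0, l₀⟩ :: W) w * LamF n s chk w) = chk l₀ (rn (W.map fun b => s b.l)) := by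
  have hW0 : W ≠ [] := fun h => by rw [h, List.length_nil] at hW; omega
  have e1 : sw n (fun w => br W w * LamF n s chk (⟨0, l₀⟩ :: w)) = 0 := by
    refine Finset.sum_eq_zero fun t _ => ?_
    show br W (List.ofFn t) * LamF n s chk (⟨0, l₀⟩ :: List.ofFn t) = 0
    by_cases hb : (br W (List.ofFn t) : R) = 0
    · rw [hb, zero_mul]
    · have hp := br_perm W (List.ofFn t) hb
      rw [LamF, if_neg, mul_zero]
      rintro ⟨-, -, h⟩
      rw [List.getLast?_eq_some_iff] at h
      obtain ⟨ys, hys⟩ := h
      have : (0 : Fin (n + 1)) ∈ (List.ofFn t).map Lr.i := by rw [hys]; simp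
      obtain ⟨b, hb1, hb2⟩ := List.mem_map.1 this
      exact h0 b (hp.mem_iff.1 hb1) hb2
  rw [sw_br _ _ hW0, e1, zero_sub]
  have hm := ml (R := R) Lr.i (1 : Fin (n + 1)) hF (g := fun b : Lr (Fin (n + 1)) Om => s b.l) (fun b => hs b.l) W
    hnd h1 (chk l₀) (by rw [hW]; exact hchk l₀)
  rw [hW] at hm
  have h3 : sw n (fun w => br W w * KwF n s chk l₀ w) =
      sw n (fun w => br W w * if (w.map Lr.i).getLast? = some 1 then chk l₀ (rn (w.map fun b => s b.l)) else 0) +
        sw n (fun w => br W w * LamF n s chk (w ++ [⟨0, l₀⟩])) := by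
    rw [sw, sw, sw, ← Finset.sum_add_distrib]
    refine Finset.sum_congr rfl fun t _ => ?_
    rw [← mul_add]
    by_cases hb : (br W (List.ofFn t) : R) = 0
    · rw [hb, zero_mul, zero_mul]
    · have hp := br_perm W (List.ofFn t) hb
      congr 1
      have ht : List.ofFn t ≠ [] := fun h => by
        have := congrArg List.length h
        rw [List.length_ofFn, List.length_nil] at this
        omega
      have hlen : (List.ofFn t).length = n := List.length_ofFn
      have hnd2 : ((List.ofFn t).map Lr.i).Nodup := ((hp.map Lr.i).nodup_iff).2 hnd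
      have h02 : ∀ b ∈ List.ofFn t, b.i ≠ 0 := fun b hb => h0 b (hp.mem_iff.1 hb)
      generalize List.ofFn t = v at *
      rcases v with _ | ⟨a, w⟩
      · exact absurd rfl ht
      rw [KwF, if_pos (show ((a :: w).map Lr.i).Nodup ∧ w.length + 1 = n ∧ (∀ b ∈ a :: w, b.i ≠ 0) from
        ⟨hnd2, by simpa using hlen, h02⟩)]
      congr 1
      rw [List.cons_append, LamF, if_pos]
      refine ⟨?_, by simpa using hlen, by simp⟩
      rw [← List.cons_append, List.map_append]
      refine List.nodup_append.2 ⟨hnd2, by simp, ?_⟩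
      intro i hi j hj hij
      obtain ⟨b, hb1, hb2⟩ := List.mem_map.1 hi
      have hj' : j = 0 := by simpa using hj
      exact h02 b hb1 (by rw [hb2, hij, hj'])
  rw [h3, ← hm] at h2
  exact (eq_neg_of_add_eq_zero_left h2).symm

omit [Fintype Om] [Fintype G] in
theorem El_i (lab : Fin (n + 1) → Om) (w : List (Fin (n + 1) × G)) : (w.map (El lab)).map Lr.i = w.map Prod.fst := by
  rw [List.map_map]; rfl

omit [Fintype Om] [Fintype G] in
theorem El_s (lab : Fin (n + 1) → Om) (w : List (Fin (n + 1) × G)) :
    (w.map (El lab)).map (fun b => s b.l) = (w.map (ex lab)).map s := by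
  rw [List.map_map, List.map_map]; rfl

/-- the functional -/
def lamL (n : ℕ) (s : Om → P) (chk : Om → P → R) (lab : Fin (n + 1) → Om) : (List (Fin (n + 1) × G) → R) →ₗ[R] R where
  toFun y := - sw (n + 1) (fun w => y w * LamF n s chk (w.map (El lab)))
  map_add' y z := by
    rw [← neg_add, sw, sw, sw, ← Finset.sum_add_distrib]
    congr 1
    exact Finset.sum_congr rfl fun t _ => by rw [Pi.add_apply, add_mul]
  map_smul' r y := by
    rw [RingHom.id_apply, smul_eq_mul, mul_neg, sw, sw, Finset.mul_sum]
    congr 1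
    exact Finset.sum_congr rfl fun t _ => by rw [Pi.smul_apply, smul_eq_mul, mul_assoc]

theorem lamL_br {lab : Fin (n + 1) → Om} {V : List (Fin (n + 1) × G)} (hV : V.length = n + 1) :
    lamL n s chk lab (br V) = - sw (n + 1) (fun w => br (V.map (El lab)) w * LamF n s chk w) := by
  have h := sw_push (El lab) V (LamF n s chk)
  rw [hV] at h
  show - sw (n + 1) (fun w => br V w * LamF n s chk (w.map (El lab))) = _
  rw [h]

/-- THEOREM: an unlinked tuple gives the functional `lam`. -/
theorem uns (hF : Fl f) (hs : ∀ a, s a ∈ f 1) (hchk : ∀ a, LF f n (chk a)) (hka : ∀ z, LF f (n + 1) (ka z)) (hn : 1 ≤ n)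
    (lab : Fin (n + 1) → Om) (hun : Un G n s chk lab) (htw : Tw n s chk ka) :
    ∃ lam : (List (Fin (n + 1) × G) → R) →ₗ[R] R,
      Q1 lab (fun k w => chk (lab k) (rn (w.map s))) lam ∧ Q2 lab (fun u w => ka u (rn (w.map s))) lam := by
  refine ⟨lamL n s chk lab, fun k w hw => ?_, fun u w hw => ?_⟩
  · have hlen : w.length = n := by
      have := hw.length_eq
      rw [List.length_cons, List.length_map, List.length_finRange] at this
      omega
    have hnd : (k :: w.map Prod.fst).Nodup := hw.nodup_iff.2 (List.nodup_finRange _)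
    rw [lamL_br (by rw [List.length_cons, hlen]), neg_neg]
    have e0 : El lab (k, (1 : G)) = ⟨k, lab k⟩ := by rw [El, one_smul]
    rw [List.map_cons, e0]
    show chk (lab k) (rn ((w.map (ex lab)).map s)) = _
    rw [← El_s]
    have hmem : ∀ i, i ∈ k :: w.map Prod.fst := fun i => hw.mem_iff.2 (List.mem_finRange i)
    by_cases hk : k = 0
    · subst hk
      have hnd2 := List.nodup_cons.1 hnd
      refine (lam_zero hF hs hchk hn (hun w hnd2.2 hlen fun b hb h => hnd2.1 (by rw [← h]; exact List.mem_map_of_mem hb))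
        (by rw [List.length_map, hlen]) (by rw [El_i]; exact hnd2.2) ?_ ?_).symm
      · intro b hb h
        have : b.i ∈ (w.map (El lab)).map Lr.i := List.mem_map_of_mem hb
        rw [El_i, h] at this
        exact (List.nodup_cons.1 hnd).1 this
      · rw [El_i]
        rcases List.mem_cons.1 (hmem 1) with h | h
        · exfalso
          have h2 := congrArg Fin.val h
          rw [Fin.val_one', Fin.val_zero, Nat.mod_eq_of_lt (by omega)] at h2
          omega
        · exact h
    · refine (lam_ne hF hs hchk hn (x := ⟨k, lab k⟩) hk (by rw [List.length_map, hlen]) ?_ ?_).symm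
      · rw [List.map_cons, El_i]
        exact hnd
      · rw [El_i]
        rcases List.mem_cons.1 (hmem 0) with h | h
        · exact absurd h.symm hk
        · exact h
  · have hlen : w.length = n + 1 := by
      have := hw.length_eq
      rw [List.length_map, List.length_finRange] at this
      exact this
    have hnd : (w.map Prod.fst).Nodup := hw.nodup_iff.2 (List.nodup_finRange _)
    rw [lamL_br (by rw [List.length_map, hlen]), lamL_br hlen]
    set W := w.map (El lab) with hW
    have hWlen : W.length = n + 1 := by rw [hW, List.length_map, hlen]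
    have e1 : (w.map fun x => (x.1, u⁻¹ * x.2)).map (El lab) = W.map fun a => u⁻¹ • a := by
      rw [hW, List.map_map, List.map_map]
      refine List.map_congr_left fun x _ => ?_
      show (⟨x.1, (u⁻¹ * x.2) • lab x.1⟩ : Lr (Fin (n + 1)) Om) = u⁻¹ • (⟨x.1, x.2 • lab x.1⟩ : Lr (Fin (n + 1)) Om)
      rw [lr_smul, mul_smul]
    have e2 := sw_push (fun a : Lr (Fin (n + 1)) Om => u⁻¹ • a) W (LamF n s chk)
    rw [hWlen] at e2
    rw [e1, ← e2]
    have hm := ml (R := R) Lr.i (0 : Fin (n + 1)) hF (g := fun b : Lr (Fin (n + 1)) Om => s b.l) (fun b => hs b.l) W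
      (by rw [El_i]; exact hnd) (by rw [El_i]; exact hw.mem_iff.2 (List.mem_finRange 0)) (ka u) (by rw [hWlen]; exact hka u)
    rw [hWlen] at hm
    have e3 : sw (n + 1) (fun w => br W w * LamF n s chk (w.map fun a => u⁻¹ • a)) =
        sw (n + 1) (fun w => br W w * LamF n s chk w) -
          sw (n + 1) (fun w => br W w * if (w.map Lr.i).getLast? = some 0 then ka u (rn (w.map fun b => s b.l)) else 0) := by
      rw [← sw_sub]
      refine Finset.sum_congr rfl fun t _ => ?_
      show _ * LamF n s chk ((List.ofFn t).map fun a => u⁻¹ • a) = _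
      rw [htw u⁻¹ (List.ofFn t), inv_inv, mul_sub]
      congr 1
      by_cases hb : (br W (List.ofFn t) : R) = 0
      · rw [hb, zero_mul, zero_mul]
      · have hp := br_perm W (List.ofFn t) hb
        congr 1
        by_cases hl : ((List.ofFn t).map Lr.i).getLast? = some (0 : Fin (n + 1))
        · rw [if_pos hl, if_pos]
          exact ⟨((hp.map Lr.i).nodup_iff).2 (by rw [El_i]; exact hnd), List.length_ofFn, hl⟩
        · rw [if_neg hl, if_neg fun h => hl h.2.2]
    rw [e3, ← hm]
    show _ = ka u (rn ((w.map (ex lab)).map s))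
    rw [← El_s]
    ring

end H88.S3
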